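import Mathlib

set_option autoImplicit false
set_option linter.unusedSectionVars false

namespace Pool.Agent.H.MP_aed2d0_al

open Finset

variable (k : ℕ) {ν : Type} [DecidableEq ν]

/-- The span of the monomials in exactly the variables of `S`, as functions. -/
def Pol (S : Finset ν) :
    Submodule ℚ ((ν → Matrix (Fin k) (Fin k) ℚ) → Matrix (Fin k) (Fin k) ℚ) :=
  Submodule.span ℚ {f | ∃ l : List ν, l.Nodup ∧ l.toFinset = S ∧ f = fun x => (l.map x).prod}

theorem mon_mem {S : Finset ν} (l : List ν) (h1 : l.Nodup) (h2 : l.toFinset = S) :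
    (fun x : ν → Matrix (Fin k) (Fin k) ℚ => (l.map x).prod) ∈ Pol k S :=
  Submodule.subset_span ⟨l, h1, h2, rfl⟩

/-- Principle: a linear operator which maps monomials into `W` maps `Pol` into `W`. -/
theorem Pol_induction {V : Type} [AddCommGroup V] [Module ℚ V] {S : Finset ν}
    (T : ((ν → Matrix (Fin k) (Fin k) ℚ) → Matrix (Fin k) (Fin k) ℚ) →ₗ[ℚ] V)
    (W : Submodule ℚ V)
    (h : ∀ l : List ν, l.Nodup → l.toFinset = S →
      T (fun x => (l.map x).prod) ∈ W) {f} (hf : f ∈ Pol k S) : T f ∈ W := by
  have : Pol k S ≤ W.comap T := by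
    unfold Pol
    rw [Submodule.span_le]
    rintro _ ⟨l, h1, h2, rfl⟩
    exact h l h1 h2
  exact this hf

theorem map_update_of_notMem {α : Type} (l : List ν) (j : ν) (y : α) (x : ν → α) (h : j ∉ l) :
    l.map (Function.update x j y) = l.map x := by
  apply List.map_congr_left
  intro a ha
  rw [Function.update_of_ne]
  rintro rfl
  exact h ha

theorem subst_right {S : Finset ν} {j j' : ν} (hj : j ∈ S) (hj' : j' ∉ S) {f}
    (hf : f ∈ Pol k S) :
    (fun x => f (Function.update x j (x j * x j'))) ∈ Pol k (insert j' S) := by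
  refine Pol_induction k (LinearMap.funLeft ℚ (Matrix (Fin k) (Fin k) ℚ)
    (fun x : ν → Matrix (Fin k) (Fin k) ℚ => Function.update x j (x j * x j')))
    (Pol k (insert j' S)) ?_ hf
  intro l h1 h2
  have hjl : j ∈ l := by rw [← List.mem_toFinset, h2]; exact hj
  have hj'l : j' ∉ l := by rw [← List.mem_toFinset, h2]; exact hj'
  obtain ⟨l1, l2, rfl⟩ := List.append_of_mem hjl
  have hn := h1
  rw [List.nodup_append] at hn
  obtain ⟨hn1, hn2, hn3⟩ := hn
  rw [List.nodup_cons] at hn2
  have hjl1 : j ∉ l1 := fun h => hn3 j h j (by simp) rfl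
  convert mon_mem k (S := insert j' S) (l1 ++ j :: j' :: l2) ?_ ?_ using 1
  · funext x
    change (List.map (Function.update x j (x j * x j')) (l1 ++ j :: l2)).prod = _
    rw [List.map_append, List.map_cons, map_update_of_notMem _ _ _ _ hjl1,
      map_update_of_notMem _ _ _ _ hn2.1]
    simp [mul_assoc]
  · have hp : (l1 ++ j :: j' :: l2).Perm (j' :: (l1 ++ j :: l2)) := by
      have : l1 ++ j :: j' :: l2 = (l1 ++ [j]) ++ j' :: l2 := by simp
      rw [this]
      refine List.perm_middle.trans ?_
      simp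
    rw [hp.nodup_iff, List.nodup_cons]
    exact ⟨hj'l, h1⟩
  · rw [← h2]
    ext v
    simp
    tauto

theorem subst_left {S : Finset ν} {j j' : ν} (hj : j ∈ S) (hj' : j' ∉ S) {f}
    (hf : f ∈ Pol k S) :
    (fun x => f (Function.update x j (x j' * x j))) ∈ Pol k (insert j' S) := by
  refine Pol_induction k (LinearMap.funLeft ℚ (Matrix (Fin k) (Fin k) ℚ)
    (fun x : ν → Matrix (Fin k) (Fin k) ℚ => Function.update x j (x j' * x j)))
    (Pol k (insert j' S)) ?_ hf
  intro l h1 h2
  have hjl : j ∈ l := by rw [← List.mem_toFinset, h2]; exact hj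
  have hj'l : j' ∉ l := by rw [← List.mem_toFinset, h2]; exact hj'
  obtain ⟨l1, l2, rfl⟩ := List.append_of_mem hjl
  have hn := h1
  rw [List.nodup_append] at hn
  obtain ⟨hn1, hn2, hn3⟩ := hn
  rw [List.nodup_cons] at hn2
  have hjl1 : j ∉ l1 := fun h => hn3 j h j (by simp) rfl
  convert mon_mem k (S := insert j' S) (l1 ++ j' :: j :: l2) ?_ ?_ using 1
  · funext x
    change (List.map (Function.update x j (x j' * x j)) (l1 ++ j :: l2)).prod = _
    rw [List.map_append, List.map_cons, map_update_of_notMem _ _ _ _ hjl1,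
      map_update_of_notMem _ _ _ _ hn2.1]
    simp [mul_assoc]
  · rw [List.perm_middle.nodup_iff, List.nodup_cons]
    exact ⟨hj'l, h1⟩
  · rw [← h2]
    ext v
    simp

/-- Razmyslov's transposition of a variable, evaluated at `1`. -/
theorem dagger {S : Finset ν} {j : ν} (hj : j ∉ S) {f} (hf : f ∈ Pol k (insert j S)) :
    (fun x => Matrix.of fun a b =>
      Matrix.trace (f (Function.update x j (Matrix.single b a 1)))) ∈ Pol k S := by
  let T : ((ν → Matrix (Fin k) (Fin k) ℚ) → Matrix (Fin k) (Fin k) ℚ) →ₗ[ℚ]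
      ((ν → Matrix (Fin k) (Fin k) ℚ) → Matrix (Fin k) (Fin k) ℚ) :=
    { toFun := fun f x => Matrix.of fun a b =>
        Matrix.trace (f (Function.update x j (Matrix.single b a 1)))
      map_add' := by
        intro f g
        funext x
        ext a b
        simp
      map_smul' := by
        intro c f
        funext x
        ext a b
        simp }
  refine Pol_induction k T (Pol k S) ?_ hf
  intro l h1 h2
  have hjl : j ∈ l := by rw [← List.mem_toFinset, h2]; simp
  obtain ⟨l1, l2, rfl⟩ := List.append_of_mem hjl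
  have hn := h1
  rw [List.nodup_append] at hn
  obtain ⟨hn1, hn2, hn3⟩ := hn
  rw [List.nodup_cons] at hn2
  have hjl1 : j ∉ l1 := fun h => hn3 j h j (by simp) rfl
  convert mon_mem k (S := S) (l2 ++ l1) ?_ ?_ using 1
  · funext x
    ext a b
    change Matrix.trace (List.map (Function.update x j (Matrix.single b a 1))
      (l1 ++ j :: l2)).prod = _
    rw [List.map_append, List.map_cons, map_update_of_notMem _ _ _ _ hjl1,
      map_update_of_notMem _ _ _ _ hn2.1]
    rw [List.prod_append, List.prod_cons, Function.update_self, ← mul_assoc,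
      Matrix.trace_mul_comm, ← mul_assoc, List.map_append, List.prod_append]
    rw [Matrix.trace_mul_single]
    simp
  · rw [List.nodup_append]
    refine ⟨hn2.2, hn1, ?_⟩
    intro a ha b hb hab
    exact hn3 b hb a (by simp [ha]) hab.symm
  · ext v
    have h3 : v ∈ (l1 ++ j :: l2).toFinset ↔ v ∈ insert j S := by rw [h2]
    simp only [List.mem_toFinset, List.mem_append, List.mem_cons, Finset.mem_insert] at h3 ⊢
    have h4 : v = j → v ∉ S := fun h => h ▸ hj
    have h5 : v = j → v ∉ l1 := fun h => h ▸ hjl1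
    have h6 : v = j → v ∉ l2 := fun h => h ▸ hn2.1
    tauto

/-- Renaming of variables, some of which may be replaced by `1`. -/
theorem rename {ν' : Type} [DecidableEq ν'] {S : Finset ν} {S' : Finset ν'}
    (ρ : ν → Option ν') (hinj : ∀ v ∈ S, ∀ v' ∈ S, ρ v = ρ v' → ρ v ≠ none → v = v')
    (hS : ∀ v', v' ∈ S' ↔ ∃ v ∈ S, ρ v = some v') {f} (hf : f ∈ Pol k S) :
    (fun x : ν' → Matrix (Fin k) (Fin k) ℚ => f (fun v => (ρ v).elim 1 x)) ∈ Pol k S' := by
  refine Pol_induction k (LinearMap.funLeft ℚ (Matrix (Fin k) (Fin k) ℚ)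
    (fun (x : ν' → Matrix (Fin k) (Fin k) ℚ) (v : ν) => (ρ v).elim 1 x))
    (Pol k S') ?_ hf
  intro l h1 h2
  convert mon_mem k (S := S') (l.filterMap ρ) ?_ ?_ using 1
  · funext x
    change (List.map (fun v => (ρ v).elim 1 x) l).prod = _
    clear h1 h2
    induction l with
    | nil => simp
    | cons a l ih =>
      rw [List.map_cons, List.prod_cons, ih]
      cases h : ρ a with
      | none => simp [h]
      | some b => simp [h]
  · have : ∀ v ∈ l, v ∈ S := by
      intro v hv
      rw [← h2, List.mem_toFinset]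
      exact hv
    clear h2
    induction l with
    | nil => simp
    | cons a l ih =>
      rw [List.nodup_cons] at h1
      have ih' := ih h1.2 (fun v hv => this v (by simp [hv]))
      cases h : ρ a with
      | none => simpa [h] using ih'
      | some b =>
        rw [List.filterMap_cons_some h, List.nodup_cons]
        refine ⟨?_, ih'⟩
        intro hb
        rw [List.mem_filterMap] at hb
        obtain ⟨c, hc, hc2⟩ := hb
        have := hinj a (this a (by simp)) c (this c (by simp [hc])) (by rw [h, hc2]) (by simp [h])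
        rw [this] at h1
        exact h1.1 hc
  · ext v'
    rw [List.mem_toFinset, List.mem_filterMap, hS]
    constructor
    · rintro ⟨v, hv, hv2⟩
      exact ⟨v, by rw [← h2, List.mem_toFinset]; exact hv, hv2⟩
    · rintro ⟨v, hv, hv2⟩
      exact ⟨v, by rw [← h2, List.mem_toFinset] at hv; exact hv, hv2⟩

end Pool.Agent.H.MP_aed2d0_al
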