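import Mathlib
import Pool.Agent.H.MP_aed2d0_al.Mon

set_option autoImplicit false
set_option linter.unusedSectionVars false

namespace Pool.Agent.H.MP_aed2d0_al

open Finset

theorem det_derivation {ι R M : Type} [CommRing R] [AddCommGroup M] [Module R M] [Fintype ι]
    [DecidableEq ι] (e : Module.Basis ι R M) (L : M →ₗ[R] M) (v : ι → M) :
    ∑ i, e.det (Function.update v i (L (v i))) = LinearMap.trace R M L * e.det v := by
  have h1 : ∀ i, e.det (Function.update v i (L (v i))) =
      ((e.toMatrix v).adjugate * (LinearMap.toMatrix e e L * e.toMatrix v)) i i := by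
    intro i
    rw [Module.Basis.det_apply, Module.Basis.toMatrix_update, ← Matrix.cramer_apply,
      Matrix.cramer_eq_adjugate_mulVec, ← LinearMap.toMatrix_mulVec_repr e e]
    rw [Matrix.mul_apply, Matrix.mulVec, dotProduct]
    apply Finset.sum_congr rfl
    intro j _
    congr 1
  simp only [h1]
  change Matrix.trace ((e.toMatrix v).adjugate * (LinearMap.toMatrix e e L * e.toMatrix v)) = _
  rw [Matrix.trace_mul_comm, mul_assoc, Matrix.mul_adjugate, Matrix.mul_smul, mul_one,
    Matrix.trace_smul, LinearMap.trace_eq_matrix_trace R e L, smul_eq_mul, mul_comm,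
    Module.Basis.det_apply]

variable (k : ℕ)

/-- the basis of matrix units, numbered -/
noncomputable def eb : Module.Basis (Fin (k * k)) ℚ (Matrix (Fin k) (Fin k) ℚ) :=
  (Matrix.stdBasis ℚ (Fin k) (Fin k)).reindex finProdFinEquiv

theorem eb_apply (i : Fin (k * k)) : eb k i =
    Matrix.single (finProdFinEquiv.symm i).1 (finProdFinEquiv.symm i).2 1 := by
  rw [eb, Module.Basis.reindex_apply, Matrix.stdBasis_eq_single]

theorem trace_mulLeft (z : Matrix (Fin k) (Fin k) ℚ) :
    LinearMap.trace ℚ (Matrix (Fin k) (Fin k) ℚ) (LinearMap.mulLeft ℚ z) = k * z.trace := by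
  rw [LinearMap.trace_eq_matrix_trace ℚ (Matrix.stdBasis ℚ (Fin k) (Fin k))]
  rw [Matrix.trace, Fintype.sum_prod_type]
  have : ∀ i j : Fin k, (LinearMap.toMatrix (Matrix.stdBasis ℚ (Fin k) (Fin k))
      (Matrix.stdBasis ℚ (Fin k) (Fin k)) (LinearMap.mulLeft ℚ z)).diag (i, j) = z i i := by
    intro i j
    rw [Matrix.diag_apply, LinearMap.toMatrix_apply, LinearMap.mulLeft_apply,
      Matrix.stdBasis_eq_single]
    change (z * Matrix.single i j (1 : ℚ) : Matrix (Fin k) (Fin k) ℚ) i j = z i i
    simp
  simp only [this]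
  rw [Finset.sum_comm]
  simp [Matrix.trace]

variable {k}
variable {ν : Type} [DecidableEq ν]

/-- the determinant in the variables `A` -/
noncomputable def detA (A : Fin (k * k) → ν) (x : ν → Matrix (Fin k) (Fin k) ℚ) : ℚ :=
  (eb k).det (fun i => x (A i))

theorem absorb (hk : 1 ≤ k) {S : Finset ν} (A : Fin (k * k) → ν) (hA : Function.Injective A)
    (hAS : ∀ i, A i ∈ S) {z : ν} (hz : z ∉ S)
    (ψ : (ν → Matrix (Fin k) (Fin k) ℚ) → Matrix (Fin k) (Fin k) ℚ)
    (hψ : ∀ x i M, ψ (Function.update x (A i) M) = ψ x)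
    (h : (fun x => detA A x • ψ x) ∈ Pol k S) :
    (fun x => (Matrix.trace (x z) * detA A x) • ψ x) ∈ Pol k (insert z S) := by
  have h1 : ∀ i, (fun x => detA A (Function.update x (A i) (x z * x (A i))) • ψ x) ∈
      Pol k (insert z S) := by
    intro i
    have := subst_left k (hAS i) hz h
    simpa only [hψ] using this
  have h2 : (fun x : ν → Matrix (Fin k) (Fin k) ℚ =>
      (Matrix.trace (x z) * detA A x) • ψ x) = ((k : ℚ)⁻¹) •
      ∑ i, (fun x => detA A (Function.update x (A i) (x z * x (A i))) • ψ x) := by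
    funext x
    rw [Pi.smul_apply, Finset.sum_apply, ← Finset.sum_smul, smul_smul]
    congr 1
    have h3 : ∀ i, detA A (Function.update x (A i) (x z * x (A i))) =
        (eb k).det (Function.update (fun i => x (A i)) i
          (LinearMap.mulLeft ℚ (x z) (x (A i)))) := by
      intro i
      unfold detA
      congr 1
      funext j
      by_cases hj : j = i
      · subst hj; simp
      · rw [Function.update_of_ne (fun h => hj (hA h)), Function.update_of_ne hj]
    simp only [h3]
    rw [det_derivation (eb k) (LinearMap.mulLeft ℚ (x z)) (fun i => x (A i)), trace_mulLeft]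
    have hk' : (k : ℚ) ≠ 0 := by
      have : k ≠ 0 := by omega
      exact_mod_cast this
    unfold detA
    field_simp
  rw [h2]
  apply Submodule.smul_mem
  apply Submodule.sum_mem
  intro i _
  exact h1 i

/-- Razmyslov's construction: trace of an alternating polynomial is a central polynomial. -/
theorem razmyslov (hk : 1 ≤ k) {S : Finset ν} (A : Fin (k * k) → ν) (hA : Function.Injective A)
    (hAS : ∀ i, A i ∈ S) {z : ν} (hz : z ∉ S)
    (ψ : (ν → Matrix (Fin k) (Fin k) ℚ) → Matrix (Fin k) (Fin k) ℚ)
    (hψ : ∀ x i M, ψ (Function.update x (A i) M) = ψ x)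
    (hψz : ∀ x M, ψ (Function.update x z M) = ψ x)
    (h : (fun x => detA A x • ψ x) ∈ Pol k S) :
    (fun x => (detA A x * Matrix.trace (ψ x)) • (1 : Matrix (Fin k) (Fin k) ℚ)) ∈ Pol k S := by
  have h1 := dagger k hz (absorb hk A hA hAS hz ψ hψ h)
  convert h1 using 1
  funext x
  ext a b
  have hzA : ∀ i, A i ≠ z := fun i h => hz (h ▸ hAS i)
  have h2 : ∀ M, detA A (Function.update x z M) = detA A x := by
    intro M
    unfold detA
    congr 1
    funext i
    rw [Function.update_of_ne (hzA i)]
  simp only [Function.update_self, hψz, h2, Matrix.trace_smul, Matrix.of_apply,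
    Matrix.smul_apply, smul_eq_mul]
  by_cases hab : a = b
  · subst hab; simp
  · rw [Matrix.one_apply_ne hab, Matrix.trace_single_eq_of_ne _ _ _ (Ne.symm hab)]
    ring

end Pool.Agent.H.MP_aed2d0_al
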