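import Mathlib

set_option autoImplicit false
set_option linter.unusedSectionVars false

namespace Pool.Agent.H.MP_aed2d0_al

open Finset Module

variable {β : Type} [Fintype β] [DecidableEq β]

/-- The space of functions on words killed by all placements of the tensor `p`. -/
def Kspace (n m : ℕ) (p : (Fin m → β) → ℚ) : Submodule ℚ ((Fin n → β) → ℚ) where
  carrier := {q | ∀ j : Fin m → Fin n, Function.Injective j → ∀ w,
    ∑ v, p v * q (Function.extend j v w) = 0}
  add_mem' := by
    intro q r hq hr j hj w
    have h1 := hq j hj w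
    have h2 := hr j hj w
    simp only [Pi.add_apply, mul_add, Finset.sum_add_distrib]
    rw [h1, h2, add_zero]
  zero_mem' := by
    intro j hj w
    simp
  smul_mem' := by
    intro c q hq j hj w
    have h1 := hq j hj w
    simp only [Pi.smul_apply, smul_eq_mul]
    have : ∀ v, p v * (c * q (Function.extend j v w)) = c * (p v * q (Function.extend j v w)) := by
      intro v; ring
    simp only [this]
    rw [← Finset.mul_sum, h1, mul_zero]

omit [Fintype β] [DecidableEq β] in
theorem extend_succ {n m : ℕ} (j : Fin m → Fin n) (hj : Function.Injective j) (v : Fin m → β)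
    (w : Fin n → β) (b : β) :
    Function.extend (fun i => (j i).succ) v (Fin.cons b w : Fin (n + 1) → β) =
      (Fin.cons b (Function.extend j v w) : Fin (n + 1) → β) := by
  have hj' : Function.Injective (fun i => (j i).succ) := fun a b h => hj (Fin.succ_injective _ h)
  funext i
  refine Fin.cases ?_ (fun i' => ?_) i
  · rw [Function.extend_apply']
    · rfl
    · rintro ⟨a, ha⟩
      exact (Fin.succ_ne_zero _) ha
  · rw [Fin.cons_succ]
    by_cases h : ∃ t, j t = i'
    · obtain ⟨t, rfl⟩ := h
      rw [hj.extend_apply]
      exact hj'.extend_apply v _ t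
    · rw [Function.extend_apply' v w i' h, Function.extend_apply']
      · rfl
      · rintro ⟨a, ha⟩
        exact h ⟨a, Fin.succ_injective _ ha⟩

omit [Fintype β] [DecidableEq β] in
theorem extend_cons {n m : ℕ} (j : Fin m → Fin n) (hj : Function.Injective j) (v : Fin m → β)
    (w : Fin n → β) (b c : β) :
    Function.extend (Fin.cons 0 (fun i => (j i).succ) : Fin (m + 1) → Fin (n + 1))
      (Fin.cons b v : Fin (m + 1) → β) (Fin.cons c w : Fin (n + 1) → β) =
      (Fin.cons b (Function.extend j v w) : Fin (n + 1) → β) := by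
  have hj' : Function.Injective (Fin.cons 0 (fun i => (j i).succ) : Fin (m + 1) → Fin (n + 1)) := by
    rw [Fin.cons_injective_iff]
    refine ⟨?_, fun a b h => hj (Fin.succ_injective _ h)⟩
    rintro ⟨a, ha⟩
    exact (Fin.succ_ne_zero _) ha
  funext i
  refine Fin.cases ?_ (fun i' => ?_) i
  · have := hj'.extend_apply (Fin.cons b v : Fin (m + 1) → β) (Fin.cons c w : Fin (n + 1) → β) 0
    exact this
  · rw [Fin.cons_succ]
    by_cases h : ∃ t, j t = i'
    · obtain ⟨t, rfl⟩ := h
      rw [hj.extend_apply]
      exact hj'.extend_apply (Fin.cons b v : Fin (m + 1) → β) (Fin.cons c w : Fin (n + 1) → β) t.succ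
    · rw [Function.extend_apply' v w i' h, Function.extend_apply']
      · rfl
      · rintro ⟨a, ha⟩
        revert ha
        refine Fin.cases ?_ (fun a' => ?_) a
        · intro ha
          exact (Fin.succ_ne_zero _) ha.symm
        · intro ha
          exact h ⟨a', Fin.succ_injective _ ha⟩

theorem inj_cons {n m : ℕ} (j : Fin m → Fin n) (hj : Function.Injective j) :
    Function.Injective (Fin.cons 0 (fun i => (j i).succ) : Fin (m + 1) → Fin (n + 1)) := by
  rw [Fin.cons_injective_iff]
  refine ⟨?_, fun a b h => hj (Fin.succ_injective _ h)⟩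
  rintro ⟨a, ha⟩
  exact (Fin.succ_ne_zero _) ha

/-- slice of a function on words -/
def slice {n : ℕ} (b : β) : ((Fin (n + 1) → β) → ℚ) →ₗ[ℚ] ((Fin n → β) → ℚ) :=
  LinearMap.funLeft ℚ ℚ (fun w : Fin n → β => (Fin.cons b w : Fin (n + 1) → β))

omit [Fintype β] [DecidableEq β] in
theorem slice_apply {n : ℕ} (b : β) (q : (Fin (n + 1) → β) → ℚ) (w : Fin n → β) :
    slice b q w = q (Fin.cons b w : Fin (n + 1) → β) := rfl

theorem slice_mem {n m : ℕ} (p : (Fin m → β) → ℚ) (b : β) {q : (Fin (n + 1) → β) → ℚ}
    (hq : q ∈ Kspace (n + 1) m p) : slice b q ∈ Kspace n m p := by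
  intro j hj w
  have h := hq (fun i => (j i).succ) (fun a b h => hj (Fin.succ_injective _ h))
    (Fin.cons b w : Fin (n + 1) → β)
  rw [← h]
  apply Finset.sum_congr rfl
  intro v _
  rw [extend_succ j hj, slice_apply]

theorem slice_mem_ker {n m : ℕ} (p : (Fin (m + 1) → β) → ℚ) (b0 : β)
    {q : (Fin (n + 1) → β) → ℚ} (hq : q ∈ Kspace (n + 1) (m + 1) p)
    (h0 : ∀ b, b ≠ b0 → slice b q = 0) :
    slice b0 q ∈ Kspace n m (fun v => p (Fin.cons b0 v : Fin (m + 1) → β)) := by
  intro j hj w
  have h := hq _ (inj_cons j hj) (Fin.cons b0 w : Fin (n + 1) → β)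
  rw [← (Fin.consEquiv (fun _ : Fin (m + 1) => β)).sum_comp, Fintype.sum_prod_type] at h
  have h2 : ∀ b : β, ∑ v : Fin m → β, p ((Fin.consEquiv (fun _ : Fin (m + 1) => β)) (b, v)) *
      q (Function.extend (Fin.cons 0 (fun i => (j i).succ) : Fin (m + 1) → Fin (n + 1))
        ((Fin.consEquiv (fun _ : Fin (m + 1) => β)) (b, v)) (Fin.cons b0 w : Fin (n + 1) → β)) =
      if b = b0 then ∑ v : Fin m → β, p (Fin.cons b0 v : Fin (m + 1) → β) *
        slice b0 q (Function.extend j v w) else 0 := by
    intro b
    have h3 : ∀ v : Fin m → β, q (Function.extend (Fin.cons 0 (fun i => (j i).succ) :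
        Fin (m + 1) → Fin (n + 1)) ((Fin.consEquiv (fun _ : Fin (m + 1) => β)) (b, v))
          (Fin.cons b0 w : Fin (n + 1) → β)) = slice b q (Function.extend j v w) := by
      intro v
      rw [slice_apply]
      congr 1
      exact extend_cons j hj v w b b0
    simp only [h3]
    by_cases hb : b = b0
    · subst hb
      rw [if_pos rfl]
      rfl
    · rw [if_neg hb, h0 b hb]
      simp
  simp only [h2] at h
  rw [Finset.sum_ite_eq'] at h
  simpa using h

theorem slices_zero {n : ℕ} {q : (Fin (n + 1) → β) → ℚ} (h : ∀ b, slice b q = 0) : q = 0 := by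
  funext w
  have := congrFun (h (w 0)) (Fin.tail w)
  rw [slice_apply, Fin.cons_self_tail] at this
  exact this

theorem finrank_Kspace_le (hβ : 2 ≤ Fintype.card β) : ∀ (n m : ℕ) (p : (Fin m → β) → ℚ), p ≠ 0 →
    finrank ℚ (Kspace n m p) ≤ (n + 1) ^ m * (Fintype.card β - 1) ^ n := by
  intro n
  induction n with
  | zero =>
    intro m p _
    have h1 := Submodule.finrank_le (Kspace 0 m p)
    have h2 : finrank ℚ ((Fin 0 → β) → ℚ) = 1 := by simp
    rw [h2] at h1
    simpa using h1
  | succ n ih =>
    intro m p hp
    cases m with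
    | zero =>
      have : Kspace (n + 1) 0 p = ⊥ := by
        rw [eq_bot_iff]
        intro q hq
        rw [Submodule.mem_bot]
        funext w
        have h := hq (Fin.elim0) (fun a => Fin.elim0 a) w
        have h1 : ∀ v : Fin 0 → β, Function.extend (Fin.elim0 : Fin 0 → Fin (n + 1)) v w = w := by
          intro v
          funext i
          rw [Function.extend_apply']
          rintro ⟨a, _⟩
          exact Fin.elim0 a
        simp only [h1] at h
        have h2 : p default ≠ 0 := by
          intro h3
          apply hp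
          funext v
          rw [Subsingleton.elim v default, h3]
          rfl
        rw [Fintype.sum_unique] at h
        rcases mul_eq_zero.mp h with h3 | h3
        · exact absurd h3 h2
        · exact h3
      rw [this, finrank_bot]
      exact Nat.zero_le _
    | succ m =>
      obtain ⟨v0, hv0⟩ : ∃ v0, p v0 ≠ 0 := by
        by_contra h
        push Not at h
        exact hp (funext h)
      set b0 := v0 0 with hb0
      have hp' : (fun v => p (Fin.cons b0 v : Fin (m + 1) → β)) ≠ 0 := by
        intro h
        have := congrFun h (Fin.tail v0)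
        simp only [hb0, Fin.cons_self_tail] at this
        exact hv0 this
      let Φ : Kspace (n + 1) (m + 1) p →ₗ[ℚ] ({b : β // b ≠ b0} → Kspace n (m + 1) p) :=
        LinearMap.pi (fun b => ((slice b.1).restrict (fun q hq => slice_mem p b.1 hq)))
      have hΦ : ∀ q b, ((Φ q b : Kspace n (m + 1) p) : (Fin n → β) → ℚ) = slice b.1 q.1 :=
        fun q b => rfl
      let Ψ : LinearMap.ker Φ →ₗ[ℚ] Kspace n m (fun v => p (Fin.cons b0 v : Fin (m + 1) → β)) :=
        { toFun := fun q => ⟨slice b0 q.1.1, slice_mem_ker p b0 q.1.2 (by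
            intro b hb
            have h1 : Φ q.1 = 0 := q.2
            have h2 := hΦ q.1 ⟨b, hb⟩
            rw [h1] at h2
            exact h2.symm)⟩
          map_add' := fun q r => Subtype.ext (map_add (slice b0) _ _)
          map_smul' := fun c q => Subtype.ext (map_smul (slice b0) _ _) }
      have hΨ : Function.Injective Ψ := by
        rw [injective_iff_map_eq_zero]
        intro q hq
        apply Subtype.ext
        apply Subtype.ext
        apply slices_zero
        intro b
        by_cases hb : b = b0
        · subst hb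
          exact congrArg Subtype.val hq
        · have h1 : Φ q.1 = 0 := q.2
          have h2 := hΦ q.1 ⟨b, hb⟩
          rw [h1] at h2
          exact h2.symm
      have h1 := LinearMap.finrank_range_add_finrank_ker Φ
      have h2 : finrank ℚ (LinearMap.range Φ) ≤ (Fintype.card β - 1) *
          finrank ℚ (Kspace n (m + 1) p) := by
        refine (Submodule.finrank_le _).trans ?_
        rw [finrank_pi_fintype]
        simp [Fintype.card_subtype_compl]
      have h3 := LinearMap.finrank_le_finrank_of_injective hΨ
      have h4 := ih (m + 1) p hp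
      have h5 := ih m _ hp'
      rw [← h1]
      set N1 := Fintype.card β - 1
      have hN1 : 1 ≤ N1 := by omega
      calc finrank ℚ (LinearMap.range Φ) + finrank ℚ (LinearMap.ker Φ)
          ≤ N1 * ((n + 1) ^ (m + 1) * N1 ^ n) + (n + 1) ^ m * N1 ^ n :=
            Nat.add_le_add (h2.trans (Nat.mul_le_mul_left _ h4)) (h3.trans h5)
        _ ≤ (n + 1) ^ (m + 1) * N1 ^ (n + 1) + (n + 1) ^ m * N1 ^ (n + 1) := by
            apply Nat.add_le_add
            · apply le_of_eq; ring
            · apply Nat.mul_le_mul_left
              exact Nat.pow_le_pow_right hN1 (by omega)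
        _ = (n + 1) ^ m * (n + 2) * N1 ^ (n + 1) := by ring
        _ ≤ (n + 2) ^ m * (n + 2) * N1 ^ (n + 1) := by
            apply Nat.mul_le_mul_right
            apply Nat.mul_le_mul_right
            exact Nat.pow_le_pow_left (by omega) m
        _ = (n + 1 + 1) ^ (m + 1) * N1 ^ (n + 1) := by ring

end Pool.Agent.H.MP_aed2d0_al
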