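import Mathlib

set_option autoImplicit false
set_option linter.unusedSectionVars false

namespace Pool.Agent.H.MP_aed2d0_al

open Finset

variable {k : ℕ}

theorem path_formula (n : ℕ) : ∀ (M : Fin n → Matrix (Fin k) (Fin k) ℚ) (a b : Fin k),
    (List.ofFn M).prod a b = ∑ p : Fin (n + 1) → Fin k,
      if p 0 = a ∧ p (Fin.last n) = b then ∏ i : Fin n, M i (p i.castSucc) (p i.succ) else 0 := by
  induction n with
  | zero =>
    intro M a b
    simp only [List.ofFn_zero, List.prod_nil, Finset.univ_eq_empty, Finset.prod_empty]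
    rw [Matrix.one_apply]
    have : ∀ p : Fin (0 + 1) → Fin k, (p 0 = a ∧ p (Fin.last 0) = b) ↔ (p = (fun _ => a) ∧ a = b) := by
      intro p
      constructor
      · rintro ⟨h1, h2⟩
        refine ⟨?_, ?_⟩
        · funext i
          have hi : i = 0 := Fin.ext (by omega)
          rw [hi, h1]
        · rw [← h1, ← h2]; rfl
      · rintro ⟨rfl, rfl⟩
        exact ⟨rfl, rfl⟩
    simp only [this]
    by_cases h : a = b
    · simp [h]
    · simp [h]
  | succ n ih =>
    intro M a b
    rw [List.ofFn_succ, List.prod_cons, Matrix.mul_apply]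
    rw [← (Fin.consEquiv (fun _ : Fin (n + 2) => Fin k)).sum_comp, Fintype.sum_prod_type]
    have h1 : ∀ (c0 : Fin k) (p : Fin (n + 1) → Fin k),
        (if (Fin.consEquiv (fun _ : Fin (n + 2) => Fin k)) (c0, p) 0 = a ∧
            (Fin.consEquiv (fun _ : Fin (n + 2) => Fin k)) (c0, p) (Fin.last (n + 1)) = b then
          ∏ i : Fin (n + 1), M i ((Fin.consEquiv (fun _ : Fin (n + 2) => Fin k)) (c0, p) i.castSucc)
            ((Fin.consEquiv (fun _ : Fin (n + 2) => Fin k)) (c0, p) i.succ) else 0) =
        if c0 = a then (if p (Fin.last n) = b then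
          M 0 a (p 0) * ∏ i : Fin n, M i.succ (p i.castSucc) (p i.succ) else 0) else 0 := by
      intro c0 p
      have e0 : (Fin.consEquiv (fun _ : Fin (n + 2) => Fin k)) (c0, p) 0 = c0 := rfl
      have e1 : ∀ i : Fin (n + 1), (Fin.consEquiv (fun _ : Fin (n + 2) => Fin k)) (c0, p) i.succ
        = p i := fun i => rfl
      have e2 : (Fin.consEquiv (fun _ : Fin (n + 2) => Fin k)) (c0, p) (Fin.last (n + 1)) =
        p (Fin.last n) := e1 (Fin.last n)
      rw [e0, e2]
      by_cases h1 : c0 = a
      · subst h1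
        by_cases h2 : p (Fin.last n) = b
        · rw [if_pos ⟨rfl, h2⟩, if_pos rfl, if_pos h2, Fin.prod_univ_succ]
          rfl
        · rw [if_neg (fun h => h2 h.2), if_pos rfl, if_neg h2]
      · rw [if_neg (fun h => h1 h.1), if_neg h1]
    simp only [h1]
    have h2 : ∀ c0 : Fin k, (∑ p : Fin (n + 1) → Fin k,
        if c0 = a then (if p (Fin.last n) = b then
          M 0 a (p 0) * ∏ i : Fin n, M i.succ (p i.castSucc) (p i.succ) else 0) else 0) =
        if c0 = a then ∑ p : Fin (n + 1) → Fin k, (if p (Fin.last n) = b then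
          M 0 a (p 0) * ∏ i : Fin n, M i.succ (p i.castSucc) (p i.succ) else 0) else 0 := by
      intro c0
      split_ifs <;> simp
    simp only [h2]
    rw [Finset.sum_ite_eq' Finset.univ a]
    simp only [Finset.mem_univ, if_true]
    simp only [ih, Finset.mul_sum]
    rw [Finset.sum_comm]
    apply Finset.sum_congr rfl
    intro p _
    have h3 : ∀ c : Fin k, M 0 a c * (if p 0 = c ∧ p (Fin.last n) = b then
        ∏ i : Fin n, M i.succ (p i.castSucc) (p i.succ) else 0) =
        if p 0 = c then (if p (Fin.last n) = b then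
          M 0 a (p 0) * ∏ i : Fin n, M i.succ (p i.castSucc) (p i.succ) else 0) else 0 := by
      intro c
      by_cases h1 : p 0 = c
      · subst h1
        by_cases h2 : p (Fin.last n) = b
        · rw [if_pos ⟨rfl, h2⟩, if_pos rfl, if_pos h2]
        · rw [if_neg (fun h => h2 h.2), if_pos rfl, if_neg h2, mul_zero]
      · rw [if_neg (fun h => h1 h.1), if_neg h1, mul_zero]
    simp only [h3]
    rw [Finset.sum_ite_eq]
    simp

theorem trace_formula_succ (n : ℕ) (M : Fin (n + 1) → Matrix (Fin k) (Fin k) ℚ) :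
    Matrix.trace (List.ofFn M).prod =
      ∑ l : Fin (n + 1) → Fin k, ∏ i, M i (l i) (l (finRotate (n + 1) i)) := by
  rw [Matrix.trace]
  simp only [Matrix.diag_apply, path_formula]
  rw [Finset.sum_comm, ← (Fin.snocEquiv (fun _ : Fin (n + 2) => Fin k)).sum_comp,
    Fintype.sum_prod_type, Finset.sum_comm]
  apply Finset.sum_congr rfl
  intro l _
  have e0 : ∀ c : Fin k, (Fin.snocEquiv (fun _ : Fin (n + 2) => Fin k)) (c, l) 0 = l 0 := by
    intro c
    exact Fin.snoc_castSucc (α := fun _ : Fin (n + 2) => Fin k) c l 0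
  have e1 : ∀ c : Fin k, (Fin.snocEquiv (fun _ : Fin (n + 2) => Fin k)) (c, l)
      (Fin.last (n + 1)) = c := by
    intro c
    exact Fin.snoc_last (α := fun _ : Fin (n + 2) => Fin k) c l
  have e2 : ∀ (c : Fin k) (i : Fin (n + 1)),
      (Fin.snocEquiv (fun _ : Fin (n + 2) => Fin k)) (c, l) i.castSucc = l i := by
    intro c i
    exact Fin.snoc_castSucc (α := fun _ : Fin (n + 2) => Fin k) c l i
  have e3 : ∀ (i : Fin (n + 1)),
      (Fin.snocEquiv (fun _ : Fin (n + 2) => Fin k)) (l 0, l) i.succ =
        l (finRotate (n + 1) i) := by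
    intro i
    refine Fin.lastCases ?_ (fun j => ?_) i
    · rw [finRotate_last, Fin.succ_last, e1]
    · rw [← Fin.castSucc_succ, e2]
      congr 1
      rw [finRotate_apply]
      simp
  simp only [e0, e1, e2]
  have h1 : ∀ c a : Fin k, (if l 0 = a ∧ c = a then ∏ i : Fin (n + 1), M i (l i)
      ((Fin.snocEquiv (fun _ : Fin (n + 2) => Fin k)) (c, l) i.succ) else 0) =
      if l 0 = a then (if c = l 0 then ∏ i : Fin (n + 1), M i (l i)
        (l (finRotate (n + 1) i)) else 0) else 0 := by
    intro c a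
    by_cases h1 : l 0 = a
    · subst h1
      by_cases h2 : c = l 0
      · subst h2
        simp only [and_self, if_true, e3]
      · rw [if_neg (fun h => h2 h.2), if_pos rfl, if_neg h2]
    · rw [if_neg (fun h => h1 h.1), if_neg h1]
  simp only [h1]
  simp

theorem trace_formula {n : ℕ} (hn : n ≠ 0) (M : Fin n → Matrix (Fin k) (Fin k) ℚ) :
    Matrix.trace (List.ofFn M).prod =
      ∑ l : Fin n → Fin k, ∏ i, M i (l i) (l (finRotate n i)) := by
  obtain ⟨m, rfl⟩ := Nat.exists_eq_succ_of_ne_zero hn
  exact trace_formula_succ m M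

end Pool.Agent.H.MP_aed2d0_al
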