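import Mathlib
import Pool.Agent.H.MP_aed2d0_al.Absorb

set_option autoImplicit false
set_option linter.unusedSectionVars false

namespace Pool.Agent.H.MP_aed2d0_al

open Finset

theorem sum_update {ν α : Type} [Fintype ν] [DecidableEq ν] [Fintype α] (j : ν)
    (H : (ν → α) → ℚ) :
    ∑ l, ∑ a, H (Function.update l j a) = (Fintype.card α : ℚ) * ∑ l, H l := by
  have h1 : ∑ p : (ν → α) × α, H (Function.update p.1 j p.2) =
      ∑ p : (ν → α) × α, H p.1 := by
    apply Fintype.sum_equiv
      { toFun := fun p : (ν → α) × α => (Function.update p.1 j p.2, p.1 j)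
        invFun := fun p : (ν → α) × α => (Function.update p.1 j p.2, p.1 j)
        left_inv := fun p => by ext <;> simp
        right_inv := fun p => by ext <;> simp }
    intro p
    rfl
  rw [Fintype.sum_prod_type, Fintype.sum_prod_type] at h1
  rw [h1, Finset.mul_sum]
  apply Finset.sum_congr rfl
  intro l _
  simp

variable {k : ℕ} {ν : Type} [Fintype ν] [DecidableEq ν]

/-- generalized trace function of a permutation, restricted to the variables of `R` -/
def trR (σ : Equiv.Perm ν) (R : Finset ν) (x : ν → Matrix (Fin k) (Fin k) ℚ) : ℚ :=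
  ∑ l : ν → Fin k, ∏ v ∈ R, x v (l v) (l (σ v))

theorem trR_fix (σ : Equiv.Perm ν) {R : Finset ν} {j : ν} (hj : j ∈ R) (hσ : σ j = j)
    (x : ν → Matrix (Fin k) (Fin k) ℚ) :
    (k : ℚ) * trR σ R x = Matrix.trace (x j) * trR σ (R.erase j) x := by
  unfold trR
  have h1 := sum_update (α := Fin k) j (fun l => ∏ v ∈ R, x v (l v) (l (σ v)))
  rw [Fintype.card_fin] at h1
  rw [← h1, Finset.mul_sum]
  apply Finset.sum_congr rfl
  intro l _
  rw [Matrix.trace, Finset.sum_mul]
  apply Finset.sum_congr rfl
  intro a _
  rw [← Finset.mul_prod_erase R _ hj, hσ, Function.update_self]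
  congr 1
  apply Finset.prod_congr rfl
  intro v hv
  have hvj : v ≠ j := Finset.ne_of_mem_erase hv
  have hσv : σ v ≠ j := fun h => hvj (σ.injective (h.trans hσ.symm))
  rw [Function.update_of_ne hvj, Function.update_of_ne hσv]

theorem trR_merge (σ : Equiv.Perm ν) {R : Finset ν} {j0 j1 : ν} (hj0 : j0 ∈ R) (hj1 : j1 ∈ R)
    (hne : j0 ≠ j1) (hσ : σ j0 = j1) (x : ν → Matrix (Fin k) (Fin k) ℚ) :
    (k : ℚ) * trR σ R x = trR (σ * Equiv.swap j0 j1) (R.erase j1)
      (Function.update x j0 (x j0 * x j1)) := by
  unfold trR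
  have h1 := sum_update (α := Fin k) j1 (fun l => ∏ v ∈ R, x v (l v) (l (σ v)))
  rw [Fintype.card_fin] at h1
  rw [← h1]
  apply Finset.sum_congr rfl
  intro l _
  have hj0' : j0 ∈ R.erase j1 := Finset.mem_erase.mpr ⟨hne, hj0⟩
  have hσj1 : σ j1 ≠ j1 := fun h => hne (σ.injective (hσ.trans h.symm))
  rw [← Finset.mul_prod_erase (R.erase j1) _ hj0', Function.update_self, Equiv.Perm.mul_apply,
    Equiv.swap_apply_left, Matrix.mul_apply, Finset.sum_mul]
  apply Finset.sum_congr rfl
  intro a _
  rw [← Finset.mul_prod_erase R _ hj1, ← Finset.mul_prod_erase (R.erase j1) _ hj0', hσ,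
    Function.update_self, Function.update_of_ne hne, Function.update_of_ne hσj1]
  have h2 : ∏ v ∈ (R.erase j1).erase j0, x v (Function.update l j1 a v)
        (Function.update l j1 a (σ v)) =
      ∏ v ∈ (R.erase j1).erase j0, Function.update x j0 (x j0 * x j1) v (l v)
        (l ((σ * Equiv.swap j0 j1) v)) := by
    apply Finset.prod_congr rfl
    intro v hv
    have hvj0 : v ≠ j0 := Finset.ne_of_mem_erase hv
    have hvj1 : v ≠ j1 := Finset.ne_of_mem_erase (Finset.mem_of_mem_erase hv)
    have hσv : σ v ≠ j1 := fun h => hvj0 (σ.injective (h.trans hσ.symm))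
    rw [Function.update_of_ne hvj1, Function.update_of_ne hσv, Function.update_of_ne hvj0,
      Equiv.Perm.mul_apply, Equiv.swap_apply_of_ne_of_ne hvj0 hvj1]
  rw [h2]
  ring

theorem trR_update_of_notMem (σ : Equiv.Perm ν) {R : Finset ν} {j : ν} (hj : j ∉ R)
    (x : ν → Matrix (Fin k) (Fin k) ℚ) (M : Matrix (Fin k) (Fin k) ℚ) :
    trR σ R (Function.update x j M) = trR σ R x := by
  unfold trR
  apply Finset.sum_congr rfl
  intro l _
  apply Finset.prod_congr rfl
  intro v hv
  rw [Function.update_of_ne]
  rintro rfl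
  exact hj hv

/-- Every trace function is absorbed. -/
theorem absorb_all (hk : 1 ≤ k) {S : Finset ν} (A : Fin (k * k) → ν) (hA : Function.Injective A)
    (hAS : ∀ i, A i ∈ S)
    (φ : (ν → Matrix (Fin k) (Fin k) ℚ) → ℚ)
    (hφA : ∀ x i M, φ (Function.update x (A i) M) = φ x)
    (hφ : ∀ x v M, v ∉ S → φ (Function.update x v M) = φ x)
    (h : (fun x => (detA A x * φ x) • (1 : Matrix (Fin k) (Fin k) ℚ)) ∈ Pol k S) :
    ∀ (n : ℕ) (R : Finset ν) (σ : Equiv.Perm ν), R.card = n → Disjoint R S →
      (∀ v ∈ R, σ v ∈ R) →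
      (fun x => (trR σ R x * (detA A x * φ x)) • (1 : Matrix (Fin k) (Fin k) ℚ)) ∈
        Pol k (R ∪ S) := by
  have hk' : (k : ℚ) ≠ 0 := by
    have : k ≠ 0 := by omega
    exact_mod_cast this
  intro n
  induction n with
  | zero =>
    intro R σ hR hRS hσ
    rw [Finset.card_eq_zero] at hR
    subst hR
    have h1 : (fun x => (trR σ ∅ x * (detA A x * φ x)) • (1 : Matrix (Fin k) (Fin k) ℚ)) =
        ((Fintype.card (ν → Fin k) : ℚ)) •
          (fun x => (detA A x * φ x) • (1 : Matrix (Fin k) (Fin k) ℚ)) := by
      funext x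
      rw [Pi.smul_apply, smul_smul]
      congr 2
      simp [trR]
    rw [h1, Finset.empty_union]
    exact Submodule.smul_mem _ _ h
  | succ n ih =>
    intro R σ hR hRS hσ
    have hne : R.Nonempty := by
      rw [← Finset.card_pos]; omega
    obtain ⟨j1, hj1⟩ := hne
    have hR' : (R.erase j1).card = n := by
      rw [Finset.card_erase_of_mem hj1]; omega
    have hRS' : Disjoint (R.erase j1) S := Finset.disjoint_of_subset_left (Finset.erase_subset _ _) hRS
    have hj1S : j1 ∉ S := Finset.disjoint_left.mp hRS hj1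
    have hj1' : j1 ∉ R.erase j1 ∪ S := by
      simp [hj1S]
    have hins : insert j1 (R.erase j1 ∪ S) = R ∪ S := by
      rw [← Finset.insert_union, Finset.insert_erase hj1]
    by_cases hfix : σ j1 = j1
    · -- fixed point
      have h1 := ih (R.erase j1) σ hR' hRS' (by
        intro v hv
        rw [Finset.mem_erase] at hv ⊢
        exact ⟨fun h => hv.1 (σ.injective (h.trans hfix.symm)), hσ v hv.2⟩)
      have h2 := absorb hk A hA (S := R.erase j1 ∪ S) (fun i => Finset.mem_union_right _ (hAS i))
        hj1' (fun x => (trR σ (R.erase j1) x * φ x) • (1 : Matrix (Fin k) (Fin k) ℚ))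
        (by
          intro x i M
          have : A i ∉ R.erase j1 := fun h => Finset.disjoint_left.mp hRS' h (hAS i)
          simp only [trR_update_of_notMem _ this, hφA])
        (by
          convert h1 using 1
          funext x
          rw [smul_smul]
          congr 1
          ring)
      rw [hins] at h2
      have h3 : (fun x => (trR σ R x * (detA A x * φ x)) • (1 : Matrix (Fin k) (Fin k) ℚ)) =
          ((k : ℚ)⁻¹) • (fun x => (Matrix.trace (x j1) * detA A x) •
            ((trR σ (R.erase j1) x * φ x) • (1 : Matrix (Fin k) (Fin k) ℚ))) := by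
        funext x
        rw [Pi.smul_apply, smul_smul, smul_smul]
        congr 1
        have h4 := trR_fix σ hj1 hfix x
        have h5 : trR σ R x = (k : ℚ)⁻¹ * (Matrix.trace (x j1) * trR σ (R.erase j1) x) := by
          rw [← h4]; field_simp
        rw [h5]
        ring
      rw [h3]
      exact Submodule.smul_mem _ _ h2
    · -- merging
      set j0 := σ.symm j1 with hj0def
      have hσj0 : σ j0 = j1 := by simp [hj0def]
      have hj0R : j0 ∈ R := by
        -- σ restricted to R is onto R
        have himg : R.image σ = R := by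
          apply Finset.eq_of_subset_of_card_le
          · intro v hv
            rw [Finset.mem_image] at hv
            obtain ⟨w, hw, rfl⟩ := hv
            exact hσ w hw
          · rw [Finset.card_image_of_injective _ σ.injective]
        have : j1 ∈ R.image σ := by rw [himg]; exact hj1
        rw [Finset.mem_image] at this
        obtain ⟨w, hw, hw2⟩ := this
        have : w = j0 := by rw [hj0def, ← hw2]; simp
        rw [← this]; exact hw
      have hne : j0 ≠ j1 := fun h => hfix (by rw [h] at hσj0; exact hσj0)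
      have hj0R' : j0 ∈ R.erase j1 := Finset.mem_erase.mpr ⟨hne, hj0R⟩
      have h1 := ih (R.erase j1) (σ * Equiv.swap j0 j1) hR' hRS' (by
        intro v hv
        rw [Finset.mem_erase] at hv
        rw [Equiv.Perm.mul_apply]
        by_cases hv0 : v = j0
        · rw [hv0, Equiv.swap_apply_left, Finset.mem_erase]
          exact ⟨hfix, hσ j1 hj1⟩
        · rw [Equiv.swap_apply_of_ne_of_ne hv0 hv.1, Finset.mem_erase]
          exact ⟨fun h => hv0 (σ.injective (h.trans hσj0.symm)), hσ v hv.2⟩)
      have h2 := subst_right k (Finset.mem_union_left S hj0R') hj1' h1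
      rw [hins] at h2
      have hj0S : j0 ∉ S := Finset.disjoint_left.mp hRS hj0R
      have h3 : (fun x => (trR σ R x * (detA A x * φ x)) • (1 : Matrix (Fin k) (Fin k) ℚ)) =
          ((k : ℚ)⁻¹) • (fun x : ν → Matrix (Fin k) (Fin k) ℚ =>
            (trR (σ * Equiv.swap j0 j1) (R.erase j1) (Function.update x j0 (x j0 * x j1)) *
              (detA A (Function.update x j0 (x j0 * x j1)) *
                φ (Function.update x j0 (x j0 * x j1)))) • (1 : Matrix (Fin k) (Fin k) ℚ)) := by
        funext x
        rw [Pi.smul_apply, smul_smul]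
        congr 1
        rw [← trR_merge σ hj0R hj1 hne hσj0, hφ _ _ _ hj0S]
        have h4 : detA A (Function.update x j0 (x j0 * x j1)) = detA A x := by
          unfold detA
          congr 1
          funext i
          rw [Function.update_of_ne]
          intro h
          exact hj0S (h ▸ hAS i)
        rw [h4]
        field_simp
      rw [h3]
      exact Submodule.smul_mem _ _ h2

end Pool.Agent.H.MP_aed2d0_al
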