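import Mathlib
import Pool.Agent.H.MP_aed2d0_al.Tr
import Pool.Agent.H.MP_aed2d0_al.Path

set_option autoImplicit false
set_option linter.unusedSectionVars false

namespace Pool.Agent.H.MP_aed2d0_al

open Finset

variable (k : ℕ)

/-- the multilinear map `x ↦ x₀ y₀ x₁ y₁ ⋯` -/
noncomputable def capM (y : Fin (k * k) → Matrix (Fin k) (Fin k) ℚ) :
    MultilinearMap ℚ (fun _ : Fin (k * k) => Matrix (Fin k) (Fin k) ℚ)
      (Matrix (Fin k) (Fin k) ℚ) :=
  (MultilinearMap.mkPiAlgebraFin ℚ (k * k) (Matrix (Fin k) (Fin k) ℚ)).compLinearMap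
    (fun i => LinearMap.mulRight ℚ (y i))

theorem capM_apply (y x : Fin (k * k) → Matrix (Fin k) (Fin k) ℚ) :
    capM k y x = (List.ofFn (fun i => x i * y i)).prod := by
  simp [capM, MultilinearMap.mkPiAlgebraFin_apply]

/-- Capelli polynomial -/
noncomputable def capA (y : Fin (k * k) → Matrix (Fin k) (Fin k) ℚ) :
    (Matrix (Fin k) (Fin k) ℚ) [⋀^Fin (k * k)]→ₗ[ℚ] (Matrix (Fin k) (Fin k) ℚ) :=
  MultilinearMap.alternatization (capM k y)

theorem capA_apply (y x : Fin (k * k) → Matrix (Fin k) (Fin k) ℚ) :
    capA k y x = ∑ σ : Equiv.Perm (Fin (k * k)),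
      (Equiv.Perm.sign σ : ℤ) • (List.ofFn (fun i => x (σ i) * y i)).prod := by
  rw [capA, MultilinearMap.alternatization_apply]
  apply Finset.sum_congr rfl
  intro σ _
  rw [MultilinearMap.domDomCongr_apply, capM_apply]
  rfl

/-- value at the basis -/
noncomputable def vv (y : Fin (k * k) → Matrix (Fin k) (Fin k) ℚ) : Matrix (Fin k) (Fin k) ℚ :=
  capA k y (eb k)

theorem capA_eq (y x : Fin (k * k) → Matrix (Fin k) (Fin k) ℚ) :
    capA k y x = (eb k).det x • vv k y := by
  ext a b
  let L : Matrix (Fin k) (Fin k) ℚ →ₗ[ℚ] ℚ :=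
    { toFun := fun M => M a b
      map_add' := fun M N => rfl
      map_smul' := fun c M => rfl }
  have h := AlternatingMap.eq_smul_basis_det (eb k) (L.compAlternatingMap (capA k y))
  have h2 := congrArg (fun f => f x) h
  change (capA k y x) a b = (capA k y (eb k)) a b * (eb k).det x at h2
  rw [h2]
  change _ = (eb k).det x * (capA k y (eb k)) a b
  ring

theorem trace_vv (hk : 1 ≤ k) : Matrix.trace (vv k (fun i =>
    Matrix.single (finProdFinEquiv.symm i).2
      (finProdFinEquiv.symm (finRotate (k * k) i)).1 (1 : ℚ))) = 1 := by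
  have hN : k * k ≠ 0 := by positivity
  rw [vv, capA_apply, Matrix.trace_sum]
  have h1 : ∀ σ : Equiv.Perm (Fin (k * k)), Matrix.trace ((Equiv.Perm.sign σ : ℤ) •
      (List.ofFn (fun i => eb k (σ i) * Matrix.single (finProdFinEquiv.symm i).2
      (finProdFinEquiv.symm (finRotate (k * k) i)).1 (1 : ℚ))).prod) = if σ = 1 then 1 else 0 := by
    intro σ
    rw [Matrix.trace_smul, trace_formula hN]
    have h2 : ∀ l : Fin (k * k) → Fin k,
        ∏ i, (eb k (σ i) * Matrix.single (finProdFinEquiv.symm i).2
          (finProdFinEquiv.symm (finRotate (k * k) i)).1 (1 : ℚ)) (l i)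
            (l (finRotate (k * k) i)) =
        if (l = fun i => (finProdFinEquiv.symm i).1) ∧ σ = 1 then 1 else 0 := by
      intro l
      have h3 : ∀ i, (eb k (σ i) * Matrix.single (finProdFinEquiv.symm i).2
          (finProdFinEquiv.symm (finRotate (k * k) i)).1 (1 : ℚ) : Matrix (Fin k) (Fin k) ℚ) (l i)
            (l (finRotate (k * k) i)) =
          if ((finProdFinEquiv.symm (σ i)).2 = (finProdFinEquiv.symm i).2 ∧
            (finProdFinEquiv.symm (σ i)).1 = l i ∧
            (finProdFinEquiv.symm (finRotate (k * k) i)).1 = l (finRotate (k * k) i)) then 1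
          else 0 := by
        intro i
        rw [eb_apply]
        by_cases h4 : (finProdFinEquiv.symm (σ i)).2 = (finProdFinEquiv.symm i).2
        · rw [h4, Matrix.single_mul_single_same, Matrix.single_apply]
          simp
        · rw [Matrix.single_mul_single_of_ne _ _ _ _ h4, if_neg (fun h => h4 h.1)]
          rfl
      simp only [h3]
      by_cases h5 : (l = fun i => (finProdFinEquiv.symm i).1) ∧ σ = 1
      · obtain ⟨rfl, rfl⟩ := h5
        simp
      · rw [if_neg h5]
        by_contra h6
        apply h5
        have h7 : ∀ i, ((finProdFinEquiv.symm (σ i)).2 = (finProdFinEquiv.symm i).2 ∧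
            (finProdFinEquiv.symm (σ i)).1 = l i ∧
            (finProdFinEquiv.symm (finRotate (k * k) i)).1 = l (finRotate (k * k) i)) := by
          intro i
          by_contra h8
          apply h6
          apply Finset.prod_eq_zero (Finset.mem_univ i)
          rw [if_neg h8]
        have h9 : l = fun i => (finProdFinEquiv.symm i).1 := by
          funext i
          have := (h7 ((finRotate (k * k)).symm i)).2.2
          rw [Equiv.apply_symm_apply] at this
          exact this.symm
        refine ⟨h9, ?_⟩
        ext i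
        have h10 : finProdFinEquiv.symm (σ i) = finProdFinEquiv.symm i := by
          apply Prod.ext
          · rw [(h7 i).2.1, h9]
          · exact (h7 i).1
        have h11 := finProdFinEquiv.symm.injective h10
        rw [h11]
        rfl
    simp only [h2]
    by_cases hσ : σ = 1
    · subst hσ
      simp
    · simp [hσ]
  simp only [h1]
  simp

variable {k}
variable {ν : Type} [DecidableEq ν]

theorem flat_prod {n : ℕ} (A' Y : Fin n → ν) (x : ν → Matrix (Fin k) (Fin k) ℚ) :
    (((List.finRange n).flatMap (fun i => [A' i, Y i])).map x).prod =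
      (List.ofFn (fun i => x (A' i) * x (Y i))).prod := by
  rw [List.ofFn_eq_map]
  generalize List.finRange n = L
  induction L with
  | nil => simp
  | cons a L ih =>
    rw [List.flatMap_cons, List.map_append, List.prod_append, ih, List.map_cons, List.prod_cons]
    simp [mul_assoc]

theorem flat_nodup {n : ℕ} (A' Y : Fin n → ν) (hA : Function.Injective A')
    (hY : Function.Injective Y) (hAY : ∀ i j, A' i ≠ Y j) :
    ((List.finRange n).flatMap (fun i => [A' i, Y i])).Nodup := by
  rw [List.nodup_flatMap]
  constructor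
  · intro i _
    simp [hAY i i]
  · apply List.Pairwise.imp_of_mem (R := fun a b => a ≠ b)
    · intro a b _ _ hab
      rw [Function.onFun, List.disjoint_left]
      intro v hv hv'
      simp only [List.mem_cons, List.not_mem_nil, or_false] at hv hv'
      rcases hv with rfl | rfl
      · rcases hv' with h | h
        · exact hab (hA h)
        · exact hAY _ _ h
      · rcases hv' with h | h
        · exact hAY _ _ h.symm
        · exact hab (hY h)
    · exact List.nodup_finRange n

theorem cap_mem (A Y : Fin (k * k) → ν) (hA : Function.Injective A)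
    (hY : Function.Injective Y) (hAY : ∀ i j, A i ≠ Y j) :
    (fun x => detA A x • vv k (fun i => x (Y i))) ∈
      Pol k (Finset.univ.image A ∪ Finset.univ.image Y) := by
  have h1 : (fun x : ν → Matrix (Fin k) (Fin k) ℚ => detA A x • vv k (fun i => x (Y i))) =
      ∑ σ : Equiv.Perm (Fin (k * k)), ((Equiv.Perm.sign σ : ℤ) : ℚ) •
        (fun x : ν → Matrix (Fin k) (Fin k) ℚ =>
          (((List.finRange (k * k)).flatMap (fun i => [A (σ i), Y i])).map x).prod) := by
    funext x
    rw [Finset.sum_apply]
    unfold detA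
    rw [← capA_eq, capA_apply]
    apply Finset.sum_congr rfl
    intro σ _
    rw [Pi.smul_apply]
    rw [flat_prod (fun i => A (σ i)) Y x]
    rw [Int.cast_smul_eq_zsmul]
  rw [h1]
  apply Submodule.sum_mem
  intro σ _
  apply Submodule.smul_mem
  apply mon_mem
  · exact flat_nodup (fun i => A (σ i)) Y (fun i j h => σ.injective (hA h)) hY
      (fun i j => hAY (σ i) j)
  · ext v
    simp only [List.mem_toFinset, List.mem_flatMap, List.mem_finRange, true_and,
      List.mem_cons, List.not_mem_nil, or_false, Finset.mem_union, Finset.mem_image,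
      Finset.mem_univ]
    constructor
    · rintro ⟨i, rfl | rfl⟩
      · exact Or.inl ⟨σ i, rfl⟩
      · exact Or.inr ⟨i, rfl⟩
    · rintro (⟨i, rfl⟩ | ⟨i, rfl⟩)
      · exact ⟨σ.symm i, Or.inl (by simp)⟩
      · exact ⟨i, Or.inr rfl⟩

end Pool.Agent.H.MP_aed2d0_al
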