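import Mathlib
import Pool.Agent.H.MP_aed2d0_al.Cap

set_option autoImplicit false
set_option linter.unusedSectionVars false

namespace Pool.Agent.H.MP_aed2d0_al

open Finset

variable (k : ℕ) {ι : Type} [Fintype ι] [DecidableEq ι]

/-- permutation function on words of matrix units -/
def Pw (σ : Equiv.Perm ι) : (ι → Fin k × Fin k) → ℚ :=
  fun w => if ∀ i, (w i).2 = (w (σ i)).1 then 1 else 0

variable (ι) in
/-- span of the permutation functions -/
def Aw : Submodule ℚ ((ι → Fin k × Fin k) → ℚ) := Submodule.span ℚ (Set.range (Pw k (ι := ι)))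

variable {k} in
/-- word of matrix units -/
def ew {κ : Type} (w : κ → Fin k × Fin k) : κ → Matrix (Fin k) (Fin k) ℚ :=
  fun i => Matrix.single (w i).1 (w i).2 1

variable (ι) in
/-- evaluate on words, and take the trace -/
def trw : ((ι → Matrix (Fin k) (Fin k) ℚ) → Matrix (Fin k) (Fin k) ℚ) →ₗ[ℚ]
    ((ι → Fin k × Fin k) → ℚ) where
  toFun f := fun w => Matrix.trace (f (ew w))
  map_add' f g := by funext w; simp
  map_smul' c f := by funext w; simp

theorem trw_apply (f : (ι → Matrix (Fin k) (Fin k) ℚ) → Matrix (Fin k) (Fin k) ℚ)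
    (w : ι → Fin k × Fin k) : trw k ι f w = Matrix.trace (f (ew w)) := rfl

variable (ι) in
/-- traces of polynomials in all variables -/
def Polw : Submodule ℚ ((ι → Fin k × Fin k) → ℚ) := (Pol k (Finset.univ : Finset ι)).map (trw k ι)

theorem trR_univ_ew (σ : Equiv.Perm ι) (w : ι → Fin k × Fin k) :
    trR σ Finset.univ (ew w) = Pw k σ w := by
  unfold trR Pw ew
  have h1 : ∀ l : ι → Fin k, ∏ v, Matrix.single (w v).1 (w v).2 (1 : ℚ) (l v) (l (σ v)) =
      if l = (fun v => (w v).1) then (if ∀ i, (w i).2 = (w (σ i)).1 then 1 else 0) else 0 := by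
    intro l
    by_cases h : l = (fun v => (w v).1)
    · subst h
      rw [if_pos rfl]
      by_cases h2 : ∀ i, (w i).2 = (w (σ i)).1
      · rw [if_pos h2]
        apply Finset.prod_eq_one
        intro v _
        rw [Matrix.single_apply, if_pos ⟨rfl, h2 v⟩]
      · rw [if_neg h2]
        push Not at h2
        obtain ⟨i, hi⟩ := h2
        apply Finset.prod_eq_zero (Finset.mem_univ i)
        rw [Matrix.single_apply, if_neg (fun h => hi h.2)]
    · rw [if_neg h]
      have : ∃ v, l v ≠ (w v).1 := by
        by_contra h2
        push Not at h2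
        exact h (funext h2)
      obtain ⟨v, hv⟩ := this
      apply Finset.prod_eq_zero (Finset.mem_univ v)
      rw [Matrix.single_apply, if_neg (fun h => hv h.1.symm)]
  simp only [h1]
  rw [Finset.sum_ite_eq']
  simp

theorem Polw_le_Aw : Polw k ι ≤ Aw k ι := by
  unfold Polw
  rw [Submodule.map_le_iff_le_comap]
  intro f hf
  refine Pol_induction k (trw k ι) (Aw k ι) ?_ hf
  intro l h1 h2
  by_cases hl : l.length = 0
  · have hl' : l = [] := List.length_eq_zero_iff.mp hl
    subst hl'
    have hempty : IsEmpty ι := by
      by_contra h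
      rw [not_isEmpty_iff] at h
      obtain ⟨i⟩ := h
      have : i ∈ (Finset.univ : Finset ι) := Finset.mem_univ i
      rw [← h2] at this
      simp at this
    have h3 : trw k ι (fun x => (List.map x []).prod) = (k : ℚ) • Pw k (1 : Equiv.Perm ι) := by
      funext w
      rw [trw_apply]
      simp [Pw]
    rw [h3]
    exact Submodule.smul_mem _ _ (Submodule.subset_span ⟨1, rfl⟩)
  · have hinj : Function.Injective l.get := List.nodup_iff_injective_get.mp h1
    have hsurj : Function.Surjective l.get := by
      intro i
      have : i ∈ l := by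
        rw [← List.mem_toFinset, h2]
        exact Finset.mem_univ i
      obtain ⟨n, hn⟩ := List.mem_iff_get.mp this
      exact ⟨n, hn⟩
    let e : Fin l.length ≃ ι := Equiv.ofBijective l.get ⟨hinj, hsurj⟩
    have he : ∀ i, e i = l.get i := fun i => rfl
    have h3 : trw k ι (fun x => (List.map x l).prod) =
        Pw k ((e.symm.trans (finRotate l.length)).trans e) := by
      funext w
      rw [trw_apply, ← trR_univ_ew]
      have h4 : l.map (ew w) = List.ofFn (fun i => ew w (e i)) := by
        conv_lhs => rw [← List.ofFn_get l]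
        rw [List.map_ofFn]
        rfl
      simp only [h4]
      rw [trace_formula hl]
      unfold trR
      rw [← (Equiv.arrowCongr e (Equiv.refl (Fin k))).sum_comp]
      apply Finset.sum_congr rfl
      intro p _
      rw [← e.prod_comp]
      apply Finset.prod_congr rfl
      intro i _
      simp [Equiv.arrowCongr]
    rw [h3]
    exact Submodule.subset_span ⟨_, rfl⟩

end Pool.Agent.H.MP_aed2d0_al
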