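import Mathlib
import Pool.Agent.H.MP_aed2d0_al.Word

set_option autoImplicit false
set_option linter.unusedSectionVars false

namespace Pool.Agent.H.MP_aed2d0_al

open Finset

variable (k : ℕ)

/-- the central polynomial value, as a scalar function -/
noncomputable def pt (x : Fin (k * k) ⊕ Fin (k * k) → Matrix (Fin k) (Fin k) ℚ) : ℚ :=
  (eb k).det (fun i => x (Sum.inl i)) * Matrix.trace (vv k (fun i => x (Sum.inr i)))

/-- on words -/
noncomputable def p0 (w : Fin (k * k) ⊕ Fin (k * k) → Fin k × Fin k) : ℚ := pt k (ew w)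

theorem p0_mem : p0 k ∈ Polw k (Fin (k * k) ⊕ Fin (k * k)) := by
  have h := cap_mem (k := k) (ν := Fin (k * k) ⊕ Fin (k * k)) Sum.inl Sum.inr
    Sum.inl_injective Sum.inr_injective (by simp)
  have hu : (Finset.univ.image Sum.inl ∪ Finset.univ.image Sum.inr :
      Finset (Fin (k * k) ⊕ Fin (k * k))) = Finset.univ := by
    ext v
    cases v <;> simp
  rw [hu] at h
  refine ⟨_, h, ?_⟩
  funext w
  rw [trw_apply, Matrix.trace_smul]
  rfl

theorem p0_ne (hk : 1 ≤ k) : p0 k ≠ 0 := by
  intro h
  have h1 := congrFun h (Sum.elim (fun i => finProdFinEquiv.symm i)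
    (fun i => ((finProdFinEquiv.symm i).2, (finProdFinEquiv.symm (finRotate (k * k) i)).1)))
  have h2 : (fun i => ew (Sum.elim (fun i => finProdFinEquiv.symm i)
    (fun i => ((finProdFinEquiv.symm i).2, (finProdFinEquiv.symm (finRotate (k * k) i)).1)) :
      Fin (k * k) ⊕ Fin (k * k) → Fin k × Fin k) (Sum.inl i)) = eb k := by
    funext i
    rw [eb_apply]
    rfl
  unfold p0 pt at h1
  rw [h2, Module.Basis.det_self, one_mul] at h1
  have h3 := trace_vv k hk
  have h4 : (fun i => ew (Sum.elim (fun i => finProdFinEquiv.symm i)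
    (fun i => ((finProdFinEquiv.symm i).2, (finProdFinEquiv.symm (finRotate (k * k) i)).1)) :
      Fin (k * k) ⊕ Fin (k * k) → Fin k × Fin k) (Sum.inr i)) = (fun i =>
    Matrix.single (finProdFinEquiv.symm i).2
      (finProdFinEquiv.symm (finRotate (k * k) i)).1 (1 : ℚ)) := rfl
  rw [h4, h3] at h1
  exact one_ne_zero h1

section contraction

variable {μ ι : Type} [Fintype μ] [DecidableEq μ] [Fintype ι] [DecidableEq ι]

/-- the contraction formula -/
theorem contraction (τ : Equiv.Perm μ) (σ : Equiv.Perm (μ ⊕ ι)) (w : ι → Fin k × Fin k) :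
    ∑ v : μ → Fin k × Fin k, Pw k τ v * Pw k σ (Sum.elim v w) =
      trR (σ * Equiv.sumCongr τ⁻¹ (1 : Equiv.Perm ι)) Finset.univ
        (Sum.elim (fun _ => (1 : Matrix (Fin k) (Fin k) ℚ)) (ew w)) := by
  -- left side as a sum over `a : μ → Fin k`
  have hL : ∑ v : μ → Fin k × Fin k, Pw k τ v * Pw k σ (Sum.elim v w) =
      ∑ a : μ → Fin k, Pw k σ (Sum.elim (fun t => (a t, a (τ t))) w) := by
    unfold Pw
    simp only [ite_mul, one_mul, zero_mul]
    rw [← Finset.sum_filter]
    symm
    apply Finset.sum_bij (fun (a : μ → Fin k) _ => fun t => (a t, a (τ t)))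
    · intro a _
      simp
    · intro a _ b _ hab
      funext t
      exact congrArg Prod.fst (congrFun hab t)
    · intro v hv
      rw [Finset.mem_filter] at hv
      refine ⟨fun t => (v t).1, Finset.mem_univ _, ?_⟩
      funext t
      apply Prod.ext
      · rfl
      · exact (hv.2 t).symm
    · intro a _
      rfl
  have hR : trR (σ * Equiv.sumCongr τ⁻¹ (1 : Equiv.Perm ι)) Finset.univ
        (Sum.elim (fun _ => (1 : Matrix (Fin k) (Fin k) ℚ)) (ew w)) =
      ∑ a : μ → Fin k, Pw k σ (Sum.elim (fun t => (a t, a (τ t))) w) := by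
    unfold trR
    rw [← (Equiv.sumArrowEquivProdArrow μ ι (Fin k)).symm.sum_comp, Fintype.sum_prod_type]
    apply Finset.sum_congr rfl
    intro a _
    rw [Finset.sum_eq_single (fun s => (w s).1)]
    · set L : μ ⊕ ι → Fin k := (Equiv.sumArrowEquivProdArrow μ ι (Fin k)).symm
        (a, fun s => (w s).1) with hLdef
      have hLl : ∀ t, L (Sum.inl t) = a t := fun t => rfl
      have hLr : ∀ s, L (Sum.inr s) = (w s).1 := fun s => rfl
      have hW : ∀ i, ((Sum.elim (fun t => (a t, a (τ t))) w : μ ⊕ ι → Fin k × Fin k) i).1 = L i := by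
        intro i
        cases i with
        | inl t => rfl
        | inr s => rfl
      rw [Fintype.prod_sum_type]
      unfold Pw
      have hA : (∏ t : μ, (Sum.elim (fun _ => (1 : Matrix (Fin k) (Fin k) ℚ)) (ew w)
          (Sum.inl t : μ ⊕ ι)) (L (Sum.inl t))
          (L ((σ * Equiv.sumCongr τ⁻¹ (1 : Equiv.Perm ι)) (Sum.inl t)))) =
          if ∀ t : μ, a (τ t) = L (σ (Sum.inl t)) then 1 else 0 := by
        rw [← Equiv.prod_comp τ]
        have h1 : ∀ t, (Sum.elim (fun _ => (1 : Matrix (Fin k) (Fin k) ℚ)) (ew w)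
          (Sum.inl (τ t) : μ ⊕ ι)) (L (Sum.inl (τ t)))
          (L ((σ * Equiv.sumCongr τ⁻¹ (1 : Equiv.Perm ι)) (Sum.inl (τ t)))) =
          if a (τ t) = L (σ (Sum.inl t)) then 1 else 0 := by
          intro t
          have e : (τ⁻¹ : Equiv.Perm μ) (τ t) = t := τ.symm_apply_apply t
          rw [Sum.elim_inl, Equiv.Perm.mul_apply, Equiv.sumCongr_apply, Sum.map_inl,
            e, Matrix.one_apply, hLl]
        simp only [h1]
        rw [Finset.prod_ite_zero]
        simp
      have hB : (∏ s : ι, (Sum.elim (fun _ => (1 : Matrix (Fin k) (Fin k) ℚ)) (ew w)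
          (Sum.inr s : μ ⊕ ι)) (L (Sum.inr s))
          (L ((σ * Equiv.sumCongr τ⁻¹ (1 : Equiv.Perm ι)) (Sum.inr s)))) =
          if ∀ s : ι, (w s).2 = L (σ (Sum.inr s)) then 1 else 0 := by
        have h1 : ∀ s, (Sum.elim (fun _ => (1 : Matrix (Fin k) (Fin k) ℚ)) (ew w)
          (Sum.inr s : μ ⊕ ι)) (L (Sum.inr s))
          (L ((σ * Equiv.sumCongr τ⁻¹ (1 : Equiv.Perm ι)) (Sum.inr s))) =
          if (w s).2 = L (σ (Sum.inr s)) then 1 else 0 := by
          intro s
          rw [Sum.elim_inr, Equiv.Perm.mul_apply, Equiv.sumCongr_apply, Sum.map_inr,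
            Equiv.Perm.one_apply, hLr, ew, Matrix.single_apply]
          simp
        simp only [h1]
        rw [Finset.prod_ite_zero]
        simp
      have hA' := hA
      have hB' := hB
      rw [hA, hB]
      have hiff : (∀ i : μ ⊕ ι, ((Sum.elim (fun t => (a t, a (τ t))) w : μ ⊕ ι → Fin k × Fin k) i).2 =
          ((Sum.elim (fun t => (a t, a (τ t))) w : μ ⊕ ι → Fin k × Fin k) (σ i)).1) ↔
          ((∀ t : μ, a (τ t) = L (σ (Sum.inl t))) ∧ (∀ s : ι, (w s).2 = L (σ (Sum.inr s)))) := by
        constructor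
        · intro h
          constructor
          · intro t
            have := h (Sum.inl t)
            rw [hW] at this
            exact this
          · intro s
            have := h (Sum.inr s)
            rw [hW] at this
            exact this
        · rintro ⟨h1, h2⟩ i
          rw [hW]
          cases i with
          | inl t => exact h1 t
          | inr s => exact h2 s
      by_cases h1 : ∀ t : μ, a (τ t) = L (σ (Sum.inl t))
      · by_cases h2 : ∀ s : ι, (w s).2 = L (σ (Sum.inr s))
        · rw [if_pos h1, if_pos h2, if_pos (hiff.mpr ⟨h1, h2⟩), one_mul]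
        · rw [if_neg h2, if_neg (fun h => h2 (hiff.mp h).2), mul_zero]
      · rw [if_neg h1, if_neg (fun h => h1 (hiff.mp h).1), zero_mul]
    · intro b _ hb
      have : ∃ s, b s ≠ (w s).1 := by
        by_contra h
        push Not at h
        exact hb (funext h)
      obtain ⟨s, hs⟩ := this
      apply Finset.prod_eq_zero (Finset.mem_univ (Sum.inr s : μ ⊕ ι))
      rw [Sum.elim_inr, ew, Matrix.single_apply, if_neg]
      intro h
      exact hs h.1.symm
    · intro h
      exact absurd (Finset.mem_univ _) h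
  rw [hL, hR]

end contraction

end Pool.Agent.H.MP_aed2d0_al
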