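import Mathlib

set_option autoImplicit false
set_option linter.unusedSectionVars false

namespace Pool.Agent.H.MP_aed2d0_al

open Module Representation

section CS

theorem char_inv_perm {ι V : Type} [Fintype ι] [DecidableEq ι] [AddCommGroup V] [Module ℚ V]
    [FiniteDimensional ℚ V] (ρ : Representation ℚ (Equiv.Perm ι) V) (g : Equiv.Perm ι) :
    ρ.character g⁻¹ = ρ.character g := by
  have h : IsConj g g⁻¹ := by
    rw [Equiv.Perm.isConj_iff_cycleType_eq, Equiv.Perm.cycleType_inv]
  obtain ⟨c, hc⟩ := isConj_iff.mp h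
  rw [← hc, Representation.char_conj]

theorem cs {ι V W : Type} [Fintype ι] [DecidableEq ι] [AddCommGroup V] [Module ℚ V]
    [FiniteDimensional ℚ V] [AddCommGroup W] [Module ℚ W] [FiniteDimensional ℚ W]
    (ρ : Representation ℚ (Equiv.Perm ι) V) (σ : Representation ℚ (Equiv.Perm ι) W) :
    (finrank ℚ (IntertwiningMap ρ σ)) ^ 2 ≤
      finrank ℚ (IntertwiningMap ρ ρ) * finrank ℚ (IntertwiningMap σ σ) := by
  have hpos : (0 : ℚ) < (Nat.card (Equiv.Perm ι) : ℚ) := by
    exact_mod_cast Nat.card_pos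
  have : Invertible (Nat.card (Equiv.Perm ι) : ℚ) := invertibleOfNonzero hpos.ne'
  have h12 := card_inv_mul_sum_char_mul_char_eq_finrank ρ σ
  have h11 := card_inv_mul_sum_char_mul_char_eq_finrank ρ ρ
  have h22 := card_inv_mul_sum_char_mul_char_eq_finrank σ σ
  simp only [char_inv_perm] at h12 h11 h22
  have key := Finset.sum_mul_sq_le_sq_mul_sq Finset.univ (fun g => σ.character g)
    (fun g => ρ.character g)
  have : ((finrank ℚ (IntertwiningMap ρ σ)) ^ 2 : ℚ) ≤
      (finrank ℚ (IntertwiningMap ρ ρ) : ℚ) * (finrank ℚ (IntertwiningMap σ σ) : ℚ) := by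
    rw [← h12, ← h11, ← h22]
    set c := (Nat.card (Equiv.Perm ι) : ℚ)⁻¹
    have hc : 0 ≤ c := inv_nonneg.mpr hpos.le
    calc (c * ∑ g, σ.character g * ρ.character g) ^ 2
        = c ^ 2 * (∑ g, σ.character g * ρ.character g) ^ 2 := by ring
      _ ≤ c ^ 2 * ((∑ g, σ.character g ^ 2) * ∑ g, ρ.character g ^ 2) := by gcongr
      _ = _ := by
        simp only [pow_two]
        ring
  exact_mod_cast this

end CS

section Perms

variable (k : ℕ) {ι : Type} [Fintype ι] [DecidableEq ι]

/-- The operator of a permutation on words. -/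
def Pm (σ : Equiv.Perm ι) : Matrix (ι → Fin k) (ι → Fin k) ℚ :=
  Matrix.of fun a b => if b = a ∘ σ then 1 else 0

theorem Pm_apply (σ : Equiv.Perm ι) (a b : ι → Fin k) :
    Pm k σ a b = if b = a ∘ σ then 1 else 0 := rfl

theorem Pm_mul_apply (σ : Equiv.Perm ι) (M : Matrix (ι → Fin k) (ι → Fin k) ℚ)
    (a c : ι → Fin k) : (Pm k σ * M) a c = M (a ∘ σ) c := by
  rw [Matrix.mul_apply]
  simp [Pm_apply]

theorem mul_Pm_apply (σ : Equiv.Perm ι) (M : Matrix (ι → Fin k) (ι → Fin k) ℚ)
    (a c : ι → Fin k) : (M * Pm k σ) a c = M a (c ∘ σ.symm) := by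
  rw [Matrix.mul_apply]
  have : ∀ b : ι → Fin k, (c = b ∘ σ) ↔ (b = c ∘ σ.symm) := by
    intro b
    constructor
    · rintro rfl; ext x; simp
    · rintro rfl; ext x; simp
  simp [Pm_apply, this]

theorem Pm_mul_Pm (σ τ : Equiv.Perm ι) : Pm k σ * Pm k τ = Pm k (σ * τ) := by
  ext a c
  rw [Pm_mul_apply, Pm_apply, Pm_apply]
  rfl

theorem Pm_one : Pm k (1 : Equiv.Perm ι) = 1 := by
  ext a c
  rw [Pm_apply, Matrix.one_apply]
  simp [eq_comm]

variable (ι) in
/-- The span of the permutation operators. -/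
def Alg : Submodule ℚ (Matrix (ι → Fin k) (ι → Fin k) ℚ) :=
  Submodule.span ℚ (Set.range (Pm k (ι := ι)))

theorem Pm_mem (σ : Equiv.Perm ι) : Pm k σ ∈ Alg k ι :=
  Submodule.subset_span ⟨σ, rfl⟩

theorem Alg_mul_mem {x y : Matrix (ι → Fin k) (ι → Fin k) ℚ} (hx : x ∈ Alg k ι)
    (hy : y ∈ Alg k ι) : x * y ∈ Alg k ι := by
  unfold Alg at hx hy
  induction hx using Submodule.span_induction with
  | mem x hx =>
    obtain ⟨σ, rfl⟩ := hx
    induction hy using Submodule.span_induction with
    | mem y hy =>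
      obtain ⟨τ, rfl⟩ := hy
      rw [Pm_mul_Pm]
      exact Pm_mem k _
    | zero => simp
    | add y z _ _ hy hz => rw [mul_add]; exact Submodule.add_mem _ hy hz
    | smul c y _ hy => rw [Matrix.mul_smul]; exact Submodule.smul_mem _ _ hy
  | zero => simp
  | add x z _ _ hx hz => rw [add_mul]; exact Submodule.add_mem _ hx hz
  | smul c x _ hx => rw [Matrix.smul_mul]; exact Submodule.smul_mem _ _ hx

/-- Left multiplication representation. -/
def leftRep {G : Type} [Group G] (θ : G →* Equiv.Perm ι) : Representation ℚ G (Alg k ι) where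
  toFun g := (LinearMap.mulLeft ℚ (Pm k (θ g))).restrict
    (fun x hx => Alg_mul_mem k (Pm_mem k (θ g)) hx)
  map_one' := by
    ext x
    simp [Pm_one]
  map_mul' g h := by
    apply LinearMap.ext
    intro x
    apply Subtype.ext
    change Pm k (θ (g * h)) * (x : Matrix (ι → Fin k) (ι → Fin k) ℚ) =
      Pm k (θ g) * (Pm k (θ h) * x)
    rw [map_mul, ← Pm_mul_Pm, mul_assoc]

theorem leftRep_apply {G : Type} [Group G] (θ : G →* Equiv.Perm ι) (g : G) (x : Alg k ι) :
    ((leftRep k θ g x : Alg k ι) : Matrix (ι → Fin k) (ι → Fin k) ℚ) = Pm k (θ g) * x := rfl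

/-- Two linear maps on `Alg` agreeing on permutations are equal. -/
theorem Alg_hom_ext {V : Type} [AddCommGroup V] [Module ℚ V] (f g : Alg k ι →ₗ[ℚ] V)
    (h : ∀ σ : Equiv.Perm ι, f ⟨Pm k σ, Pm_mem k σ⟩ = g ⟨Pm k σ, Pm_mem k σ⟩) : f = g := by
  apply LinearMap.ext
  rintro ⟨x, hx⟩
  have : ∀ x (hx : x ∈ Submodule.span ℚ (Set.range (Pm k (ι := ι)))),
      f ⟨x, hx⟩ = g ⟨x, hx⟩ := by
    intro x hx
    induction hx using Submodule.span_induction with
    | mem x hx =>
      obtain ⟨σ, rfl⟩ := hx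
      exact h σ
    | zero =>
      have h0 : (⟨0, Submodule.zero_mem _⟩ : Alg k ι) = 0 := rfl
      exact (congrArg f h0).trans ((map_zero f).trans ((map_zero g).symm.trans
        (congrArg g h0).symm))
    | add x y hx hy h1 h2 =>
      have h0 : (⟨x + y, Submodule.add_mem _ hx hy⟩ : Alg k ι) = (⟨x, hx⟩ : Alg k ι) + ⟨y, hy⟩ := rfl
      exact (congrArg f h0).trans ((map_add f _ _).trans
        ((congrArg₂ (· + ·) h1 h2).trans ((map_add g _ _).symm.trans (congrArg g h0).symm)))
    | smul c x hx h1 =>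
      have h0 : (⟨c • x, Submodule.smul_mem _ c hx⟩ : Alg k ι) = c • (⟨x, hx⟩ : Alg k ι) := rfl
      exact (congrArg f h0).trans ((map_smul f _ _).trans
        ((congrArg (c • ·) h1).trans ((map_smul g _ _).symm.trans (congrArg g h0).symm)))
  exact this x hx

/-- The one element of `Alg`. -/
def pmOf (σ : Equiv.Perm ι) : Alg k ι := ⟨Pm k σ, Pm_mem k σ⟩

/-- upper bound for the endomorphisms of the regular module -/
theorem finrank_end_reg_le :
    finrank ℚ (IntertwiningMap (leftRep k (MonoidHom.id (Equiv.Perm ι)))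
      (leftRep k (MonoidHom.id (Equiv.Perm ι)))) ≤ finrank ℚ (Alg k ι) := by
  let F : IntertwiningMap (leftRep k (MonoidHom.id (Equiv.Perm ι)))
      (leftRep k (MonoidHom.id (Equiv.Perm ι))) →ₗ[ℚ] Alg k ι :=
    { toFun := fun φ => φ (pmOf k 1)
      map_add' := fun φ ψ => rfl
      map_smul' := fun c φ => rfl }
  apply LinearMap.finrank_le_finrank_of_injective (f := F)
  rw [injective_iff_map_eq_zero]
  intro φ hφ
  have h1 : φ (pmOf k 1) = 0 := hφ
  apply IntertwiningMap.ext
  apply Alg_hom_ext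
  intro σ
  have h2 := φ.isIntertwining (g := σ) (v := pmOf k 1)
  rw [h1, map_zero] at h2
  have h3 : leftRep k (MonoidHom.id (Equiv.Perm ι)) σ (pmOf k 1) = pmOf k σ := by
    apply Subtype.ext
    rw [leftRep_apply]
    change Pm k σ * Pm k 1 = Pm k σ
    rw [Pm_one, mul_one]
  rw [h3] at h2
  exact h2

end Perms

section Hat

variable (k : ℕ) {ι : Type} [Fintype ι] [DecidableEq ι]

/-- Embedding `X ↦ 1 ⊗ X`. -/
def hat : Matrix (ι → Fin k) (ι → Fin k) ℚ →ₗ[ℚ]
    Matrix (Option ι → Fin k) (Option ι → Fin k) ℚ where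
  toFun X := Matrix.of fun a b =>
    if a none = b none then X (fun i => a (some i)) (fun i => b (some i)) else 0
  map_add' X Y := by
    ext a b
    by_cases h : a none = b none <;> simp [h]
  map_smul' c X := by
    ext a b
    by_cases h : a none = b none <;> simp [h]

theorem hat_apply (X : Matrix (ι → Fin k) (ι → Fin k) ℚ) (a b : Option ι → Fin k) :
    hat k X a b =
      if a none = b none then X (fun i => a (some i)) (fun i => b (some i)) else 0 := rfl

variable (ι) in
/-- `Perm ι` inside `Perm (Option ι)`. -/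
def optHom : Equiv.Perm ι →* Equiv.Perm (Option ι) where
  toFun σ := Equiv.optionCongr σ
  map_one' := by ext x; simp
  map_mul' σ τ := by
    ext x
    cases x <;> simp

theorem optHom_apply (σ : Equiv.Perm ι) : optHom ι σ = Equiv.optionCongr σ := rfl

theorem hat_Pm (σ : Equiv.Perm ι) : hat k (Pm k σ) = Pm k (optHom ι σ) := by
  ext a b
  rw [hat_apply, Pm_apply, Pm_apply, optHom_apply]
  have : (b = a ∘ (Equiv.optionCongr σ)) ↔
      (a none = b none ∧ (fun i => b (some i)) = (fun i => a (some i)) ∘ σ) := by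
    constructor
    · rintro rfl
      constructor
      · simp
      · ext i; simp
    · rintro ⟨h1, h2⟩
      funext x
      cases x with
      | none => simp [h1]
      | some i => simpa using congrFun h2 i
  by_cases h1 : a none = b none
  · simp [h1, this]
  · simp [h1, this]

theorem hat_mem {X : Matrix (ι → Fin k) (ι → Fin k) ℚ} (hX : X ∈ Alg k ι) :
    hat k X ∈ Alg k (Option ι) := by
  have : Alg k ι ≤ (Alg k (Option ι)).comap (hat k) := by
    unfold Alg
    rw [Submodule.span_le]
    rintro _ ⟨σ, rfl⟩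
    change hat k (Pm k σ) ∈ Alg k (Option ι)
    rw [hat_Pm]
    exact Pm_mem k _
  exact this hX

theorem hat_Pm_mul (σ : Equiv.Perm ι) (X : Matrix (ι → Fin k) (ι → Fin k) ℚ) :
    hat k (Pm k σ * X) = Pm k (optHom ι σ) * hat k X := by
  ext a b
  rw [Pm_mul_apply, hat_apply, hat_apply, Pm_mul_apply]
  rfl

theorem finrank_hom_ge :
    finrank ℚ (Alg k (Option ι)) ≤
    finrank ℚ (IntertwiningMap (leftRep k (MonoidHom.id (Equiv.Perm ι)))
      (leftRep k (optHom ι))) := by
  let G : Alg k (Option ι) → (Alg k ι →ₗ[ℚ] Alg k (Option ι)) := fun m =>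
    { toFun := fun a => ⟨hat k a.1 * m.1, Alg_mul_mem k (hat_mem k a.2) m.2⟩
      map_add' := fun a b => by
        apply Subtype.ext
        change hat k (a.1 + b.1) * m.1 = hat k a.1 * m.1 + hat k b.1 * m.1
        rw [map_add, add_mul]
      map_smul' := fun c a => by
        apply Subtype.ext
        change hat k (c • a.1) * m.1 = c • (hat k a.1 * m.1)
        rw [map_smul, Matrix.smul_mul] }
  have hG : ∀ (m : Alg k (Option ι)) (a : Alg k ι), (G m a).1 = hat k a.1 * m.1 := fun m a => rfl
  let F : Alg k (Option ι) →ₗ[ℚ] IntertwiningMap (leftRep k (MonoidHom.id (Equiv.Perm ι)))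
      (leftRep k (optHom ι)) :=
    { toFun := fun m => LinearMap.intertwiningMap_of_isIntertwiningMap _ _ (G m) (by
        intro g v
        apply Subtype.ext
        rw [leftRep_apply]
        change hat k ((leftRep k (MonoidHom.id (Equiv.Perm ι)) g v).1) * m.1 =
          Pm k (optHom ι g) * (hat k v.1 * m.1)
        rw [leftRep_apply, MonoidHom.id_apply, hat_Pm_mul, mul_assoc])
      map_add' := fun m n => by
        apply IntertwiningMap.ext
        apply LinearMap.ext
        intro a
        apply Subtype.ext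
        change hat k a.1 * (m.1 + n.1) = hat k a.1 * m.1 + hat k a.1 * n.1
        rw [mul_add]
      map_smul' := fun c m => by
        apply IntertwiningMap.ext
        apply LinearMap.ext
        intro a
        apply Subtype.ext
        change hat k a.1 * (c • m.1) = c • (hat k a.1 * m.1)
        rw [Matrix.mul_smul] }
  apply LinearMap.finrank_le_finrank_of_injective (f := F)
  rw [injective_iff_map_eq_zero]
  intro m hm
  have h1 : F m (pmOf k 1) = 0 := by rw [hm]; rfl
  apply Subtype.ext
  have h2 : (F m (pmOf k 1)).1 = m.1 := by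
    change hat k (Pm k 1) * m.1 = m.1
    rw [hat_Pm, map_one, Pm_one, one_mul]
  rw [← h2, h1]

end Hat

end Pool.Agent.H.MP_aed2d0_al
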