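import Mathlib

set_option autoImplicit false

namespace Pool.Agent.H.MP_aed2d0_al

open Finset

/-- Two words with the same content differ by a permutation of positions. -/
theorem exists_perm_of_content {ι β : Type} [Fintype ι] [DecidableEq ι] [DecidableEq β]
    (v v' : ι → β)
    (h : ∀ b, Fintype.card {i // v i = b} = Fintype.card {i // v' i = b}) :
    ∃ g : Equiv.Perm ι, v ∘ g = v' := by
  have e : ∀ b, {i // v' i = b} ≃ {i // v i = b} := fun b => Fintype.equivOfCardEq (h b).symm
  refine ⟨(Equiv.sigmaFiberEquiv v').symm.trans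
    ((Equiv.sigmaCongrRight e).trans (Equiv.sigmaFiberEquiv v)), ?_⟩
  funext i
  exact (e (v' i) ⟨i, rfl⟩).2

/-- The content of a word as a finitely supported function. -/
noncomputable def cont {ι β : Type} [Fintype ι] (v : ι → β) : β →₀ ℕ :=
  ∑ j, Finsupp.single (v j) 1

theorem cont_apply {ι β : Type} [Fintype ι] [DecidableEq β] (v : ι → β) (b : β) :
    cont v b = Fintype.card {i // v i = b} := by
  classical
  rw [cont, Finsupp.finsetSum_apply]
  simp only [Finsupp.single_apply]
  rw [Finset.sum_boole, Fintype.card_subtype]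
  simp

theorem exists_perm_of_cont_eq {ι β : Type} [Fintype ι] [DecidableEq ι] [DecidableEq β]
    (v v' : ι → β) (h : cont v = cont v') : ∃ g : Equiv.Perm ι, v ∘ g = v' := by
  apply exists_perm_of_content
  intro b
  rw [← cont_apply, ← cont_apply, h]

theorem sym_vanish {k : ℕ} {ι : Type} [Fintype ι] [DecidableEq ι]
    (X : (ι → Fin k × Fin k) → ℚ) (hsym : ∀ (g : Equiv.Perm ι) v, X (v ∘ g) = X v)
    (h : ∀ u : Matrix (Fin k) (Fin k) ℚ, u.det ≠ 0 → ∑ v, X v * ∏ j, u (v j).1 (v j).2 = 0) :
    X = 0 := by
  classical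
  set p : MvPolynomial (Fin k × Fin k) ℚ := ∑ v, MvPolynomial.monomial (cont v) (X v) with hp
  have heval : ∀ u : Fin k × Fin k → ℚ, MvPolynomial.eval u p = ∑ v, X v * ∏ j, u (v j) := by
    intro u
    rw [hp, map_sum]
    apply Finset.sum_congr rfl
    intro v _
    rw [cont, MvPolynomial.monomial_sum_index, map_mul, MvPolynomial.eval_C, map_prod]
    congr 1
    apply Finset.prod_congr rfl
    intro j _
    simp [MvPolynomial.eval_monomial]
  have hmul : p * (Matrix.mvPolynomialX (Fin k) (Fin k) ℚ).det = 0 := by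
    apply MvPolynomial.funext
    intro u
    rw [map_mul, map_zero]
    have hdet : MvPolynomial.eval u (Matrix.mvPolynomialX (Fin k) (Fin k) ℚ).det
        = (Matrix.of fun i j => u (i, j)).det := by
      rw [RingHom.map_det]
      congr 1
      ext i j
      simp [Matrix.mvPolynomialX]
    rw [hdet]
    by_cases hu : (Matrix.of fun i j => u (i, j)).det = 0
    · rw [hu, mul_zero]
    · rw [heval]
      have := h _ hu
      simp only [Matrix.of_apply] at this
      rw [this, zero_mul]
  have hp0 : p = 0 := by
    rcases mul_eq_zero.mp hmul with h1 | h1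
    · exact h1
    · exact absurd h1 (Matrix.det_mvPolynomialX_ne_zero (Fin k) ℚ)
  funext v0
  have hc : MvPolynomial.coeff (cont v0) p = 0 := by rw [hp0]; simp
  rw [hp, MvPolynomial.coeff_sum] at hc
  have hc2 : ∀ v : ι → Fin k × Fin k, MvPolynomial.coeff (cont v0)
      (MvPolynomial.monomial (cont v) (X v)) = if cont v = cont v0 then X v0 else 0 := by
    intro v
    rw [MvPolynomial.coeff_monomial]
    split_ifs with hv
    · obtain ⟨g, hg⟩ := exists_perm_of_cont_eq v0 v hv.symm
      rw [← hg, hsym]
    · rfl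
  simp only [hc2] at hc
  rw [← Finset.sum_filter, Finset.sum_const, nsmul_eq_mul] at hc
  rcases mul_eq_zero.mp hc with h1 | h1
  · exfalso
    have : 0 < (Finset.univ.filter (fun v : ι → Fin k × Fin k => cont v = cont v0)).card :=
      Finset.card_pos.mpr ⟨v0, by simp⟩
    have h2 : ((Finset.univ.filter (fun v : ι → Fin k × Fin k => cont v = cont v0)).card : ℚ) ≠ 0 := by
      exact_mod_cast this.ne'
    exact h2 h1
  · exact h1

end Pool.Agent.H.MP_aed2d0_al
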