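import Mathlib
import Pool.Agent.H.MP_aed2d0_al.PartB
import Pool.Agent.H.MP_aed2d0_al.Sym

set_option autoImplicit false
set_option linter.unusedSectionVars false

namespace Pool.Agent.H.MP_aed2d0_al

open Module Representation

section Cons

/-- extend a word by one letter at `none` -/
def ocons {ι α : Type} (m : α) (e : ι → α) : Option ι → α := fun o => o.elim m e

@[simp] theorem ocons_none {ι α : Type} (m : α) (e : ι → α) : ocons m e none = m := rfl

@[simp] theorem ocons_some {ι α : Type} (m : α) (e : ι → α) (i : ι) : ocons m e (some i) = e i := rfl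

theorem ocons_eta {ι α : Type} (a : Option ι → α) : ocons (a none) (fun i => a (some i)) = a := by
  funext o; cases o <;> rfl

theorem sum_ocons {ι α : Type} [Fintype ι] [DecidableEq ι] [Fintype α] {M : Type} [AddCommMonoid M]
    (f : (Option ι → α) → M) : ∑ c, f c = ∑ m : α, ∑ e : ι → α, f (ocons m e) := by
  rw [← Fintype.sum_prod_type']
  apply Fintype.sum_equiv
    { toFun := fun c => (c none, fun i => c (some i))
      invFun := fun p => ocons p.1 p.2
      left_inv := fun c => ocons_eta c
      right_inv := fun p => rfl }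
  intro c
  change f c = f (ocons (c none) (fun i => c (some i)))
  rw [ocons_eta]

theorem ocons_comp_optHom {ι α : Type} [Fintype ι] [DecidableEq ι] (m : α) (e : ι → α)
    (g : Equiv.Perm ι) : ocons m (e ∘ g) = (ocons m e) ∘ (optHom ι g) := by
  funext o
  cases o with
  | none => simp [optHom_apply]
  | some i => simp [optHom_apply]

end Cons

section Three

variable (k : ℕ) {ι : Type} [Fintype ι] [DecidableEq ι]

theorem Pm_inv_apply (σ : Equiv.Perm ι) (a b : ι → Fin k) : Pm k σ⁻¹ a b = Pm k σ b a := by
  rw [Pm_apply, Pm_apply]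
  have : (b = a ∘ ⇑σ⁻¹) ↔ (a = b ∘ σ) := by
    constructor
    · rintro rfl; ext x; simp
    · rintro rfl; ext x; simp
  simp only [this]

theorem triple_apply (X Z : Matrix (Option ι → Fin k) (Option ι → Fin k) ℚ)
    (a b : Option (Option ι) → Fin k) :
    (hat k X * (Pm k (Equiv.swap (none : Option (Option ι)) (some none)) * hat k Z) :
      Matrix (Option (Option ι) → Fin k) (Option (Option ι) → Fin k) ℚ) a b =
      ∑ e : ι → Fin k, X (fun i => a (some i)) (ocons (b none) e) *
        Z (ocons (a none) e) (fun i => b (some i)) := by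
  obtain ⟨x, hx⟩ : ∃ x : (Option ι → Fin k) → (Option ι → Fin k) → ℚ, ∀ p q, X p q = x p q :=
    ⟨fun p q => X p q, fun _ _ => rfl⟩
  obtain ⟨z, hz⟩ : ∃ x : (Option ι → Fin k) → (Option ι → Fin k) → ℚ, ∀ p q, Z p q = x p q :=
    ⟨fun p q => Z p q, fun _ _ => rfl⟩
  have h1 : ∀ (c0 c1 : Fin k) (e : ι → Fin k),
      hat k X a (ocons c0 (ocons c1 e)) *
        (Pm k (Equiv.swap (none : Option (Option ι)) (some none)) * hat k Z :
      Matrix (Option (Option ι) → Fin k) (Option (Option ι) → Fin k) ℚ)
        (ocons c0 (ocons c1 e)) b =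
      (if a none = c0 then (if c1 = b none then
        x (fun i => a (some i)) (ocons c1 e) * z (ocons c0 e) (fun i => b (some i)) else 0)
        else 0) := by
    intro c0 c1 e
    rw [Pm_mul_apply, hat_apply, hat_apply, ← hx, ← hz]
    have h2 : (ocons c0 (ocons c1 e) ∘ ⇑(Equiv.swap (none : Option (Option ι)) (some none))) none
      = c1 := by simp
    have h3 : (fun i => (ocons c0 (ocons c1 e) ∘
      ⇑(Equiv.swap (none : Option (Option ι)) (some none))) (some i)) = ocons c0 e := by
      funext o
      cases o with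
      | none => simp
      | some i =>
        simp only [Function.comp_apply]
        rw [Equiv.swap_apply_of_ne_of_ne (by simp) (by simp)]
        rfl
    rw [h2, h3]
    have h4 : ocons c0 (ocons c1 e) none = c0 := rfl
    have h5 : (fun i => ocons c0 (ocons c1 e) (some i)) = ocons c1 e := rfl
    rw [h4, h5]
    by_cases h6 : a none = c0 <;> by_cases h7 : c1 = b none <;> simp [h6, h7]
  rw [Matrix.mul_apply, sum_ocons]
  have h8 : ∀ c0 : Fin k, ∑ c' : Option ι → Fin k, hat k X a (ocons c0 c') *
        (Pm k (Equiv.swap (none : Option (Option ι)) (some none)) * hat k Z :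
      Matrix (Option (Option ι) → Fin k) (Option (Option ι) → Fin k) ℚ)
        (ocons c0 c') b =
      (if a none = c0 then ∑ e : ι → Fin k, 
        x (fun i => a (some i)) (ocons (b none) e) * z (ocons c0 e) (fun i => b (some i))
        else 0) := by
    intro c0
    rw [sum_ocons]
    simp only [h1]
    split_ifs with h
    · rw [Finset.sum_comm]
      simp only [Finset.sum_ite_eq', Finset.mem_univ, if_true]
    · simp
  simp only [h8]
  rw [Finset.sum_ite_eq]
  simp only [Finset.mem_univ, if_true, hx, hz]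

/-- the `n`-fold tensor power of a matrix -/
def tpow (u : Matrix (Fin k) (Fin k) ℚ) : Matrix (ι → Fin k) (ι → Fin k) ℚ :=
  Matrix.of fun a b => ∏ j, u (a j) (b j)

theorem tpow_comm (u : Matrix (Fin k) (Fin k) ℚ) (σ : Equiv.Perm ι) :
    tpow k u * Pm k σ = Pm k σ * tpow k u := by
  ext a c
  rw [mul_Pm_apply, Pm_mul_apply]
  change ∏ j, u (a j) ((c ∘ σ.symm) j) = ∏ j, u ((a ∘ σ) j) (c j)
  rw [← Equiv.prod_comp σ (fun j => u (a j) ((c ∘ σ.symm) j))]
  apply Finset.prod_congr rfl
  intro j _
  simp

/-- Main vanishing statement. -/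
theorem hom_vanish (ψ : Equiv.Perm (Option ι) → Matrix (Option ι → Fin k) (Option ι → Fin k) ℚ)
    (hequiv : ∀ (g : Equiv.Perm ι) σ, ψ (optHom ι g * σ) = Pm k (optHom ι g) * ψ σ)
    (h0 : ∀ (m l : Fin k) (p q : Option ι → Fin k),
      ∑ e : ι → Fin k, ∑ σ, Pm k σ (ocons m e) p * ψ σ (ocons l e) q = 0)
    (a p c q : Option ι → Fin k) : ∑ σ, Pm k σ a p * ψ σ c q = 0 := by
  obtain ⟨P, hP⟩ : ∃ P : Equiv.Perm (Option ι) → (Option ι → Fin k) → (Option ι → Fin k) → ℚ,
    ∀ σ a b, Pm k σ a b = P σ a b := ⟨fun σ p q => Pm k σ p q, fun _ _ _ => rfl⟩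
  obtain ⟨y, hy⟩ : ∃ y : Equiv.Perm (Option ι) → (Option ι → Fin k) → (Option ι → Fin k) → ℚ,
    ∀ σ a b, ψ σ a b = y σ a b := ⟨fun σ p q => ψ σ p q, fun _ _ _ => rfl⟩
  have hPg : ∀ (g : Equiv.Perm ι) σ (m : Fin k) (e : ι → Fin k) p,
      P σ (ocons m (e ∘ g)) p = P (optHom ι g * σ) (ocons m e) p := by
    intro g σ m e p
    rw [← hP, ← hP, ← Pm_mul_Pm, Pm_mul_apply, ocons_comp_optHom]
  have hyg : ∀ (g : Equiv.Perm ι) σ (m : Fin k) (e : ι → Fin k) p,
      y σ (ocons m (e ∘ g)) p = y (optHom ι g * σ) (ocons m e) p := by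
    intro g σ m e p
    rw [← hy, ← hy, hequiv, Pm_mul_apply, ocons_comp_optHom]
  have hT : ∀ (u : Matrix (Fin k) (Fin k) ℚ) σ (m' : Fin k) (c' : ι → Fin k) (p : Option ι → Fin k),
      ∑ m, ∑ c : ι → Fin k, (u m m' * ∏ j, u (c j) (c' j)) * P σ (ocons m c) p =
      ∑ p' : Option ι → Fin k, P σ (ocons m' c') p' * ∏ o, u (p o) (p' o) := by
    intro u σ m' c' p
    have h1 := congrFun (congrFun (tpow_comm (ι := Option ι) k u.transpose σ) (ocons m' c')) p
    rw [Matrix.mul_apply, Matrix.mul_apply, sum_ocons] at h1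
    simp only [hP] at h1
    change _ = ∑ p' : Option ι → Fin k, P σ (ocons m' c') p' *
      (∏ o, u (p o) (p' o)) at h1
    rw [← h1]
    apply Finset.sum_congr rfl
    intro m _
    apply Finset.sum_congr rfl
    intro c _
    congr 1
    change _ = ∏ o, u ((ocons m c) o) ((ocons m' c') o)
    rw [Fintype.prod_option]
    rfl
  simp only [hP, hy] at h0 ⊢
  have key : ∀ (m l : Fin k) (p q : Option ι → Fin k),
      (fun v : ι → Fin k × Fin k => ∑ σ, P σ (ocons m (fun i => (v i).1)) p *
        y σ (ocons l (fun i => (v i).2)) q) = 0 := by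
    intro m l p q
    apply sym_vanish
    · intro g v
      have e1 : (fun i => ((v ∘ g) i).1) = (fun i => (v i).1) ∘ g := rfl
      have e2 : (fun i => ((v ∘ g) i).2) = (fun i => (v i).2) ∘ g := rfl
      simp only [e1, e2, hPg, hyg]
      exact Equiv.sum_comp (Equiv.mulLeft (optHom ι g))
        (fun σ => P σ (ocons m (fun i => (v i).1)) p * y σ (ocons l (fun i => (v i).2)) q)
    · intro u hu
      set Z : Fin k → ℚ := fun m => ∑ v : ι → Fin k × Fin k,
        (∑ σ, P σ (ocons m (fun i => (v i).1)) p * y σ (ocons l (fun i => (v i).2)) q) *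
          ∏ j, u (v j).1 (v j).2 with hZ
      have hZ0 : Z = 0 := by
        apply Matrix.eq_zero_of_mulVec_eq_zero (M := u.transpose)
        · rwa [Matrix.det_transpose]
        · funext m'
          rw [Matrix.mulVec, dotProduct]
          simp only [Matrix.transpose_apply, Pi.zero_apply]
          have e1 : ∀ m, Z m = ∑ c' : ι → Fin k, ∑ c : ι → Fin k, ∑ σ,
              (∏ j, u (c j) (c' j)) * P σ (ocons m c) p * y σ (ocons l c') q := by
            intro m
            rw [hZ, Finset.sum_comm, ← Fintype.sum_prod_type']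
            apply Fintype.sum_equiv (Equiv.arrowProdEquivProdArrow ι (fun _ => Fin k) (fun _ => Fin k))
            intro v
            simp only [Finset.sum_mul]
            apply Finset.sum_congr rfl
            intro σ _
            simp only [Equiv.arrowProdEquivProdArrow_apply]
            ring
          calc ∑ m, u m m' * Z m
              = ∑ c' : ι → Fin k, ∑ σ, (∑ m, ∑ c : ι → Fin k,
                (u m m' * ∏ j, u (c j) (c' j)) * P σ (ocons m c) p) * y σ (ocons l c') q := by
                simp only [e1, Finset.mul_sum, Finset.sum_mul]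
                rw [Finset.sum_comm]
                apply Finset.sum_congr rfl
                intro c' _
                rw [Finset.sum_comm]
                conv_rhs => rw [Finset.sum_comm]; enter [2, m]; rw [Finset.sum_comm]
                rw [Finset.sum_comm]
                apply Finset.sum_congr rfl
                intro m _
                apply Finset.sum_congr rfl
                intro c _
                apply Finset.sum_congr rfl
                intro σ _
                ring
            _ = ∑ c' : ι → Fin k, ∑ σ, (∑ p' : Option ι → Fin k,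
                P σ (ocons m' c') p' * ∏ o, u (p o) (p' o)) * y σ (ocons l c') q := by
                simp only [hT]
            _ = ∑ p' : Option ι → Fin k, (∏ o, u (p o) (p' o)) *
                ∑ c' : ι → Fin k, ∑ σ, P σ (ocons m' c') p' * y σ (ocons l c') q := by
                simp only [Finset.mul_sum, Finset.sum_mul]
                conv_rhs => rw [Finset.sum_comm]
                apply Finset.sum_congr rfl
                intro c' _
                conv_rhs => rw [Finset.sum_comm]
                apply Finset.sum_congr rfl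
                intro σ _
                apply Finset.sum_congr rfl
                intro p' _
                ring
            _ = 0 := by simp [h0]
      exact congrFun hZ0 m
  have := congrFun (key (a none) (c none) p q) (fun i => (a (some i), c (some i)))
  simp only [Pi.zero_apply] at this
  rw [← this]
  apply Finset.sum_congr rfl
  intro σ _
  rw [ocons_eta, ocons_eta]

theorem frame_general {V I : Type} [AddCommGroup V] [Module ℚ V] [FiniteDimensional ℚ V]
    [Fintype I] (v : I → V) (B : V →ₗ[ℚ] V →ₗ[ℚ] ℚ) (h : ∀ x, (∀ i, B (v i) x = 0) → x = 0)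
    (x : V) : ∃ y, x = ∑ i, B (v i) y • v i := by
  let Θ : V →ₗ[ℚ] V := ∑ i, (B (v i)).smulRight (v i)
  have hΘ : ∀ y, Θ y = ∑ i, B (v i) y • v i := by
    intro y
    simp [Θ, LinearMap.sum_apply]
  have hinj : Function.Injective Θ := by
    rw [injective_iff_map_eq_zero]
    intro y hy
    have h1 : B (Θ y) y = ∑ i, (B (v i) y) ^ 2 := by
      rw [hΘ, map_sum, LinearMap.sum_apply]
      apply Finset.sum_congr rfl
      intro i _
      rw [map_smul, LinearMap.smul_apply, smul_eq_mul, pow_two]
    rw [hy, map_zero, LinearMap.zero_apply] at h1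
    have h2 := (Finset.sum_eq_zero_iff_of_nonneg (fun i _ => sq_nonneg (B (v i) y))).mp h1.symm
    apply h
    intro i
    exact pow_eq_zero_iff (two_ne_zero) |>.mp (h2 i (Finset.mem_univ i))
  obtain ⟨y, hy⟩ := (LinearMap.injective_iff_surjective.mp hinj) x
  exact ⟨y, by rw [← hy, hΘ]⟩

/-- The standard form on matrices. -/
def ipForm : Matrix (ι → Fin k) (ι → Fin k) ℚ →ₗ[ℚ] Matrix (ι → Fin k) (ι → Fin k) ℚ →ₗ[ℚ] ℚ :=
  LinearMap.mk₂ ℚ (fun x y => ∑ a : ι → Fin k, ∑ p : ι → Fin k, x a p * y a p)
    (by
      intro x y z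
      simp only [Matrix.add_apply, add_mul, Finset.sum_add_distrib])
    (by
      intro c x y
      simp only [Matrix.smul_apply, smul_eq_mul, Finset.mul_sum, mul_assoc])
    (by
      intro x y z
      simp only [Matrix.add_apply, mul_add, Finset.sum_add_distrib])
    (by
      intro c x y
      simp only [Matrix.smul_apply, smul_eq_mul, Finset.mul_sum]
      apply Finset.sum_congr rfl
      intro a _
      apply Finset.sum_congr rfl
      intro p _
      ring)

theorem ipForm_apply (x y : Matrix (ι → Fin k) (ι → Fin k) ℚ) :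
    ipForm k x y = ∑ a : ι → Fin k, ∑ p : ι → Fin k, x a p * y a p := rfl

theorem ipForm_self {x : Matrix (ι → Fin k) (ι → Fin k) ℚ} (h : ipForm k x x = 0) : x = 0 := by
  rw [ipForm_apply] at h
  have h1 := (Finset.sum_eq_zero_iff_of_nonneg (fun a _ => Finset.sum_nonneg
    (fun p _ => mul_self_nonneg (x a p)))).mp h
  ext a p
  have h2 := (Finset.sum_eq_zero_iff_of_nonneg
    (fun p _ => mul_self_nonneg (x a p))).mp (h1 a (Finset.mem_univ a)) p (Finset.mem_univ p)
  simpa using h2

/-- The frame operator of the permutation operators is onto. -/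
theorem frame_surj (x : Alg k ι) : ∃ y : Alg k ι,
    x = ∑ σ : Equiv.Perm ι, (ipForm k (Pm k σ) y.1) • pmOf k σ := by
  let B : Alg k ι →ₗ[ℚ] Alg k ι →ₗ[ℚ] ℚ :=
    (ipForm k).compl₁₂ (Alg k ι).subtype (Alg k ι).subtype
  have hB : ∀ x y : Alg k ι, B x y = ipForm k x.1 y.1 := fun x y => rfl
  obtain ⟨y, hy⟩ := frame_general (pmOf k (ι := ι)) B (by
    intro x hx
    have h1 : B.flip x = 0 := by
      apply Alg_hom_ext
      intro σ
      exact hx σ
    have h2 : B.flip x x = 0 := by rw [h1]; rfl
    have h3 : ipForm k x.1 x.1 = 0 := h2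
    exact Subtype.ext (ipForm_self k h3)) x
  exact ⟨y, hy⟩

theorem finrank_end_le :
    finrank ℚ (IntertwiningMap (leftRep k (optHom ι)) (leftRep k (optHom ι))) ≤
      finrank ℚ (Alg k (Option (Option ι))) := by
  let S : Matrix (Option (Option ι) → Fin k) (Option (Option ι) → Fin k) ℚ :=
    Pm k (Equiv.swap (none : Option (Option ι)) (some none))
  let F : IntertwiningMap (leftRep k (optHom ι)) (leftRep k (optHom ι)) →ₗ[ℚ]
      Alg k (Option (Option ι)) :=
    { toFun := fun φ => ∑ σ : Equiv.Perm (Option ι),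
        ⟨hat k (Pm k σ⁻¹) * (S * hat k (φ (pmOf k σ)).1),
          Alg_mul_mem k (hat_mem k (Pm_mem k _)) (Alg_mul_mem k (Pm_mem k _)
            (hat_mem k (φ (pmOf k σ)).2))⟩
      map_add' := by
        intro φ ψ
        rw [← Finset.sum_add_distrib]
        apply Finset.sum_congr rfl
        intro σ _
        apply Subtype.ext
        change hat k (Pm k σ⁻¹) * (S * hat k ((φ (pmOf k σ)).1 + (ψ (pmOf k σ)).1)) =
          hat k (Pm k σ⁻¹) * (S * hat k (φ (pmOf k σ)).1) +
          hat k (Pm k σ⁻¹) * (S * hat k (ψ (pmOf k σ)).1)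
        rw [map_add, mul_add, mul_add]
      map_smul' := by
        intro c φ
        rw [RingHom.id_apply, Finset.smul_sum]
        apply Finset.sum_congr rfl
        intro σ _
        apply Subtype.ext
        change hat k (Pm k σ⁻¹) * (S * hat k (c • (φ (pmOf k σ)).1)) =
          c • (hat k (Pm k σ⁻¹) * (S * hat k (φ (pmOf k σ)).1))
        rw [map_smul, Matrix.mul_smul, Matrix.mul_smul] }
  apply LinearMap.finrank_le_finrank_of_injective (f := F)
  rw [injective_iff_map_eq_zero]
  intro φ hφ
  have h1 : ∀ a b, ∑ σ : Equiv.Perm (Option ι),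
      (hat k (Pm k σ⁻¹) * (S * hat k (φ (pmOf k σ)).1) :
        Matrix (Option (Option ι) → Fin k) (Option (Option ι) → Fin k) ℚ) a b = 0 := by
    intro a b
    have h2 : (F φ).1 = ∑ σ : Equiv.Perm (Option ι),
      (hat k (Pm k σ⁻¹) * (S * hat k (φ (pmOf k σ)).1) :
        Matrix (Option (Option ι) → Fin k) (Option (Option ι) → Fin k) ℚ) := by
      change (∑ σ : Equiv.Perm (Option ι),
        (⟨hat k (Pm k σ⁻¹) * (S * hat k (φ (pmOf k σ)).1), _⟩ :
          Alg k (Option (Option ι)))).1 = _
      rw [AddSubmonoidClass.coe_finsetSum]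
    rw [← Matrix.sum_apply, ← h2, hφ]
    rfl
  have h0 : ∀ (m l : Fin k) (p q : Option ι → Fin k),
      ∑ e : ι → Fin k, ∑ σ, Pm k σ (ocons m e) p * (φ (pmOf k σ)).1 (ocons l e) q = 0 := by
    intro m l p q
    have h2 := h1 (ocons l p) (ocons m q)
    simp only [S, triple_apply] at h2
    rw [Finset.sum_comm, ← h2]
    apply Finset.sum_congr rfl
    intro σ _
    apply Finset.sum_congr rfl
    intro e _
    rw [Pm_inv_apply]
    rfl
  have h3 := hom_vanish k (fun σ => (φ (pmOf k σ)).1) (by
    intro g σ
    have h4 := φ.isIntertwining (g := g) (v := pmOf k σ)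
    have h5 : leftRep k (optHom ι) g (pmOf k σ) = pmOf k (optHom ι g * σ) := by
      apply Subtype.ext
      rw [leftRep_apply]
      change Pm k (optHom ι g) * Pm k σ = _
      rw [Pm_mul_Pm]
      rfl
    rw [h5] at h4
    have h6 := congrArg Subtype.val h4
    rw [leftRep_apply] at h6
    exact h6) h0
  apply IntertwiningMap.ext
  apply LinearMap.ext
  intro x
  obtain ⟨y, hy⟩ := frame_surj k x
  change φ x = 0
  apply Subtype.ext
  ext c q
  change (φ x).1 c q = 0
  have h7 : (φ x).1 = ∑ σ, (ipForm k (Pm k σ) y.1) • (φ (pmOf k σ)).1 := by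
    conv_lhs => rw [hy]
    have : φ (∑ σ : Equiv.Perm (Option ι), (ipForm k (Pm k σ) y.1) • pmOf k σ) =
      ∑ σ : Equiv.Perm (Option ι), (ipForm k (Pm k σ) y.1) • φ (pmOf k σ) := by
      rw [map_sum]
      apply Finset.sum_congr rfl
      intro σ _
      rw [map_smul]
    rw [this, AddSubmonoidClass.coe_finsetSum]
    rfl
  rw [h7, Matrix.sum_apply]
  have h8 : ∀ σ : Equiv.Perm (Option ι), ((ipForm k (Pm k σ) y.1) • (φ (pmOf k σ)).1) c q =
      ∑ a : Option ι → Fin k, ∑ p : Option ι → Fin k,
        y.1 a p * (Pm k σ a p * (φ (pmOf k σ)).1 c q) := by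
    intro σ
    change ipForm k (Pm k σ) y.1 * (φ (pmOf k σ)).1 c q = _
    rw [ipForm_apply, Finset.sum_mul]
    apply Finset.sum_congr rfl
    intro a _
    rw [Finset.sum_mul]
    apply Finset.sum_congr rfl
    intro p _
    ring
  simp only [h8]
  rw [Finset.sum_comm]
  apply Finset.sum_eq_zero
  intro a _
  rw [Finset.sum_comm]
  apply Finset.sum_eq_zero
  intro p _
  rw [← Finset.mul_sum, h3, mul_zero]

end Three

end Pool.Agent.H.MP_aed2d0_al
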