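import Mathlib
import Pool.Agent.H.MP_aed2d0_al.PartB2
import Pool.Agent.H.MP_aed2d0_al.Contr

set_option autoImplicit false
set_option linter.unusedSectionVars false

namespace Pool.Agent.H.MP_aed2d0_al

open Finset

variable (k : ℕ)

section F1

variable {μ κ : Type} [Fintype μ] [DecidableEq μ] [Fintype κ] [DecidableEq κ]

theorem trR_embed (π : Equiv.Perm κ) (y : Option (μ ⊕ κ) → Matrix (Fin k) (Fin k) ℚ) :
    trR (Equiv.optionCongr (Equiv.sumCongr (1 : Equiv.Perm μ) π))
      (Finset.univ.image (fun i : κ => (some (Sum.inr i) : Option (μ ⊕ κ)))) y =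
    ((k : ℚ) * (k : ℚ) ^ Fintype.card μ) * trR π Finset.univ (fun i => y (some (Sum.inr i))) := by
  unfold trR
  have hinj : Function.Injective (fun i : κ => (some (Sum.inr i) : Option (μ ⊕ κ))) := by
    intro a b h
    simpa using h
  have h1 : ∀ l : Option (μ ⊕ κ) → Fin k,
      ∏ v ∈ Finset.univ.image (fun i : κ => (some (Sum.inr i) : Option (μ ⊕ κ))),
        y v (l v) (l ((Equiv.optionCongr (Equiv.sumCongr (1 : Equiv.Perm μ) π)) v)) =
      ∏ i : κ, y (some (Sum.inr i)) (l (some (Sum.inr i))) (l (some (Sum.inr (π i)))) := by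
    intro l
    rw [Finset.prod_image (fun a _ b _ h => hinj h)]
    apply Finset.prod_congr rfl
    intro i _
    simp
  simp only [h1]
  rw [sum_ocons]
  simp only [ocons_some]
  rw [Finset.sum_const, Finset.card_univ, Fintype.card_fin, nsmul_eq_mul, mul_assoc]
  congr 1
  rw [← (Equiv.sumArrowEquivProdArrow μ κ (Fin k)).symm.sum_comp, Fintype.sum_prod_type]
  have h2 : ∀ (a : μ → Fin k), ∑ b : κ → Fin k, ∏ i : κ, y (some (Sum.inr i))
      ((Equiv.sumArrowEquivProdArrow μ κ (Fin k)).symm (a, b) (Sum.inr i))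
      ((Equiv.sumArrowEquivProdArrow μ κ (Fin k)).symm (a, b) (Sum.inr (π i))) =
      ∑ b : κ → Fin k, ∏ i : κ, y (some (Sum.inr i)) (b i) (b (π i)) := fun a => rfl
  simp only [h2]
  rw [Finset.sum_const, Finset.card_univ, nsmul_eq_mul]
  simp

end F1

section F1b

variable {ι : Type} [Fintype ι] [DecidableEq ι]

/-- index type of the variables of the central polynomial -/
abbrev Mu (k : ℕ) : Type := Fin (k * k) ⊕ Fin (k * k)

/-- substitution data -/
def rho (μ : Type) (ι : Type) : Option (μ ⊕ (μ ⊕ ι)) → Option (μ ⊕ ι)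
  | none => none
  | some (Sum.inl t) => some (Sum.inl t)
  | some (Sum.inr (Sum.inl _)) => none
  | some (Sum.inr (Sum.inr s)) => some (Sum.inr s)

theorem F1 (hk : 1 ≤ k) (π : Equiv.Perm (Mu k ⊕ ι)) :
    (fun x : Mu k ⊕ ι → Matrix (Fin k) (Fin k) ℚ =>
      (trR π Finset.univ (Sum.elim (fun _ => (1 : Matrix (Fin k) (Fin k) ℚ))
        (fun i => x (Sum.inr i))) * pt k (fun i => x (Sum.inl i))) •
          (1 : Matrix (Fin k) (Fin k) ℚ)) ∈ Pol k Finset.univ := by
  let A : Fin (k * k) → Option ((Mu k) ⊕ ((Mu k) ⊕ ι)) := fun i => some (Sum.inl (Sum.inl i))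
  let Y : Fin (k * k) → Option ((Mu k) ⊕ ((Mu k) ⊕ ι)) := fun i => some (Sum.inl (Sum.inr i))
  have hA : Function.Injective A := by
    intro a b h
    exact Sum.inl.inj (Sum.inl.inj (Option.some.inj h))
  have hY : Function.Injective Y := by
    intro a b h
    exact Sum.inr.inj (Sum.inl.inj (Option.some.inj h))
  have hAY : ∀ i j, A i ≠ Y j := by
    intro i j
    simp [A, Y]
  set S : Finset (Option ((Mu k) ⊕ ((Mu k) ⊕ ι))) := Finset.univ.image A ∪ Finset.univ.image Y with hS
  have hAS : ∀ i, A i ∈ S := fun i => Finset.mem_union_left _ (Finset.mem_image_of_mem _ (Finset.mem_univ i))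
  have hYS : ∀ i, Y i ∈ S := fun i => Finset.mem_union_right _ (Finset.mem_image_of_mem _ (Finset.mem_univ i))
  have hz : (none : Option ((Mu k) ⊕ ((Mu k) ⊕ ι))) ∉ S := by
    simp [hS, A, Y]
  have hcap := cap_mem A Y hA hY hAY
  have hupd : ∀ (x : Option ((Mu k) ⊕ ((Mu k) ⊕ ι)) → Matrix (Fin k) (Fin k) ℚ) v M, (∀ i, Y i ≠ v) →
      (fun i => Function.update x v M (Y i)) = fun i => x (Y i) := by
    intro x v M h
    funext i
    rw [Function.update_of_ne (h i)]
  have hraz := razmyslov hk A hA hAS hz (fun x => vv k (fun i => x (Y i)))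
    (by
      intro x i M
      simp only [hupd x (A i) M (fun j => (hAY i j).symm)])
    (by
      intro x M
      simp only [hupd x none M (fun j => by simp [Y])])
    hcap
  set R : Finset (Option ((Mu k) ⊕ ((Mu k) ⊕ ι))) :=
    Finset.univ.image (fun i : (Mu k) ⊕ ι => (some (Sum.inr i) : Option ((Mu k) ⊕ ((Mu k) ⊕ ι)))) with hR
  have habs := absorb_all hk A hA hAS (fun x => Matrix.trace (vv k (fun i => x (Y i))))
    (by
      intro x i M
      simp only [hupd x (A i) M (fun j => (hAY i j).symm)])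
    (by
      intro x v M hv
      simp only [hupd x v M (fun j h => hv (h ▸ hYS j))])
    hraz R.card R (Equiv.optionCongr (Equiv.sumCongr (1 : Equiv.Perm (Mu k)) π)) rfl
    (by
      rw [Finset.disjoint_left]
      intro v hv
      rw [hR, Finset.mem_image] at hv
      obtain ⟨i, _, rfl⟩ := hv
      simp [hS, A, Y])
    (by
      intro v hv
      rw [hR, Finset.mem_image] at hv ⊢
      obtain ⟨i, _, rfl⟩ := hv
      exact ⟨π i, Finset.mem_univ _, by simp⟩)
  have hren := rename k (S := R ∪ S) (S' := (Finset.univ : Finset ((Mu k) ⊕ ι))) (rho (Mu k) ι)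
    (by
      intro v _ v' _ h1 h2
      rcases v with _ | (t | (t | s)) <;> rcases v' with _ | (t' | (t' | s')) <;>
        simp_all [rho])
    (by
      intro v'
      constructor
      · intro _
        rcases v' with (t | t) | s
        · exact ⟨some (Sum.inl (Sum.inl t)), Finset.mem_union_right _ (hAS t), rfl⟩
        · exact ⟨some (Sum.inl (Sum.inr t)), Finset.mem_union_right _ (hYS t), rfl⟩
        · exact ⟨some (Sum.inr (Sum.inr s)), Finset.mem_union_left _
            (Finset.mem_image.mpr ⟨Sum.inr s, Finset.mem_univ _, rfl⟩), rfl⟩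
      · intro _
        exact Finset.mem_univ _)
    habs
  have hC : ((k : ℚ) * (k : ℚ) ^ Fintype.card (Mu k)) ≠ 0 := by
    have : (k : ℚ) ≠ 0 := by
      have : k ≠ 0 := by omega
      exact_mod_cast this
    positivity
  have hfin : (fun x : (Mu k) ⊕ ι → Matrix (Fin k) (Fin k) ℚ =>
      (trR π Finset.univ (Sum.elim (fun _ => (1 : Matrix (Fin k) (Fin k) ℚ))
        (fun i => x (Sum.inr i))) * pt k (fun i => x (Sum.inl i))) •
          (1 : Matrix (Fin k) (Fin k) ℚ)) =
      ((k : ℚ) * (k : ℚ) ^ Fintype.card (Mu k))⁻¹ • (fun x : (Mu k) ⊕ ι → Matrix (Fin k) (Fin k) ℚ =>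
        (trR (Equiv.optionCongr (Equiv.sumCongr (1 : Equiv.Perm (Mu k)) π)) R
          (fun v => (rho (Mu k) ι v).elim 1 x) *
          (detA A (fun v => (rho (Mu k) ι v).elim 1 x) *
            Matrix.trace (vv k (fun i => (rho (Mu k) ι (Y i)).elim 1 x)))) •
          (1 : Matrix (Fin k) (Fin k) ℚ)) := by
    funext x
    rw [Pi.smul_apply, smul_smul, hR, trR_embed]
    congr 1
    have e1 : (fun i : (Mu k) ⊕ ι => (rho (Mu k) ι (some (Sum.inr i))).elim 1 x) =
        Sum.elim (fun _ => (1 : Matrix (Fin k) (Fin k) ℚ)) (fun i => x (Sum.inr i)) := by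
      funext i
      cases i <;> rfl
    have e2 : detA A (fun v => (rho (Mu k) ι v).elim 1 x) *
            Matrix.trace (vv k (fun i => (rho (Mu k) ι (Y i)).elim 1 x)) =
            pt k (fun i => x (Sum.inl i)) := rfl
    rw [e1, e2]
    field_simp
  rw [hfin]
  exact Submodule.smul_mem _ _ hren

end F1b

end Pool.Agent.H.MP_aed2d0_al
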