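import Mathlib
import Pool.Agent.H.MP_aed2d0_al.Main1

set_option autoImplicit false
set_option linter.unusedSectionVars false

namespace Pool.Agent.H.MP_aed2d0_al

open Finset

variable (k : ℕ)
variable {ι : Type} [Fintype ι] [DecidableEq ι]

theorem F1w (hk : 1 ≤ k) (q : (Mu k ⊕ ι → Fin k × Fin k) → ℚ) (hq : q ∈ Aw k (Mu k ⊕ ι)) :
    (fun w : Mu k ⊕ ι → Fin k × Fin k => p0 k (fun i => w (Sum.inl i)) *
      ∑ v : Mu k → Fin k × Fin k, p0 k v * q (Sum.elim v (fun i => w (Sum.inr i)))) ∈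
      Polw k (Mu k ⊕ ι) := by
  have hk0 : (k : ℚ) ≠ 0 := by
    have : k ≠ 0 := by omega
    exact_mod_cast this
  let T : ((Mu k ⊕ ι → Fin k × Fin k) → ℚ) →ₗ[ℚ] ((Mu k ⊕ ι → Fin k × Fin k) → ℚ) :=
    { toFun := fun q w => p0 k (fun i => w (Sum.inl i)) *
        ∑ v : Mu k → Fin k × Fin k, p0 k v * q (Sum.elim v (fun i => w (Sum.inr i)))
      map_add' := by
        intro q r
        funext w
        simp only [Pi.add_apply, mul_add, Finset.sum_add_distrib]
      map_smul' := by
        intro c q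
        funext w
        simp only [Pi.smul_apply, smul_eq_mul, RingHom.id_apply, Finset.mul_sum]
        apply Finset.sum_congr rfl
        intro v _
        ring }
  have hT : Aw k (Mu k ⊕ ι) ≤ (Polw k (Mu k ⊕ ι)).comap T := by
    unfold Aw
    rw [Submodule.span_le]
    rintro _ ⟨σ, rfl⟩
    have hp0 : p0 k ∈ Aw k (Mu k) := Polw_le_Aw k (p0_mem k)
    unfold Aw at hp0
    rw [Submodule.mem_span_range_iff_exists_fun] at hp0
    obtain ⟨c, hc⟩ := hp0
    have h1 : T (Pw k σ) = ∑ τ : Equiv.Perm (Mu k), (c τ * (k : ℚ)⁻¹) • trw k (Mu k ⊕ ι)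
        (fun x : Mu k ⊕ ι → Matrix (Fin k) (Fin k) ℚ =>
          (trR (σ * Equiv.sumCongr τ⁻¹ (1 : Equiv.Perm ι)) Finset.univ
            (Sum.elim (fun _ => (1 : Matrix (Fin k) (Fin k) ℚ))
            (fun i => x (Sum.inr i))) * pt k (fun i => x (Sum.inl i))) •
              (1 : Matrix (Fin k) (Fin k) ℚ)) := by
      funext w
      rw [Finset.sum_apply]
      change p0 k (fun i => w (Sum.inl i)) *
        ∑ v : Mu k → Fin k × Fin k, p0 k v * Pw k σ (Sum.elim v (fun i => w (Sum.inr i))) = _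
      have h2 : ∑ v : Mu k → Fin k × Fin k, p0 k v *
          Pw k σ (Sum.elim v (fun i => w (Sum.inr i))) =
          ∑ τ : Equiv.Perm (Mu k), c τ * trR (σ * Equiv.sumCongr τ⁻¹ (1 : Equiv.Perm ι)) Finset.univ
            (Sum.elim (fun _ => (1 : Matrix (Fin k) (Fin k) ℚ))
              (ew (fun i => w (Sum.inr i)))) := by
        have h3 : ∀ v, p0 k v = ∑ τ : Equiv.Perm (Mu k), c τ * Pw k τ v := by
          intro v
          conv_lhs => rw [← hc]
          rw [Finset.sum_apply]
          rfl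
        simp only [h3, Finset.sum_mul]
        rw [Finset.sum_comm]
        apply Finset.sum_congr rfl
        intro τ _
        rw [← contraction, Finset.mul_sum]
        apply Finset.sum_congr rfl
        intro v _
        ring
      rw [h2, Finset.mul_sum]
      apply Finset.sum_congr rfl
      intro τ _
      rw [Pi.smul_apply, trw_apply, Matrix.trace_smul, Matrix.trace_one, Fintype.card_fin,
        smul_eq_mul, smul_eq_mul]
      have e1 : (fun i => ew w (Sum.inr i)) = ew (fun i => w (Sum.inr i)) := rfl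
      have e2 : pt k (fun i => ew w (Sum.inl i)) = p0 k (fun i => w (Sum.inl i)) := rfl
      rw [e1, e2]
      field_simp
    change T (Pw k σ) ∈ Polw k (Mu k ⊕ ι)
    rw [h1]
    apply Submodule.sum_mem
    intro τ _
    apply Submodule.smul_mem
    exact Submodule.mem_map_of_mem (F1 k hk _)
  exact hT hq

theorem F2 (hk : 1 ≤ k) (q : (Mu k ⊕ ι → Fin k × Fin k) → ℚ) (hq : q ∈ Aw k (Mu k ⊕ ι))
    (hperp : ∀ p ∈ Polw k (Mu k ⊕ ι), ∑ w, q w * p w = 0) (w' : ι → Fin k × Fin k) :
    ∑ v : Mu k → Fin k × Fin k, p0 k v * q (Sum.elim v w') = 0 := by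
  have h1 := hperp _ (F1w k hk q hq)
  rw [← (Equiv.sumArrowEquivProdArrow (Mu k) ι (Fin k × Fin k)).symm.sum_comp,
    Fintype.sum_prod_type, Finset.sum_comm] at h1
  have h2 : ∀ (a : Mu k → Fin k × Fin k) (b : ι → Fin k × Fin k),
      (Equiv.sumArrowEquivProdArrow (Mu k) ι (Fin k × Fin k)).symm (a, b) = Sum.elim a b :=
    fun a b => rfl
  simp only [h2, Sum.elim_inl, Sum.elim_inr] at h1
  have h3 : ∀ b : ι → Fin k × Fin k, ∑ a : Mu k → Fin k × Fin k, q (Sum.elim a b) *
      (p0 k (fun i => a i) * ∑ v : Mu k → Fin k × Fin k, p0 k v * q (Sum.elim v (fun i => b i))) =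
      (∑ v : Mu k → Fin k × Fin k, p0 k v * q (Sum.elim v b)) ^ 2 := by
    intro b
    rw [pow_two, Finset.sum_mul]
    apply Finset.sum_congr rfl
    intro a _
    ring
  simp only [h3] at h1
  have h4 := (Finset.sum_eq_zero_iff_of_nonneg (fun b _ => sq_nonneg _)).mp h1 w'
    (Finset.mem_univ _)
  exact pow_eq_zero_iff (two_ne_zero) |>.mp h4

end Pool.Agent.H.MP_aed2d0_al
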