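import Mathlib
import Pool.Agent.H.MP_aed2d0_al.PartB2

set_option autoImplicit false
set_option linter.unusedSectionVars false

namespace Pool.Agent.H.MP_aed2d0_al

open Module Representation

section Growth

variable (k : ℕ) {ι : Type} [Fintype ι] [DecidableEq ι]

theorem logconvex_option :
    (finrank ℚ (Alg k (Option ι))) ^ 2 ≤
      finrank ℚ (Alg k ι) * finrank ℚ (Alg k (Option (Option ι))) := by
  calc (finrank ℚ (Alg k (Option ι))) ^ 2
      ≤ (finrank ℚ (IntertwiningMap (leftRep k (MonoidHom.id (Equiv.Perm ι)))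
        (leftRep k (optHom ι)))) ^ 2 := Nat.pow_le_pow_left (finrank_hom_ge k) 2
    _ ≤ _ := cs _ _
    _ ≤ _ := Nat.mul_le_mul (finrank_end_reg_le k) (finrank_end_le k)

/-- Relabelling of the positions. -/
theorem finrank_Alg_congr {κ : Type} [Fintype κ] [DecidableEq κ] (e : ι ≃ κ) :
    finrank ℚ (Alg k ι) = finrank ℚ (Alg k κ) := by
  let E : (ι → Fin k) ≃ (κ → Fin k) := Equiv.arrowCongr e (Equiv.refl _)
  let L : Matrix (ι → Fin k) (ι → Fin k) ℚ ≃ₗ[ℚ] Matrix (κ → Fin k) (κ → Fin k) ℚ :=
    Matrix.reindexLinearEquiv ℚ ℚ E E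
  have h : Submodule.map (L : Matrix (ι → Fin k) (ι → Fin k) ℚ →ₗ[ℚ]
      Matrix (κ → Fin k) (κ → Fin k) ℚ) (Alg k ι) = Alg k κ := by
    unfold Alg
    rw [Submodule.map_span, ← Set.range_comp]
    congr 1
    ext M
    constructor
    · rintro ⟨σ, rfl⟩
      refine ⟨(e.symm.trans σ).trans e, ?_⟩
      ext a b
      change Pm k _ a b = Pm k σ (E.symm a) (E.symm b)
      rw [Pm_apply, Pm_apply]
      have : (b = a ∘ ⇑((e.symm.trans σ).trans e)) ↔ (E.symm b = E.symm a ∘ ⇑σ) := by
        rw [← Equiv.apply_eq_iff_eq (E.symm)]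
        constructor
        · intro h; rw [h]; ext x; simp [E]
        · intro h; rw [h]; ext x; simp [E]
      simp only [this]
    · rintro ⟨σ, rfl⟩
      refine ⟨(e.trans σ).trans e.symm, ?_⟩
      ext a b
      change Pm k ((e.trans σ).trans e.symm) (E.symm a) (E.symm b) = Pm k σ a b
      rw [Pm_apply, Pm_apply]
      have : (E.symm b = E.symm a ∘ ⇑((e.trans σ).trans e.symm)) ↔ (b = a ∘ ⇑σ) := by
        rw [← Equiv.apply_eq_iff_eq (E.symm) (x := b)]
        constructor
        · intro h; rw [h]; ext x; simp [E]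
        · intro h; rw [h]; ext x; simp [E]
      simp only [this]
  rw [← h]
  exact (LinearEquiv.finrank_eq (L.submoduleMap (Alg k ι)))

/-- The dimension of the algebra of permutation operators on `n` factors. -/
noncomputable def tdim (n : ℕ) : ℕ := finrank ℚ (Alg k (Fin n))

theorem tdim_option {n : ℕ} (h : Fintype.card ι = n) : finrank ℚ (Alg k ι) = tdim k n :=
  finrank_Alg_congr k (Fintype.equivFinOfCardEq h)

theorem tdim_logconvex (n : ℕ) : (tdim k (n + 1)) ^ 2 ≤ tdim k n * tdim k (n + 2) := by
  have h := logconvex_option k (ι := Fin n)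
  rwa [tdim_option k (n := n + 1) (by simp), tdim_option k (ι := Option (Option (Fin n)))
    (n := n + 2) (by simp)] at h

theorem tdim_pos (hk : 1 ≤ k) (n : ℕ) : 0 < tdim k n := by
  unfold tdim
  have : Nontrivial (Alg k (Fin n)) := by
    refine ⟨⟨pmOf k 1, 0, ?_⟩⟩
    intro h
    have h1 := congrArg Subtype.val h
    have h2 : (Pm k (1 : Equiv.Perm (Fin n))) (fun _ => ⟨0, hk⟩) (fun _ => ⟨0, hk⟩) = 0 := by
      have h3 : (Pm k (1 : Equiv.Perm (Fin n))) = 0 := h1
      rw [h3]; rfl
    rw [Pm_apply, if_pos (by rfl)] at h2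
    exact one_ne_zero h2
  exact finrank_pos

/-- The natural representation on words. -/
def wordRep : Representation ℚ (Equiv.Perm ι) ((ι → Fin k) → ℚ) where
  toFun g := Matrix.toLin' (Pm k g)
  map_one' := by rw [Pm_one]; exact Matrix.toLin'_one
  map_mul' g h := by rw [← Pm_mul_Pm, Matrix.toLin'_mul]; rfl

theorem wordRep_apply (g : Equiv.Perm ι) (f : (ι → Fin k) → ℚ) (a : ι → Fin k) :
    wordRep k g f a = f (a ∘ g) := by
  change Matrix.toLin' (Pm k g) f a = _
  rw [Matrix.toLin'_apply, Matrix.mulVec, dotProduct]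
  simp [Pm_apply]

theorem finrank_hom_word_ge :
    k ^ (Fintype.card ι) ≤
    finrank ℚ (IntertwiningMap (leftRep k (MonoidHom.id (Equiv.Perm ι))) (wordRep k)) := by
  let G : ((ι → Fin k) → ℚ) → (Alg k ι →ₗ[ℚ] ((ι → Fin k) → ℚ)) := fun m =>
    { toFun := fun a => a.1.mulVec m
      map_add' := fun a b => by
        change (a.1 + b.1).mulVec m = _
        rw [Matrix.add_mulVec]
      map_smul' := fun c a => by
        change (c • a.1).mulVec m = c • _
        rw [Matrix.smul_mulVec] }
  let F : ((ι → Fin k) → ℚ) →ₗ[ℚ]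
      IntertwiningMap (leftRep k (MonoidHom.id (Equiv.Perm ι))) (wordRep (ι := ι) k) :=
    { toFun := fun m => LinearMap.intertwiningMap_of_isIntertwiningMap _ _ (G m) (by
        intro g v
        change ((leftRep k (MonoidHom.id (Equiv.Perm ι))) g v).1.mulVec m =
          Matrix.toLin' (Pm k g) (v.1.mulVec m)
        rw [leftRep_apply, MonoidHom.id_apply, Matrix.toLin'_apply, Matrix.mulVec_mulVec])
      map_add' := fun m n => by
        apply IntertwiningMap.ext
        apply LinearMap.ext
        intro a
        change a.1.mulVec (m + n) = a.1.mulVec m + a.1.mulVec n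
        rw [Matrix.mulVec_add]
      map_smul' := fun c m => by
        apply IntertwiningMap.ext
        apply LinearMap.ext
        intro a
        change a.1.mulVec (c • m) = c • a.1.mulVec m
        rw [Matrix.mulVec_smul] }
  have hF : Function.Injective F := by
    rw [injective_iff_map_eq_zero]
    intro m hm
    have h1 : F m (pmOf k 1) = 0 := by rw [hm]; rfl
    have h2 : F m (pmOf k 1) = m := by
      change (Pm k 1).mulVec m = m
      rw [Pm_one, Matrix.one_mulVec]
    rw [← h2, h1]
  have := LinearMap.finrank_le_finrank_of_injective hF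
  simpa using this

theorem finrank_end_word_le :
    finrank ℚ (IntertwiningMap (wordRep (ι := ι) k) (wordRep k)) ≤
      (Fintype.card ι + 1) ^ (k * k) := by
  classical
  set n := Fintype.card ι
  let X : IntertwiningMap (wordRep (ι := ι) k) (wordRep k) → (ι → Fin k × Fin k) → ℚ :=
    fun φ v => φ (Pi.single (fun i => (v i).2) 1) (fun i => (v i).1)
  have hX : ∀ φ (g : Equiv.Perm ι) v, X φ (v ∘ g) = X φ v := by
    intro φ g v
    have h1 := congrFun (φ.isIntertwining (g := g)
      (v := Pi.single (fun i => (v (g i)).2) 1)) (fun i => (v i).1)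
    rw [wordRep_apply] at h1
    have h2 : wordRep k g (Pi.single (fun i => (v (g i)).2) 1) =
        Pi.single (fun i => (v i).2) (1 : ℚ) := by
      funext a
      rw [wordRep_apply, Pi.single_apply, Pi.single_apply]
      have : (a ∘ ⇑g = fun i => (v (g i)).2) ↔ (a = fun i => (v i).2) := by
        constructor
        · intro h
          funext i
          have := congrFun h (g.symm i)
          simpa using this
        · rintro rfl; rfl
      simp only [this]
    rw [h2] at h1
    exact h1.symm
  let F : IntertwiningMap (wordRep (ι := ι) k) (wordRep k) →ₗ[ℚ]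
      ((Fin k × Fin k → Fin (n + 1)) → ℚ) :=
    { toFun := fun φ c => if h : ∃ v : ι → Fin k × Fin k, ∀ b, cont v b = c b then
        X φ h.choose else 0
      map_add' := by
        intro φ ψ
        funext c
        by_cases h : ∃ v : ι → Fin k × Fin k, ∀ b, cont v b = c b
        · simp only [h, dif_pos, Pi.add_apply]
          rfl
        · simp only [dif_neg h, Pi.add_apply, add_zero]
      map_smul' := by
        intro r φ
        funext c
        by_cases h : ∃ v : ι → Fin k × Fin k, ∀ b, cont v b = c b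
        · simp only [h, dif_pos, Pi.smul_apply]
          rfl
        · simp only [dif_neg h, Pi.smul_apply, smul_zero] }
  have hF : Function.Injective F := by
    rw [injective_iff_map_eq_zero]
    intro φ hφ
    have h1 : ∀ v, X φ v = 0 := by
      intro v
      have hb : ∀ b, cont v b < n + 1 := by
        intro b
        rw [cont_apply]
        exact Nat.lt_succ_of_le (Fintype.card_subtype_le _)
      have h2 := congrFun hφ (fun b => ⟨cont v b, hb b⟩)
      have h3 : ∃ v' : ι → Fin k × Fin k, ∀ b, cont v' b =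
        ((fun b => ⟨cont v b, hb b⟩ : Fin k × Fin k → Fin (n + 1)) b : ℕ) := ⟨v, fun b => rfl⟩
      have h4 : X φ h3.choose = 0 := by
        have : F φ (fun b => ⟨cont v b, hb b⟩) = X φ h3.choose := by
          change (if h : ∃ v' : ι → Fin k × Fin k, ∀ b, cont v' b =
            ((fun b => ⟨cont v b, hb b⟩ : Fin k × Fin k → Fin (n + 1)) b : ℕ) then
            X φ h.choose else 0) = _
          rw [dif_pos h3]
        rw [← this]
        exact h2
      have h5 : cont h3.choose = cont v := by
        ext b
        exact h3.choose_spec b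
      obtain ⟨g, hg⟩ := exists_perm_of_cont_eq _ _ h5
      rw [← hg, hX, h4]
    apply IntertwiningMap.ext
    apply LinearMap.pi_ext'
    intro b
    apply LinearMap.ext_ring
    funext a
    exact h1 (fun i => (a i, b i))
  have := LinearMap.finrank_le_finrank_of_injective hF
  simpa using this

theorem growth_general : (k ^ (Fintype.card ι)) ^ 2 ≤
    finrank ℚ (Alg k ι) * (Fintype.card ι + 1) ^ (k * k) := by
  calc (k ^ (Fintype.card ι)) ^ 2
      ≤ (finrank ℚ (IntertwiningMap (leftRep k (MonoidHom.id (Equiv.Perm ι))) (wordRep k))) ^ 2 :=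
        Nat.pow_le_pow_left (finrank_hom_word_ge k) 2
    _ ≤ _ := cs _ _
    _ ≤ _ := Nat.mul_le_mul (finrank_end_reg_le k) (finrank_end_word_le k)

theorem tdim_growth (n : ℕ) : (k ^ 2) ^ n ≤ tdim k n * (n + 1) ^ (k * k) := by
  have := growth_general k (ι := Fin n)
  rw [Fintype.card_fin] at this
  calc (k ^ 2) ^ n = (k ^ n) ^ 2 := by rw [← pow_mul, ← pow_mul, mul_comm]
    _ ≤ _ := this

theorem tdim_le (n : ℕ) : tdim k n ≤ (k ^ 2) ^ n := by
  have h := Submodule.finrank_le (Alg k (Fin n))
  rw [Module.finrank_matrix] at h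
  simp only [finrank_self, mul_one, Fintype.card_pi, Fintype.card_fin, Finset.prod_const,
    Finset.card_univ] at h
  calc tdim k n ≤ k ^ n * k ^ n := h
    _ = (k ^ 2) ^ n := by rw [← pow_mul, ← pow_add]; ring_nf

end Growth

end Pool.Agent.H.MP_aed2d0_al
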