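import Mathlib
import Pool.Agent.H.MP_aed2d0_al.PartB3
import Pool.Agent.H.MP_aed2d0_al.Main2
import Pool.Agent.H.MP_aed2d0_al.Count

set_option autoImplicit false
set_option linter.unusedSectionVars false

namespace Pool.Agent.H.MP_aed2d0_al

open Finset Module

variable (k : ℕ)

section transport

variable {ι κ : Type} [Fintype ι] [DecidableEq ι] [Fintype κ] [DecidableEq κ]

theorem Aw_transport (e : κ ≃ ι) {q : (ι → Fin k × Fin k) → ℚ} (hq : q ∈ Aw k ι) :
    (fun w : κ → Fin k × Fin k => q (w ∘ e.symm)) ∈ Aw k κ := by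
  let T : ((ι → Fin k × Fin k) → ℚ) →ₗ[ℚ] ((κ → Fin k × Fin k) → ℚ) :=
    LinearMap.funLeft ℚ ℚ (fun w : κ → Fin k × Fin k => w ∘ e.symm)
  have h : Aw k ι ≤ (Aw k κ).comap T := by
    unfold Aw
    rw [Submodule.span_le]
    rintro _ ⟨σ, rfl⟩
    change T (Pw k σ) ∈ Aw k κ
    have : T (Pw k σ) = Pw k ((e.trans σ).trans e.symm) := by
      funext w
      change Pw k σ (w ∘ e.symm) = _
      unfold Pw
      have : (∀ i, ((w ∘ e.symm) i).2 = ((w ∘ e.symm) (σ i)).1) ↔
          (∀ i, (w i).2 = (w (((e.trans σ).trans e.symm) i)).1) := by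
        constructor
        · intro h i
          simpa using h (e i)
        · intro h i
          simpa using h (e.symm i)
      simp only [this]
    rw [this]
    exact Submodule.subset_span ⟨_, rfl⟩
  exact h hq

theorem Polw_transport (e : κ ≃ ι) {p : (κ → Fin k × Fin k) → ℚ} (hp : p ∈ Polw k κ) :
    (fun w : ι → Fin k × Fin k => p (w ∘ e)) ∈ Polw k ι := by
  obtain ⟨f, hf, rfl⟩ := hp
  have h1 := rename k (S := (Finset.univ : Finset κ)) (S' := (Finset.univ : Finset ι))
    (fun i => some (e i)) (by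
      intro v _ v' _ h _
      exact e.injective (Option.some.inj h)) (by
      intro v'
      constructor
      · intro _
        exact ⟨e.symm v', Finset.mem_univ _, by simp⟩
      · intro _; exact Finset.mem_univ _) hf
  exact ⟨_, h1, rfl⟩

end transport

theorem mem_Kspace (hk : 1 ≤ k) (n : ℕ) (q : (Fin n → Fin k × Fin k) → ℚ)
    (hq : q ∈ Aw k (Fin n)) (hperp : ∀ p ∈ Polw k (Fin n), ∑ w, q w * p w = 0) :
    q ∈ Kspace n (k * k + k * k) (fun v => p0 k (fun i => v (finSumFinEquiv i))) := by
  classical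
  intro j hj w
  let J : Mu k → Fin n := fun i => j (finSumFinEquiv i)
  have hJ : Function.Injective J := fun a b h => finSumFinEquiv.injective (hj h)
  let e : Mu k ⊕ ((Set.range J)ᶜ : Set (Fin n)) ≃ Fin n :=
    (Equiv.sumCongr (Equiv.ofInjective J hJ) (Equiv.refl _)).trans (Equiv.Set.sumCompl (Set.range J))
  have hel : ∀ t, e (Sum.inl t) = J t := fun t => by simp [e]
  have her : ∀ s, e (Sum.inr s) = s.1 := fun s => by simp [e]
  have h1 := F2 k hk (fun w : Mu k ⊕ ((Set.range J)ᶜ : Set (Fin n)) → Fin k × Fin k =>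
    q (w ∘ e.symm)) (Aw_transport k e hq) (by
      intro p hp
      have h2 := hperp _ (Polw_transport k e hp)
      rw [← h2]
      apply Fintype.sum_equiv (Equiv.arrowCongr e (Equiv.refl _))
      intro w
      have e1 : (Equiv.arrowCongr e (Equiv.refl (Fin k × Fin k))) w = w ∘ e.symm := rfl
      rw [e1]
      have e2 : (w ∘ ⇑e.symm) ∘ ⇑e = w := by
        funext x; simp
      rw [e2]) (fun s => w s.1)
  rw [← h1]
  apply Fintype.sum_equiv (Equiv.arrowCongr finSumFinEquiv.symm (Equiv.refl _))
  intro v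
  have e1 : (Equiv.arrowCongr finSumFinEquiv.symm (Equiv.refl (Fin k × Fin k))) v =
    (fun i => v (finSumFinEquiv i)) := rfl
  rw [e1]
  congr 2
  funext i
  obtain ⟨x, rfl⟩ := e.surjective i
  rw [Function.comp_apply, Equiv.symm_apply_apply]
  rcases x with t | s
  · rw [hel, Sum.elim_inl]
    exact hj.extend_apply _ _ _
  · rw [her, Sum.elim_inr, Function.extend_apply']
    rintro ⟨a, ha⟩
    apply s.2
    exact ⟨finSumFinEquiv.symm a, by simp only [J]; rw [Equiv.apply_symm_apply, ha]⟩

/-- The standard form on functions on words. -/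
def wForm {J : Type} [Fintype J] : (J → ℚ) →ₗ[ℚ] (J → ℚ) →ₗ[ℚ] ℚ :=
  LinearMap.mk₂ ℚ (fun x y => ∑ w, x w * y w)
    (by
      intro x y z
      simp only [Pi.add_apply, add_mul, Finset.sum_add_distrib])
    (by
      intro c x y
      simp only [Pi.smul_apply, smul_eq_mul, Finset.mul_sum, mul_assoc])
    (by
      intro x y z
      simp only [Pi.add_apply, mul_add, Finset.sum_add_distrib])
    (by
      intro c x y
      simp only [Pi.smul_apply, smul_eq_mul, Finset.mul_sum]
      apply Finset.sum_congr rfl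
      intro a _
      ring)

theorem dim_gap (hk : 2 ≤ k) (n : ℕ) :
    finrank ℚ (Aw k (Fin n)) ≤ finrank ℚ (Polw k (Fin n)) +
      (n + 1) ^ (k * k + k * k) * (k * k - 1) ^ n := by
  let D : Aw k (Fin n) →ₗ[ℚ] Module.Dual ℚ (Polw k (Fin n)) :=
    (wForm (J := Fin n → Fin k × Fin k)).compl₁₂ (Aw k (Fin n)).subtype (Polw k (Fin n)).subtype
  have hD : ∀ q p, D q p = ∑ w, q.1 w * p.1 w := fun q p => rfl
  let Ψ : LinearMap.ker D →ₗ[ℚ]
      Kspace n (k * k + k * k) (fun v => p0 k (fun i => v (finSumFinEquiv i))) :=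
    { toFun := fun q => ⟨q.1.1, mem_Kspace k (by omega) n q.1.1 q.1.2 (by
        intro p hp
        have h1 : D q.1 = 0 := q.2
        have h2 := hD q.1 ⟨p, hp⟩
        rw [h1] at h2
        exact h2.symm)⟩
      map_add' := fun q r => rfl
      map_smul' := fun c q => rfl }
  have hΨ : Function.Injective Ψ := by
    intro q r h
    apply Subtype.ext
    apply Subtype.ext
    have h' := congrArg (fun z : Kspace n (k * k + k * k)
      (fun v => p0 k (fun i => v (finSumFinEquiv i))) => z.1) h
    exact h'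
  have h1 := LinearMap.finrank_range_add_finrank_ker D
  have h2 : finrank ℚ (LinearMap.range D) ≤ finrank ℚ (Polw k (Fin n)) := by
    refine (Submodule.finrank_le _).trans ?_
    rw [Subspace.dual_finrank_eq]
  have h3 := LinearMap.finrank_le_finrank_of_injective hΨ
  have h4 := finrank_Kspace_le (β := Fin k × Fin k) (by
    rw [Fintype.card_prod, Fintype.card_fin]; nlinarith) n (k * k + k * k)
    (fun v => p0 k (fun i => v (finSumFinEquiv i))) (by
      intro h
      apply p0_ne k (by omega)
      funext v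
      have := congrFun h (fun i => v (finSumFinEquiv.symm i))
      simpa using this)
  rw [Fintype.card_prod, Fintype.card_fin] at h4
  rw [← h1]
  exact Nat.add_le_add h2 (h3.trans h4)

section dims

variable {ι : Type} [Fintype ι] [DecidableEq ι]

theorem finrank_Aw_eq : finrank ℚ (Aw k ι) = finrank ℚ (Alg k ι) := by
  let L : Matrix (ι → Fin k) (ι → Fin k) ℚ ≃ₗ[ℚ] ((ι → Fin k × Fin k) → ℚ) :=
    { toFun := fun M w => M (fun i => (w i).1) (fun i => (w i).2)
      invFun := fun q => Matrix.of fun a b => q (fun i => (a i, b i))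
      left_inv := fun M => rfl
      right_inv := fun q => rfl
      map_add' := fun M N => rfl
      map_smul' := fun c M => rfl }
  have h : Submodule.map (L : Matrix (ι → Fin k) (ι → Fin k) ℚ →ₗ[ℚ]
      ((ι → Fin k × Fin k) → ℚ)) (Alg k ι) = Aw k ι := by
    unfold Alg Aw
    rw [Submodule.map_span, ← Set.range_comp]
    congr 2
    funext σ w
    change Pm k σ (fun i => (w i).1) (fun i => (w i).2) = Pw k σ w
    rw [Pm_apply, Pw]
    have : ((fun i => (w i).2) = (fun i => (w i).1) ∘ σ) ↔ (∀ i, (w i).2 = (w (σ i)).1) := by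
      constructor
      · intro h i; exact congrFun h i
      · intro h; funext i; exact h i
    simp only [this]
  rw [← h]
  exact (LinearEquiv.finrank_eq (L.submoduleMap (Alg k ι))).symm

theorem finrank_Aw {n : ℕ} (h : Fintype.card ι = n) : finrank ℚ (Aw k ι) = tdim k n := by
  rw [finrank_Aw_eq, tdim_option k h]

end dims

end Pool.Agent.H.MP_aed2d0_al
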