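import Mathlib

set_option autoImplicit false
set_option linter.unusedSectionVars false

namespace Pool.Agent.H.MP_aed2d0_al

open Finset Module

/-- Rank of an integral family does not grow when changing the field. -/
theorem finrank_int_le {I J : Type} [Finite I] [Finite J] (v : I → J → ℤ)
    (F₁ F₂ : Type) [Field F₁] [CharZero F₁] [Field F₂] [CharZero F₂] :
    finrank F₁ (Submodule.span F₁ (Set.range (fun i => (fun j => ((v i j : ℤ) : F₁))))) ≤
    finrank F₂ (Submodule.span F₂ (Set.range (fun i => (fun j => ((v i j : ℤ) : F₂))))) := by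
  classical
  obtain ⟨κ, a, ha, hsp, hli⟩ := exists_linearIndependent' F₁
    (fun i => (fun j => ((v i j : ℤ) : F₁)))
  have : Finite κ := Finite.of_injective a ha
  have := Fintype.ofFinite κ
  have h1 : LinearIndependent F₁ (fun c => (algebraMap ℤ F₁) ∘ (v (a c))) := hli
  rw [linearIndependent_algebraMap_comp_iff] at h1
  have h2 : LinearIndependent F₂ (fun c => (algebraMap ℤ F₂) ∘ (v (a c))) := by
    rw [linearIndependent_algebraMap_comp_iff]
    exact h1
  rw [← hsp, finrank_span_eq_card hli, ← finrank_span_eq_card h2]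
  apply Submodule.finrank_mono
  apply Submodule.span_mono
  rintro _ ⟨c, rfl⟩
  exact ⟨a c, rfl⟩

theorem finrank_int_eq {I J : Type} [Finite I] [Finite J] (v : I → J → ℤ)
    (F₁ F₂ : Type) [Field F₁] [CharZero F₁] [Field F₂] [CharZero F₂] :
    finrank F₁ (Submodule.span F₁ (Set.range (fun i => (fun j => ((v i j : ℤ) : F₁))))) =
    finrank F₂ (Submodule.span F₂ (Set.range (fun i => (fun j => ((v i j : ℤ) : F₂))))) :=
  le_antisymm (finrank_int_le v F₁ F₂) (finrank_int_le v F₂ F₁)

/-- finrank of a span is unchanged by an injective linear map -/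
theorem finrank_span_comp {K V W I : Type} [Field K] [AddCommGroup V] [Module K V]
    [AddCommGroup W] [Module K W] (f : V →ₗ[K] W) (hf : Function.Injective f) (v : I → V) :
    finrank K (Submodule.span K (Set.range (fun i => f (v i)))) =
      finrank K (Submodule.span K (Set.range v)) := by
  have h : Submodule.span K (Set.range (fun i => f (v i))) =
      (Submodule.span K (Set.range v)).map f := by
    rw [Submodule.map_span, ← Set.range_comp]
    rfl
  rw [h]
  exact (LinearEquiv.finrank_eq (Submodule.equivMapOfInjective f hf _)).symm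

variable {k n : ℕ} {F : Type} [Field F]

/-- words of matrix units over `F` -/
def ewF (F : Type) [Field F] (w : Fin n → Fin k × Fin k) (i : Fin n) : Matrix (Fin k) (Fin k) F :=
  Matrix.single (w i).1 (w i).2 1

/-- Functions on all matrices versus functions on matrix units. -/
theorem finrank_words {V : Type} [AddCommGroup V] [Module F V]
    (θ : Matrix (Fin k) (Fin k) F →ₗ[F] V) :
    finrank F (Submodule.span F (Set.range (fun σ : Equiv.Perm (Fin n) =>
      fun x : Fin n → Matrix (Fin k) (Fin k) F => θ (List.ofFn (fun i => x (σ i))).prod))) =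
    finrank F (Submodule.span F (Set.range (fun σ : Equiv.Perm (Fin n) =>
      fun w : Fin n → Fin k × Fin k => θ (List.ofFn (fun i => ewF F w (σ i))).prod))) := by
  let M : Equiv.Perm (Fin n) → MultilinearMap F (fun _ : Fin n => Matrix (Fin k) (Fin k) F) V :=
    fun σ => θ.compMultilinearMap
      ((MultilinearMap.mkPiAlgebraFin F n (Matrix (Fin k) (Fin k) F)).domDomCongr σ)
  have hM : ∀ σ x, M σ x = θ (List.ofFn (fun i => x (σ i))).prod := by
    intro σ x
    simp only [M, LinearMap.compMultilinearMap_apply, MultilinearMap.domDomCongr_apply,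
      MultilinearMap.mkPiAlgebraFin_apply]
  let f1 : MultilinearMap F (fun _ : Fin n => Matrix (Fin k) (Fin k) F) V →ₗ[F]
      ((Fin n → Matrix (Fin k) (Fin k) F) → V) :=
    { toFun := fun m => m
      map_add' := fun _ _ => rfl
      map_smul' := fun _ _ => rfl }
  let f2 : MultilinearMap F (fun _ : Fin n => Matrix (Fin k) (Fin k) F) V →ₗ[F]
      ((Fin n → Fin k × Fin k) → V) :=
    { toFun := fun m w => m (ewF F w)
      map_add' := fun _ _ => rfl
      map_smul' := fun _ _ => rfl }
  have hf1 : Function.Injective f1 := by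
    intro a b h
    exact DFunLike.coe_injective h
  have hf2 : Function.Injective f2 := by
    intro a b h
    apply Module.Basis.ext_multilinear (fun _ : Fin n => Matrix.stdBasis F (Fin k) (Fin k))
    intro w
    have h3 := congrFun h w
    have e : (fun i => Matrix.stdBasis F (Fin k) (Fin k) (w i)) = ewF F w := by
      funext i
      exact Matrix.stdBasis_eq_single F (w i).1 (w i).2
    rw [e]
    exact h3
  have h1 := finrank_span_comp f1 hf1 M
  have h2 := finrank_span_comp f2 hf2 M
  have e1 : (fun σ => f1 (M σ)) = (fun σ : Equiv.Perm (Fin n) =>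
      fun x : Fin n → Matrix (Fin k) (Fin k) F => θ (List.ofFn (fun i => x (σ i))).prod) := by
    funext σ x
    exact hM σ x
  have e2 : (fun σ => f2 (M σ)) = (fun σ : Equiv.Perm (Fin n) =>
      fun w : Fin n → Fin k × Fin k => θ (List.ofFn (fun i => ewF F w (σ i))).prod) := by
    funext σ w
    exact hM σ _
  rw [e1] at h1
  rw [e2] at h2
  rw [h1, h2]

/-- the projection to trace zero matrices, scaled -/
def tz (k : ℕ) (F : Type) [Field F] : Matrix (Fin k) (Fin k) F →ₗ[F] Matrix (Fin k) (Fin k) F where
  toFun y := (k : F) • y - Matrix.trace y • (1 : Matrix (Fin k) (Fin k) F)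
  map_add' y z := by
    rw [Matrix.trace_add, add_smul, smul_add]; abel
  map_smul' c y := by
    rw [Matrix.trace_smul, RingHom.id_apply, smul_sub, smul_smul, smul_smul, smul_smul,
      smul_eq_mul, mul_comm (k : F) c]

theorem tz_apply (y : Matrix (Fin k) (Fin k) F) :
    tz k F y = (k : F) • y - Matrix.trace y • (1 : Matrix (Fin k) (Fin k) F) := rfl

theorem ker_tz [CharZero F] (hk : 1 ≤ k) : LinearMap.ker (tz k F) =
    Subalgebra.toSubmodule (Subalgebra.center F (Matrix (Fin k) (Fin k) F)) := by
  have hk' : (k : F) ≠ 0 := by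
    have : k ≠ 0 := by omega
    exact_mod_cast this
  ext y
  rw [LinearMap.mem_ker, tz_apply, Subalgebra.mem_toSubmodule, sub_eq_zero]
  constructor
  · intro h
    have h1 : y = algebraMap F _ ((k : F)⁻¹ * Matrix.trace y) := by
      rw [Algebra.algebraMap_eq_smul_one, mul_smul, ← h, smul_smul, inv_mul_cancel₀ hk', one_smul]
    rw [h1]
    exact Subalgebra.algebraMap_mem _ _
  · intro h
    have h1 : Subalgebra.center F (Matrix (Fin k) (Fin k) F) = ⊥ := by
      have : Nonempty (Fin k) := ⟨⟨0, hk⟩⟩
      exact Algebra.IsCentral.center_eq_bot F _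
    rw [h1, Algebra.mem_bot] at h
    obtain ⟨c, rfl⟩ := h
    rw [Algebra.algebraMap_eq_smul_one, Matrix.trace_smul, Matrix.trace_one, Fintype.card_fin,
      smul_smul, smul_eq_mul, mul_comm]

theorem finrank_center [CharZero F] (hk : 1 ≤ k) :
    finrank F (Submodule.span F (Set.range (fun σ : Equiv.Perm (Fin n) =>
      fun x : Fin n → Matrix (Fin k) (Fin k) F =>
        Submodule.mkQ (Subalgebra.toSubmodule (Subalgebra.center F (Matrix (Fin k) (Fin k) F)))
          (List.ofFn (fun i => x (σ i))).prod))) =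
    finrank F (Submodule.span F (Set.range (fun σ : Equiv.Perm (Fin n) =>
      fun w : Fin n → Fin k × Fin k => tz k F (List.ofFn (fun i => ewF F w (σ i))).prod))) := by
  rw [finrank_words]
  have hle : Subalgebra.toSubmodule (Subalgebra.center F (Matrix (Fin k) (Fin k) F)) ≤
      LinearMap.ker (tz k F) := by rw [ker_tz hk]
  let φ := Submodule.liftQ _ (tz k F) hle
  have hφ : Function.Injective φ := by
    rw [← LinearMap.ker_eq_bot]
    apply Submodule.ker_liftQ_eq_bot
    rw [ker_tz hk]
  let f : ((Fin n → Fin k × Fin k) →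
      (Matrix (Fin k) (Fin k) F ⧸ Subalgebra.toSubmodule
        (Subalgebra.center F (Matrix (Fin k) (Fin k) F)))) →ₗ[F]
      ((Fin n → Fin k × Fin k) → Matrix (Fin k) (Fin k) F) :=
    { toFun := fun g w => φ (g w)
      map_add' := by intro g h; funext w; exact map_add φ _ _
      map_smul' := by intro c h; funext w; exact map_smul φ _ _ }
  have hf : Function.Injective f := by
    intro g h hgh
    funext w
    exact hφ (congrFun hgh w)
  rw [← finrank_span_comp f hf]
  rfl

/-- matrix-valued functions as scalar functions -/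
def flat {k n : ℕ} {F : Type} [Field F] : ((Fin n → Fin k × Fin k) → Matrix (Fin k) (Fin k) F) →ₗ[F]
    ((Fin n → Fin k × Fin k) × Fin k × Fin k → F) where
  toFun g p := g p.1 p.2.1 p.2.2
  map_add' _ _ := rfl
  map_smul' _ _ := rfl

theorem flat_injective : Function.Injective (flat (k := k) (n := n) (F := F)) := by
  intro g h hgh
  funext w
  ext a b
  exact congrFun hgh (w, a, b)

/-- the integral monomials -/
def mZ (k n : ℕ) (σ : Equiv.Perm (Fin n)) (w : Fin n → Fin k × Fin k) : Matrix (Fin k) (Fin k) ℤ :=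
  (List.ofFn (fun i => (Matrix.single (w (σ i)).1 (w (σ i)).2 1 : Matrix (Fin k) (Fin k) ℤ))).prod

theorem mZ_map (σ : Equiv.Perm (Fin n)) (w : Fin n → Fin k × Fin k) :
    (List.ofFn (fun i => ewF F w (σ i))).prod = (mZ k n σ w).map (fun z : ℤ => (z : F)) := by
  have h := map_list_prod ((Int.castRingHom F).mapMatrix (m := Fin k))
    (List.ofFn (fun i => (Matrix.single (w (σ i)).1 (w (σ i)).2 1 : Matrix (Fin k) (Fin k) ℤ)))
  change (mZ k n σ w).map (fun z : ℤ => (z : F)) = _ at h
  rw [h, List.map_ofFn]
  congr 2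
  funext i
  ext a b
  change Matrix.single (w (σ i)).1 (w (σ i)).2 (1 : F) a b =
    ((Matrix.single (w (σ i)).1 (w (σ i)).2 (1 : ℤ) a b : ℤ) : F)
  rw [Matrix.single_apply, Matrix.single_apply]
  split_ifs <;> simp

theorem c_transfer [CharZero F] :
    finrank F (Submodule.span F (Set.range (fun σ : Equiv.Perm (Fin n) =>
      fun w : Fin n → Fin k × Fin k => (List.ofFn (fun i => ewF F w (σ i))).prod))) =
    finrank ℚ (Submodule.span ℚ (Set.range (fun σ : Equiv.Perm (Fin n) =>
      fun w : Fin n → Fin k × Fin k => (List.ofFn (fun i => ewF ℚ w (σ i))).prod))) := by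
  rw [← finrank_span_comp flat flat_injective, ← finrank_span_comp (K := ℚ) flat flat_injective]
  have h := finrank_int_eq (fun (σ : Equiv.Perm (Fin n))
    (p : (Fin n → Fin k × Fin k) × Fin k × Fin k) => mZ k n σ p.1 p.2.1 p.2.2) F ℚ
  have e : ∀ (K : Type) [Field K], (fun σ : Equiv.Perm (Fin n) =>
      flat (F := K) (fun w : Fin n → Fin k × Fin k => (List.ofFn (fun i => ewF K w (σ i))).prod)) =
      (fun i => fun j : (Fin n → Fin k × Fin k) × Fin k × Fin k =>
        ((mZ k n i j.1 j.2.1 j.2.2 : ℤ) : K)) := by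
    intro K _
    funext σ p
    change (List.ofFn (fun i => ewF K p.1 (σ i))).prod p.2.1 p.2.2 = _
    rw [mZ_map]
    rfl
  rw [e F, e ℚ]
  exact h

theorem z_transfer [CharZero F] :
    finrank F (Submodule.span F (Set.range (fun σ : Equiv.Perm (Fin n) =>
      fun w : Fin n → Fin k × Fin k => tz k F (List.ofFn (fun i => ewF F w (σ i))).prod))) =
    finrank ℚ (Submodule.span ℚ (Set.range (fun σ : Equiv.Perm (Fin n) =>
      fun w : Fin n → Fin k × Fin k => tz k ℚ (List.ofFn (fun i => ewF ℚ w (σ i))).prod))) := by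
  rw [← finrank_span_comp flat flat_injective, ← finrank_span_comp (K := ℚ) flat flat_injective]
  have h := finrank_int_eq (fun (σ : Equiv.Perm (Fin n))
    (p : (Fin n → Fin k × Fin k) × Fin k × Fin k) =>
      (k : ℤ) * mZ k n σ p.1 p.2.1 p.2.2 -
        Matrix.trace (mZ k n σ p.1) * (1 : Matrix (Fin k) (Fin k) ℤ) p.2.1 p.2.2) F ℚ
  have e : ∀ (K : Type) [Field K], (fun σ : Equiv.Perm (Fin n) =>
      flat (F := K) (fun w : Fin n → Fin k × Fin k =>
        tz k K (List.ofFn (fun i => ewF K w (σ i))).prod)) =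
      (fun i => fun j : (Fin n → Fin k × Fin k) × Fin k × Fin k =>
        (((k : ℤ) * mZ k n i j.1 j.2.1 j.2.2 -
        Matrix.trace (mZ k n i j.1) * (1 : Matrix (Fin k) (Fin k) ℤ) j.2.1 j.2.2 : ℤ) : K)) := by
    intro K _
    funext σ p
    change (tz k K (List.ofFn (fun i => ewF K p.1 (σ i))).prod) p.2.1 p.2.2 = _
    rw [mZ_map, tz_apply, Matrix.sub_apply, Matrix.smul_apply, Matrix.smul_apply, Matrix.map_apply]
    push_cast
    rw [smul_eq_mul, smul_eq_mul]
    congr 1
    congr 1
    · rw [Matrix.trace, Matrix.trace]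
      push_cast
      rfl
    · rw [Matrix.one_apply, Matrix.one_apply]
      split_ifs <;> simp
  rw [e F, e ℚ]
  exact h

end Pool.Agent.H.MP_aed2d0_al
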