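import Mathlib
import Pool.Agent.H.MP_aed2d0_al.Gap
import Pool.Agent.H.MP_aed2d0_al.Transfer

set_option autoImplicit false
set_option linter.unusedSectionVars false

namespace Pool.Agent.H.MP_aed2d0_al

open Finset Module

variable (k : ℕ)

theorem finrank_Polw_le {ι κ : Type} [Fintype ι] [DecidableEq ι] [Fintype κ] [DecidableEq κ]
    (e : κ ≃ ι) : finrank ℚ (Polw k κ) ≤ finrank ℚ (Polw k ι) := by
  let T : Polw k κ →ₗ[ℚ] Polw k ι :=
    { toFun := fun p => ⟨fun w => p.1 (w ∘ e), Polw_transport k e p.2⟩
      map_add' := fun _ _ => rfl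
      map_smul' := fun _ _ => rfl }
  apply LinearMap.finrank_le_finrank_of_injective (f := T)
  intro p q h
  apply Subtype.ext
  funext w
  have h1 := congrFun (congrArg (fun z : Polw k ι => z.1) h) (w ∘ e.symm)
  change p.1 ((w ∘ e.symm) ∘ e) = q.1 ((w ∘ e.symm) ∘ e) at h1
  have h2 : (w ∘ e.symm) ∘ e = w := by funext x; simp
  rwa [h2] at h1

theorem dim_gap' (hk : 2 ≤ k) {ι : Type} [Fintype ι] [DecidableEq ι] {n : ℕ}
    (h : Fintype.card ι = n) :
    tdim k n ≤ finrank ℚ (Polw k ι) + (n + 1) ^ (k * k + k * k) * (k * k - 1) ^ n := by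
  have h1 := dim_gap k hk n
  rw [finrank_Aw k (Fintype.card_fin n)] at h1
  have h2 := finrank_Polw_le k (Fintype.equivFinOfCardEq h).symm
  omega

variable (n : ℕ)

/-- value of a monomial on words -/
noncomputable def monoQ (σ : Equiv.Perm (Fin n)) (w : Fin n → Fin k × Fin k) :
    Matrix (Fin k) (Fin k) ℚ := (List.ofFn (fun i => ewF ℚ w (σ i))).prod

/-- the space of multilinear polynomial functions, on words -/
noncomputable def VQ : Submodule ℚ ((Fin n → Fin k × Fin k) → Matrix (Fin k) (Fin k) ℚ) :=
  Submodule.span ℚ (Set.range (monoQ k n))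

/-- matrix valued functions as scalar functions with one more variable -/
noncomputable def Lam : ((Fin n → Fin k × Fin k) → Matrix (Fin k) (Fin k) ℚ) ≃ₗ[ℚ]
    ((Option (Fin n) → Fin k × Fin k) → ℚ) where
  toFun f w := f (fun i => w (some i)) (w none).2 (w none).1
  invFun q w := Matrix.of fun a b => q (ocons (b, a) w)
  left_inv f := rfl
  right_inv q := by
    funext w
    change q (ocons ((w none).1, (w none).2) (fun i => w (some i))) = q w
    congr 1
    exact ocons_eta w
  map_add' _ _ := rfl
  map_smul' _ _ := rfl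

theorem Lam_apply (f : (Fin n → Fin k × Fin k) → Matrix (Fin k) (Fin k) ℚ)
    (w : Option (Fin n) → Fin k × Fin k) :
    Lam k n f w = f (fun i => w (some i)) (w none).2 (w none).1 := rfl

theorem trace_mul_ew_none (M : Matrix (Fin k) (Fin k) ℚ) (w : Option (Fin n) → Fin k × Fin k) :
    Matrix.trace (M * ew w none) = M (w none).2 (w none).1 := by
  rw [ew, Matrix.trace_mul_single]
  simp

theorem Lam_mono_eq (σ : Equiv.Perm (Fin n)) : Lam k n (monoQ k n σ) =
    trw k (Option (Fin n)) (fun x =>
      (((List.ofFn (fun i => some (σ i))) ++ [none]).map x).prod) := by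
  funext w
  rw [Lam_apply, trw_apply, List.map_append, List.prod_append, List.map_singleton,
    List.prod_singleton, trace_mul_ew_none, List.map_ofFn]
  rfl

theorem map_VQ : (VQ k n).map (Lam k n).toLinearMap = Polw k (Option (Fin n)) := by
  apply le_antisymm
  · rw [Submodule.map_le_iff_le_comap]
    unfold VQ
    rw [Submodule.span_le]
    rintro _ ⟨σ, rfl⟩
    change Lam k n (monoQ k n σ) ∈ Polw k (Option (Fin n))
    rw [Lam_mono_eq]
    apply Submodule.mem_map_of_mem
    apply mon_mem
    · rw [List.nodup_append]
      refine ⟨?_, by simp, ?_⟩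
      · rw [List.nodup_ofFn]
        intro a b h
        exact σ.injective (Option.some.inj h)
      · intro a ha b hb
        rw [List.mem_ofFn] at ha
        obtain ⟨i, rfl⟩ := ha
        rw [List.mem_singleton] at hb
        subst hb
        simp
    · ext v
      cases v with
      | none => simp
      | some j =>
        simp only [List.mem_toFinset, List.mem_append, List.mem_ofFn, Finset.mem_univ, iff_true]
        left
        exact ⟨σ.symm j, by simp⟩
  · unfold Polw
    rw [Submodule.map_le_iff_le_comap]
    intro f hf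
    refine Pol_induction k (trw k (Option (Fin n))) ((VQ k n).map (Lam k n).toLinearMap) ?_ hf
    intro l h1 h2
    have hnl : (none : Option (Fin n)) ∈ l := by
      rw [← List.mem_toFinset, h2]; simp
    obtain ⟨l1, l2, rfl⟩ := List.append_of_mem hnl
    have hn := h1
    rw [List.nodup_append] at hn
    obtain ⟨hn1, hn2, hn3⟩ := hn
    rw [List.nodup_cons] at hn2
    have hl1 : none ∉ l1 := fun h => hn3 none h none (by simp) rfl
    set L := l2 ++ l1 with hL
    have hLnd : L.Nodup := by
      rw [hL, List.nodup_append]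
      refine ⟨hn2.2, hn1, ?_⟩
      intro a ha b hb hab
      exact hn3 b hb a (by simp [ha]) hab.symm
    have hLnone : none ∉ L := by
      rw [hL, List.mem_append]
      rintro (h | h)
      · exact hn2.1 h
      · exact hl1 h
    have hLall : ∀ j : Fin n, some j ∈ L := by
      intro j
      have : some j ∈ (l1 ++ none :: l2).toFinset := by rw [h2]; simp
      simp only [List.mem_toFinset, List.mem_append, List.mem_cons] at this
      rw [hL, List.mem_append]
      rcases this with h | h | h
      · exact Or.inr h
      · simp at h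
      · exact Or.inl h
    obtain ⟨L', hL'⟩ : ∃ L' : List (Fin n), L = L'.map some := by
      have : ∀ (M : List (Option (Fin n))), none ∉ M → ∃ M' : List (Fin n), M = M'.map some := by
        intro M
        induction M with
        | nil => intro _; exact ⟨[], rfl⟩
        | cons a M ih =>
          intro h
          rw [List.mem_cons, not_or] at h
          obtain ⟨M', hM'⟩ := ih h.2
          cases a with
          | none => exact absurd rfl h.1
          | some j => exact ⟨j :: M', by rw [hM']; rfl⟩
      exact this L hLnone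
    have hL'nd : L'.Nodup := by
      rw [hL'] at hLnd
      exact hLnd.of_map _
    have hL'all : ∀ j, j ∈ L' := by
      intro j
      have := hLall j
      rw [hL', List.mem_map] at this
      obtain ⟨a, ha, ha2⟩ := this
      rw [← Option.some.inj ha2]
      exact ha
    have hlen : L'.length = n := by
      have h3 : L'.toFinset = Finset.univ := by
        ext j; simp [hL'all j]
      rw [← List.toFinset_card_of_nodup hL'nd, h3, Finset.card_univ, Fintype.card_fin]
    have hget : Function.Bijective (fun i : Fin n => L'.get (Fin.cast hlen.symm i)) := by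
      constructor
      · intro a b h
        have := List.nodup_iff_injective_get.mp hL'nd h
        exact Fin.cast_injective _ this
      · intro j
        obtain ⟨m, hm⟩ := List.mem_iff_get.mp (hL'all j)
        exact ⟨Fin.cast hlen m, by simpa using hm⟩
    let σ : Equiv.Perm (Fin n) := Equiv.ofBijective _ hget
    have hσ : L' = List.ofFn (fun i => σ i) := by
      apply List.ext_getElem
      · simp [hlen]
      · intro i h3 h4
        simp [σ]
    have h5 : trw k (Option (Fin n)) (fun x => (List.map x (l1 ++ none :: l2)).prod) =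
        Lam k n (monoQ k n σ) := by
      rw [Lam_mono_eq]
      funext w
      rw [trw_apply, trw_apply]
      have h6 : (List.ofFn fun i => some (σ i)) = L := by
        rw [hL', hσ, List.map_ofFn]; rfl
      rw [h6, List.map_append, List.prod_append, List.map_cons, List.prod_cons, List.map_append,
        List.prod_append, hL, List.map_append, List.prod_append]
      rw [← mul_assoc, Matrix.trace_mul_comm, ← mul_assoc]
      simp
    rw [h5]
    exact Submodule.mem_map_of_mem (Submodule.subset_span ⟨σ, rfl⟩)

theorem finrank_VQ : finrank ℚ (VQ k n) = finrank ℚ (Polw k (Option (Fin n))) := by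
  rw [← map_VQ]
  exact (LinearEquiv.finrank_eq ((Lam k n).submoduleMap (VQ k n)))

theorem VQ_le : finrank ℚ (VQ k n) ≤ tdim k (n + 1) := by
  rw [finrank_VQ, ← finrank_Aw k (ι := Option (Fin n)) (n := n + 1) (by simp)]
  exact Submodule.finrank_mono (Polw_le_Aw k)

theorem VQ_ge (hk : 2 ≤ k) : tdim k (n + 1) ≤ finrank ℚ (VQ k n) +
    (n + 2) ^ (k * k + k * k) * (k * k - 1) ^ (n + 1) := by
  rw [finrank_VQ]
  exact dim_gap' k hk (ι := Option (Fin n)) (by simp)

/-- trace-free part on functions -/
noncomputable def Tz : ((Fin n → Fin k × Fin k) → Matrix (Fin k) (Fin k) ℚ) →ₗ[ℚ]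
    ((Fin n → Fin k × Fin k) → Matrix (Fin k) (Fin k) ℚ) where
  toFun f w := tz k ℚ (f w)
  map_add' f g := by funext w; exact map_add (tz k ℚ) _ _
  map_smul' c f := by funext w; exact map_smul (tz k ℚ) _ _

/-- central polynomials modulo identities -/
noncomputable def del : ℕ := finrank ℚ (LinearMap.ker ((Tz k n).domRestrict (VQ k n)))

theorem zn_add_del : finrank ℚ (Submodule.span ℚ (Set.range (fun σ : Equiv.Perm (Fin n) =>
      fun w : Fin n → Fin k × Fin k => tz k ℚ (List.ofFn (fun i => ewF ℚ w (σ i))).prod))) +
      del k n = finrank ℚ (VQ k n) := by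
  have h : Submodule.span ℚ (Set.range (fun σ : Equiv.Perm (Fin n) =>
      fun w : Fin n → Fin k × Fin k => tz k ℚ (List.ofFn (fun i => ewF ℚ w (σ i))).prod)) =
      LinearMap.range ((Tz k n).domRestrict (VQ k n)) := by
    rw [LinearMap.range_domRestrict]
    unfold VQ
    rw [Submodule.map_span, ← Set.range_comp]
    rfl
  rw [h, ← LinearMap.finrank_range_add_finrank_ker ((Tz k n).domRestrict (VQ k n))]
  rfl

theorem del_le (hk : 1 ≤ k) : del k n ≤ tdim k n := by
  rw [← finrank_Aw k (ι := Fin n) (n := n) (by simp)]
  have hk' : (k : ℚ) ≠ 0 := by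
    have : k ≠ 0 := by omega
    exact_mod_cast this
  let S : ((Fin n → Fin k × Fin k) → Matrix (Fin k) (Fin k) ℚ) →ₗ[ℚ]
      ((Fin n → Fin k × Fin k) → ℚ) :=
    { toFun := fun f w => Matrix.trace (f w)
      map_add' := fun f g => by funext w; exact Matrix.trace_add _ _
      map_smul' := fun c f => by funext w; exact Matrix.trace_smul c (f w) }
  have hS : VQ k n ≤ (Aw k (Fin n)).comap S := by
    unfold VQ
    rw [Submodule.span_le]
    rintro _ ⟨σ, rfl⟩
    apply Polw_le_Aw k
    have h1 : S (monoQ k n σ) = trw k (Fin n) (fun x =>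
        ((List.ofFn (fun i => σ i)).map x).prod) := by
      funext w
      rw [trw_apply, List.map_ofFn]
      rfl
    rw [h1]
    apply Submodule.mem_map_of_mem
    apply mon_mem
    · rw [List.nodup_ofFn]
      exact σ.injective
    · ext j
      simp only [List.mem_toFinset, List.mem_ofFn, Finset.mem_univ, iff_true]
      exact ⟨σ.symm j, by simp⟩
  let G : LinearMap.ker ((Tz k n).domRestrict (VQ k n)) →ₗ[ℚ] Aw k (Fin n) :=
    { toFun := fun f => ⟨S f.1.1, hS f.1.2⟩
      map_add' := fun f g => Subtype.ext (map_add S _ _)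
      map_smul' := fun c f => Subtype.ext (map_smul S _ _) }
  apply LinearMap.finrank_le_finrank_of_injective (f := G)
  rw [injective_iff_map_eq_zero]
  intro f hf
  apply Subtype.ext
  apply Subtype.ext
  funext w
  have h1 : Matrix.trace (f.1.1 w) = 0 := congrFun (congrArg Subtype.val hf) w
  have h2 : (Tz k n).domRestrict (VQ k n) f.1 = 0 := f.2
  have h3 := congrFun h2 w
  change tz k ℚ (f.1.1 w) = 0 at h3
  rw [tz_apply, h1, zero_smul, sub_zero] at h3
  rcases smul_eq_zero.mp h3 with h4 | h4
  · exact absurd h4 hk'
  · exact h4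

theorem del_ge (hk : 2 ≤ k) : tdim k n ≤ del k n +
    (n + 2) ^ (k * k + k * k) * (k * k - 1) ^ (n + 1) := by
  let S : ((Fin n → Fin k × Fin k) → ℚ) →ₗ[ℚ]
      ((Fin n → Fin k × Fin k) → Matrix (Fin k) (Fin k) ℚ) :=
    { toFun := fun f w => f w • (1 : Matrix (Fin k) (Fin k) ℚ)
      map_add' := fun f g => by funext w; exact add_smul _ _ _
      map_smul' := fun c f => by funext w; exact mul_smul _ _ _ }
  have hSinj : Function.Injective S := by
    rw [injective_iff_map_eq_zero]
    intro f hf
    funext w
    have h1 := congrFun hf w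
    change f w • (1 : Matrix (Fin k) (Fin k) ℚ) = 0 at h1
    rcases smul_eq_zero.mp h1 with h2 | h2
    · exact h2
    · exfalso
      have : Nonempty (Fin k) := ⟨⟨0, by omega⟩⟩
      exact one_ne_zero h2
  set C := (Aw k (Fin n)).map S with hC
  have hCdim : finrank ℚ C = tdim k n := by
    rw [← finrank_Aw k (ι := Fin n) (n := n) (by simp)]
    exact (LinearEquiv.finrank_eq (Submodule.equivMapOfInjective S hSinj _)).symm
  set W := (Aw k (Option (Fin n))).comap (Lam k n).toLinearMap with hW
  have hWdim : finrank ℚ W ≤ tdim k (n + 1) := by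
    rw [← finrank_Aw k (ι := Option (Fin n)) (n := n + 1) (by simp)]
    let G : W →ₗ[ℚ] Aw k (Option (Fin n)) :=
      { toFun := fun f => ⟨Lam k n f.1, f.2⟩
        map_add' := fun f g => Subtype.ext (map_add (Lam k n) _ _)
        map_smul' := fun c f => Subtype.ext (map_smul (Lam k n) _ _) }
    apply LinearMap.finrank_le_finrank_of_injective (f := G)
    intro f g h
    apply Subtype.ext
    apply (Lam k n).injective
    exact congrArg (fun z : Aw k (Option (Fin n)) => z.1) h
  have hCW : C ≤ W := by
    rw [hC, hW, Submodule.map_le_iff_le_comap]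
    unfold Aw
    rw [Submodule.span_le]
    rintro _ ⟨σ, rfl⟩
    change Lam k n (S (Pw k σ)) ∈ Aw k (Option (Fin n))
    have h1 : Lam k n (S (Pw k σ)) = Pw k (Equiv.optionCongr σ) := by
      funext w
      rw [Lam_apply]
      change Pw k σ (fun i => w (some i)) * (1 : Matrix (Fin k) (Fin k) ℚ) (w none).2 (w none).1 = _
      rw [Matrix.one_apply]
      unfold Pw
      have h2 : (∀ i, (w i).2 = (w ((Equiv.optionCongr σ) i)).1) ↔
          ((∀ i : Fin n, (w (some i)).2 = (w (some (σ i))).1) ∧ (w none).2 = (w none).1) := by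
        constructor
        · intro h
          exact ⟨fun i => by simpa using h (some i), by simpa using h none⟩
        · rintro ⟨h3, h4⟩ i
          cases i with
          | none => simpa using h4
          | some i => simpa using h3 i
      by_cases h3 : ∀ i : Fin n, (w (some i)).2 = (w (some (σ i))).1
      · by_cases h4 : (w none).2 = (w none).1
        · rw [if_pos h3, if_pos h4, if_pos (h2.mpr ⟨h3, h4⟩), one_mul]
        · rw [if_neg h4, if_neg (fun h => h4 (h2.mp h).2), mul_zero]
      · rw [if_neg h3, if_neg (fun h => h3 (h2.mp h).1), zero_mul]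
    rw [h1]
    exact Submodule.subset_span ⟨_, rfl⟩
  have hVW : VQ k n ≤ W := by
    rw [hW, ← Submodule.map_le_iff_le_comap, map_VQ]
    exact Polw_le_Aw k
  have h1 := Submodule.finrank_sup_add_finrank_inf_eq C (VQ k n)
  have h2 : finrank ℚ (C ⊔ VQ k n : Submodule ℚ _) ≤ finrank ℚ W :=
    Submodule.finrank_mono (sup_le hCW hVW)
  have h3 := VQ_ge k n hk
  have h4 : finrank ℚ (C ⊓ VQ k n : Submodule ℚ _) ≤ del k n := by
    unfold del
    have hker : ∀ f, f ∈ C → Tz k n f = 0 := by
      intro f hf
      obtain ⟨g, _, rfl⟩ := hf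
      funext w
      change tz k ℚ (g w • (1 : Matrix (Fin k) (Fin k) ℚ)) = 0
      rw [tz_apply, Matrix.trace_smul, Matrix.trace_one, Fintype.card_fin, smul_smul, smul_eq_mul,
        mul_comm, sub_self]
    let G : (C ⊓ VQ k n : Submodule ℚ _) →ₗ[ℚ] LinearMap.ker ((Tz k n).domRestrict (VQ k n)) :=
      { toFun := fun f => ⟨⟨f.1, f.2.2⟩, hker f.1 f.2.1⟩
        map_add' := fun _ _ => rfl
        map_smul' := fun _ _ => rfl }
    apply LinearMap.finrank_le_finrank_of_injective (f := G)
    intro f g h
    apply Subtype.ext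
    have h' := congrArg (fun z : LinearMap.ker ((Tz k n).domRestrict (VQ k n)) => z.1.1) h
    exact h'
  omega

end Pool.Agent.H.MP_aed2d0_al
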