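import Mathlib

set_option autoImplicit false
set_option linter.unusedSectionVars false

namespace Pool.Agent.H.MP_aed2d0_al

open Filter Topology

/-- polynomial times a smaller exponential over a larger exponential tends to zero -/
theorem poly_exp_small (p : ℕ) {a b : ℝ} (ha : 0 < a) (hab : a < b) :
    Tendsto (fun n : ℕ => ((n : ℝ) + 2) ^ p * a ^ n / b ^ n) atTop (𝓝 0) := by
  have hb : 0 < b := ha.trans hab
  have hr : 1 < b / a := by rw [one_lt_div ha]; exact hab
  have h1 := tendsto_pow_const_div_const_pow_of_one_lt p hr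
  have h2 := (tendsto_add_atTop_iff_nat 2).mpr h1
  have h3 : Tendsto (fun n : ℕ => (b / a) ^ 2 * (((n + 2 : ℕ) : ℝ) ^ p / (b / a) ^ (n + 2))) atTop
      (𝓝 ((b / a) ^ 2 * 0)) := h2.const_mul _
  rw [mul_zero] at h3
  refine h3.congr ?_
  intro n
  push_cast
  rw [pow_add, div_pow b a n]
  have : (b / a) ^ 2 ≠ 0 := by positivity
  field_simp

theorem ratio_limit (t : ℕ → ℝ) (hpos : ∀ n, 0 < t n)
    (hlc : ∀ n, t (n + 1) ^ 2 ≤ t n * t (n + 2)) (L : ℝ) (hL : 0 < L)
    (hup : ∀ n, t n ≤ L ^ n) (p : ℕ) (hlow : ∀ n, L ^ n ≤ t n * ((n : ℝ) + 1) ^ p) :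
    Tendsto (fun n => t (n + 1) / t n) atTop (𝓝 L) := by
  set a : ℕ → ℝ := fun n => t (n + 1) / t n with ha
  have hapos : ∀ n, 0 < a n := fun n => div_pos (hpos _) (hpos _)
  have hmono : Monotone a := by
    apply monotone_nat_of_le_succ
    intro n
    simp only [ha]
    rw [div_le_div_iff₀ (hpos _) (hpos _)]
    have := hlc n
    nlinarith
  have hstep : ∀ n, t (n + 1) = a n * t n := by
    intro n
    simp only [ha]
    field_simp [(hpos n).ne']
  -- upper bound
  have hbd : ∀ n, a n ≤ L := by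
    intro n
    by_contra hcon
    push Not at hcon
    have h1 : ∀ j, t n * (a n) ^ j ≤ t (n + j) := by
      intro j
      induction j with
      | zero => simp
      | succ j ih =>
        rw [pow_succ, ← add_assoc, hstep (n + j)]
        have h2 : a n ≤ a (n + j) := hmono (by omega)
        calc t n * (a n ^ j * a n) = (t n * a n ^ j) * a n := by ring
          _ ≤ t (n + j) * a (n + j) := by
            apply mul_le_mul ih h2 (hapos n).le (hpos _).le
          _ = a (n + j) * t (n + j) := by ring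
    have h3 : ∀ j : ℕ, (a n / L) ^ j ≤ L ^ n / t n := by
      intro j
      rw [div_pow, div_le_div_iff₀ (by positivity) (hpos n)]
      calc a n ^ j * t n = t n * a n ^ j := by ring
        _ ≤ t (n + j) := h1 j
        _ ≤ L ^ (n + j) := hup _
        _ = L ^ n * L ^ j := pow_add _ _ _
    have h4 : 1 < a n / L := by rw [one_lt_div hL]; exact hcon
    obtain ⟨j, hj⟩ := pow_unbounded_of_one_lt (L ^ n / t n) h4
    exact absurd (h3 j) (not_le.mpr hj)
  have hconv := tendsto_atTop_ciSup hmono ⟨L, by rintro _ ⟨n, rfl⟩; exact hbd n⟩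
  set ℓ := ⨆ n, a n with hℓ
  have hℓL : ℓ ≤ L := ciSup_le hbd
  have haℓ : ∀ n, a n ≤ ℓ := fun n => le_ciSup (f := a) ⟨L, by rintro _ ⟨n, rfl⟩; exact hbd n⟩ n
  have hℓpos : 0 < ℓ := (hapos 0).trans_le (haℓ 0)
  have hLℓ : L ≤ ℓ := by
    by_contra hcon
    push Not at hcon
    have h1 : ∀ n, t n ≤ t 0 * ℓ ^ n := by
      intro n
      induction n with
      | zero => simp
      | succ n ih =>
        rw [hstep, pow_succ]
        calc a n * t n ≤ ℓ * (t 0 * ℓ ^ n) := mul_le_mul (haℓ n) ih (hpos n).le hℓpos.le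
          _ = t 0 * (ℓ ^ n * ℓ) := by ring
    have h2 := poly_exp_small p hℓpos hcon
    have h3 : Tendsto (fun n : ℕ => t 0 * (((n : ℝ) + 2) ^ p * ℓ ^ n / L ^ n)) atTop
        (𝓝 (t 0 * 0)) := h2.const_mul _
    rw [mul_zero] at h3
    have h4 : ∀ n : ℕ, 1 ≤ t 0 * (((n : ℝ) + 2) ^ p * ℓ ^ n / L ^ n) := by
      intro n
      rw [← mul_div_assoc, le_div_iff₀ (by positivity), one_mul]
      calc L ^ n ≤ t n * ((n : ℝ) + 1) ^ p := hlow n
        _ ≤ (t 0 * ℓ ^ n) * ((n : ℝ) + 2) ^ p := by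
          apply mul_le_mul (h1 n)
          · apply pow_le_pow_left₀ (by positivity); linarith
          · positivity
          · exact mul_nonneg (hpos 0).le (by positivity)
        _ = _ := by ring
    have h5 := ge_of_tendsto' h3 h4
    linarith
  have : ℓ = L := le_antisymm hℓL hLℓ
  rw [← this]
  exact hconv

/-- final limit -/
theorem final_limit (t c d : ℕ → ℝ) (hpos : ∀ n, 0 < t n)
    (L B : ℝ) (hB : 0 < B) (hBL : B < L) (m p : ℕ)
    (hlim : Tendsto (fun n => t (n + 1) / t n) atTop (𝓝 L))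
    (hlow : ∀ n, L ^ n ≤ t n * ((n : ℝ) + 1) ^ p)
    (hc1 : ∀ n, c n ≤ t (n + 1))
    (hc2 : ∀ n : ℕ, t (n + 1) ≤ c n + ((n : ℝ) + 2) ^ m * B ^ (n + 1))
    (hd1 : ∀ n, d n ≤ t n)
    (hd2 : ∀ n : ℕ, t n ≤ d n + ((n : ℝ) + 2) ^ m * B ^ (n + 1)) :
    Tendsto (fun n => (c n - d n) / c n) atTop (𝓝 (1 - 1 / L)) := by
  have hL : 0 < L := hB.trans hBL
  -- error over t n tends to 0
  have herr : Tendsto (fun n : ℕ => ((n : ℝ) + 2) ^ m * B ^ (n + 1) / t n) atTop (𝓝 0) := by
    have h1 := (poly_exp_small (m + p) hB hBL).const_mul B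
    rw [mul_zero] at h1
    refine squeeze_zero (fun n => ?_) (fun n => ?_) h1
    · have := hpos n
      positivity
    · rw [div_le_iff₀ (hpos n)]
      have h2 := hlow n
      have h3 : (((n : ℝ) + 1) ^ p) ≤ ((n : ℝ) + 2) ^ p := by
        apply pow_le_pow_left₀ (by positivity); linarith
      have h4 : L ^ n ≤ t n * ((n : ℝ) + 2) ^ p :=
        h2.trans (mul_le_mul_of_nonneg_left h3 (hpos n).le)
      calc ((n : ℝ) + 2) ^ m * B ^ (n + 1)
          = B * (((n : ℝ) + 2) ^ m * B ^ n / L ^ n) * L ^ n := by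
            rw [pow_succ]; field_simp
        _ ≤ B * (((n : ℝ) + 2) ^ m * B ^ n / L ^ n) * (t n * ((n : ℝ) + 2) ^ p) := by
            apply mul_le_mul_of_nonneg_left h4
            positivity
        _ = B * (((n : ℝ) + 2) ^ (m + p) * B ^ n / L ^ n) * t n := by
            rw [pow_add]; ring
  have hd : Tendsto (fun n => d n / t n) atTop (𝓝 1) := by
    have h1 : Tendsto (fun n : ℕ => 1 - ((n : ℝ) + 2) ^ m * B ^ (n + 1) / t n) atTop
        (𝓝 (1 - 0)) := tendsto_const_nhds.sub herr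
    rw [sub_zero] at h1
    refine tendsto_of_tendsto_of_tendsto_of_le_of_le h1 tendsto_const_nhds (fun n => ?_)
      (fun n => ?_)
    · change 1 - _ ≤ d n / t n
      rw [sub_le_iff_le_add, ← add_div, le_div_iff₀ (hpos n), one_mul]
      exact hd2 n
    · change d n / t n ≤ 1
      rw [div_le_one (hpos n)]
      exact hd1 n
  have hc : Tendsto (fun n => c n / t n) atTop (𝓝 L) := by
    have h1 : Tendsto (fun n : ℕ => t (n + 1) / t n - ((n : ℝ) + 2) ^ m * B ^ (n + 1) / t n) atTop
        (𝓝 (L - 0)) := hlim.sub herr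
    rw [sub_zero] at h1
    refine tendsto_of_tendsto_of_tendsto_of_le_of_le h1 hlim (fun n => ?_)
      (fun n => ?_)
    · change t (n + 1) / t n - _ ≤ c n / t n
      rw [← sub_div]
      apply div_le_div_of_nonneg_right _ (hpos n).le
      linarith [hc2 n]
    · change c n / t n ≤ t (n + 1) / t n
      exact div_le_div_of_nonneg_right (hc1 n) (hpos n).le
  have h1 : Tendsto (fun n => (c n / t n - d n / t n) / (c n / t n)) atTop
      (𝓝 ((L - 1) / L)) := (hc.sub hd).div hc hL.ne'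
  have h2 : (L - 1) / L = 1 - 1 / L := by field_simp
  rw [h2] at h1
  refine h1.congr (fun n => ?_)
  have h3 := (hpos n).ne'
  rw [← sub_div]
  by_cases h4 : c n = 0
  · simp [h4]
  · field_simp

end Pool.Agent.H.MP_aed2d0_al
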